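import Pool.Agent.H43.UB.NEA

/-!
# THEOREM UD, chapter B: branches over full discs

`brl`. For `0 < ρ' < ρ` the ball `closedBall (Fh s) ρ'` is disjoint from `Ph`: `gb` gives `g_ρ'` on `ball (Fh s) ρ'`, `g_ρ' (Fh s) = s`, `Gd u (g_ρ' u)`. For `ρ' < ρ''` they agree on the smaller ball (`fh_lift_eq` with `H = id`; `fh_eq`). Put `g u = g_ρ(u) u`, `ρ(u) = (‖u - Fh s‖ + ρ) / 2`. Near `u` `g = g_ρ'` for a fixed `ρ'` (all are equal where defined), so `g` is differentiable. The image of the ball is preconnected, in `Sg`, contains `s ∈ Sc`: in `Sc` (`sc_of`).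
-/

set_option autoImplicit false

open Filter Topology Metric Set MeasureTheory

namespace Pool.Agent.H43.UB

open Pool.Agent.H56.UD

variable {𝒰 : Ultrafilter ℕ} {F : ℕ → ℂ → ℂ} {D P : ℕ → Set ℂ} {θ C : ℝ}

theorem brl (h : LS 𝒰 F D P θ C) {sb s : ℂ} (hs : s ∈ Sc 𝒰 F D P sb) {ρ : ℝ} (hρ : 0 < ρ)
    (hoff : Disjoint (ball (Fh 𝒰 F D P s) ρ) (Ph 𝒰 P)) : ∃ g : ℂ → ℂ, DifferentiableOn ℂ g (ball (Fh 𝒰 F D P s) ρ) ∧
      g (Fh 𝒰 F D P s) = s ∧ ∀ u ∈ ball (Fh 𝒰 F D P s) ρ, g u ∈ Sc 𝒰 F D P sb ∧ Fh 𝒰 F D P (g u) = u := by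
  set w0 := Fh 𝒰 F D P s with hw0
  have hsg : s ∈ Sg 𝒰 F D P := sc_sub sb hs
  have hgd : Gd 𝒰 F D P w0 s := fh_gd hsg
  have hex : ∀ r : ℝ, 0 < r → r < ρ → ∃ g : ℂ → ℂ, DifferentiableOn ℂ g (ball w0 r) ∧ g w0 = s ∧
      ∀ u ∈ ball w0 r, Gd 𝒰 F D P u (g u) := by
    intro r hr hrρ
    obtain ⟨_, g, _, _, _, h1, _, h2, h3⟩ := gb h hgd hr (hoff.mono_left (closedBall_subset_ball hrρ))
    exact ⟨g, h1, h2, h3⟩
  choose! gg hg1 hg2 hg3 using hex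
  have hag : ∀ r r' : ℝ, 0 < r → r ≤ r' → r' < ρ → EqOn (gg r) (gg r') (ball w0 r) := by
    intro r r' hr hrr hr'
    have hsub : ball w0 r ⊆ ball w0 r' := ball_subset_ball hrr
    refine fh_lift_eq h (H := id) isOpen_ball (convex_ball w0 r).isPreconnected (hg1 r hr (by linarith))
      ((hg1 r' (by linarith) hr').mono hsub) (fun u hu => ?_) (fun u hu => ?_) (fun u _ => by simp) (mem_ball_self hr) ?_
    · have h4 := hg3 r hr (by linarith) u hu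
      exact ⟨⟨u, h4⟩, fh_eq h h4⟩
    · have h4 := hg3 r' (by linarith) hr' u (hsub hu)
      exact ⟨⟨u, h4⟩, fh_eq h h4⟩
    · rw [hg2 r hr (by linarith), hg2 r' (by linarith) hr']
  set g : ℂ → ℂ := fun u => gg ((dist u w0 + ρ) / 2) u with hg
  have hgr : ∀ r : ℝ, 0 < r → r < ρ → ∀ u ∈ ball w0 r, g u = gg r u := by
    intro r hr hrρ u hu
    rw [mem_ball] at hu
    have hd0 : 0 ≤ dist u w0 := dist_nonneg
    rcases le_total r ((dist u w0 + ρ) / 2) with hle | hle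
    · exact (hag r _ hr hle (by linarith) (mem_ball.2 hu)).symm
    · exact hag _ r (by linarith) hle hrρ (by rw [mem_ball]; linarith)
  have hgu : ∀ u ∈ ball w0 ρ, Gd 𝒰 F D P u (g u) := by
    intro u hu
    rw [mem_ball] at hu
    have hd0 : 0 ≤ dist u w0 := dist_nonneg
    exact hg3 ((dist u w0 + ρ) / 2) (by linarith) (by linarith) u (by rw [mem_ball]; linarith)
  have hgd' : DifferentiableOn ℂ g (ball w0 ρ) := by
    intro u hu
    rw [mem_ball] at hu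
    have hd0 : 0 ≤ dist u w0 := dist_nonneg
    have hmem : ball w0 ((dist u w0 + ρ) / 2) ∈ 𝓝 u := isOpen_ball.mem_nhds (by rw [mem_ball]; linarith)
    have h5 : DifferentiableAt ℂ (gg ((dist u w0 + ρ) / 2)) u :=
      (hg1 _ (by linarith) (by linarith)).differentiableAt hmem
    refine (h5.congr_of_eventuallyEq ?_).differentiableWithinAt
    filter_upwards [hmem] with v hv
    exact hgr _ (by linarith) (by linarith) v hv
  have hgw : g w0 = s := by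
    rw [hgr (ρ / 2) (by linarith) (by linarith) w0 (mem_ball_self (by linarith))]
    exact hg2 _ (by linarith) (by linarith)
  have himg : g '' ball w0 ρ ⊆ Sc 𝒰 F D P sb := by
    refine sc_of ((convex_ball w0 ρ).isPreconnected.image g hgd'.continuousOn) ?_ ⟨s, ⟨w0, mem_ball_self hρ, hgw⟩, hs⟩
    rintro _ ⟨u, hu, rfl⟩
    exact ⟨u, hgu u hu⟩
  exact ⟨g, hgd', hgw, fun u hu => ⟨himg ⟨u, hu, rfl⟩, fh_eq h (hgu u hu)⟩⟩

/-- a point of the complement of `Ph` which is near a value is a value -/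
theorem onto_of (h : LS 𝒰 F D P θ C) {sb : ℂ} (hsb : sb ∈ Sg 𝒰 F D P) (hc : IsPreconnected (Ph 𝒰 P)ᶜ) {w : ℂ}
    (hw : w ∉ Ph 𝒰 P) : ∃ s ∈ Sc 𝒰 F D P sb, Fh 𝒰 F D P s = w := by
  have hstep : ∀ (v y : ℂ) (r : ℝ), 0 < r → ball v r ⊆ (Ph 𝒰 P)ᶜ → y ∈ ball v r →
      (∃ s ∈ Sc 𝒰 F D P sb, Fh 𝒰 F D P s = v) → ∃ s ∈ Sc 𝒰 F D P sb, Fh 𝒰 F D P s = y := by
    rintro v y r hr hb hy ⟨s, hs, rfl⟩
    obtain ⟨g, _, _, hg⟩ := brl h hs hr (Set.disjoint_left.2 fun z hz hzP => hb hz hzP)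
    exact ⟨g y, (hg y hy).1, (hg y hy).2⟩
  have hsbc : sb ∈ Sc 𝒰 F D P sb := mem_connectedComponentIn hsb
  have hsb0 : Fh 𝒰 F D P sb ∈ (Ph 𝒰 P)ᶜ := (fh_gd hsb).1
  have hP := hc.induction₂ (fun x y => (∃ s ∈ Sc 𝒰 F D P sb, Fh 𝒰 F D P s = x) ↔ ∃ s ∈ Sc 𝒰 F D P sb, Fh 𝒰 F D P s = y)
    (fun x hx => ?_) (fun a b c _ _ _ h1 h2 => h1.trans h2) (fun a b _ _ h1 => h1.symm) hsb0 hw
  · exact hP.1 ⟨sb, hsbc, rfl⟩
  · obtain ⟨r, hr, hrs⟩ := Metric.isOpen_iff.1 (ph_closed (𝒰 := 𝒰) (P := P)).isOpen_compl x hx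
    refine mem_nhdsWithin_of_mem_nhds ?_
    filter_upwards [ball_mem_nhds x (half_pos hr)] with y hy
    constructor
    · exact hstep x y r hr hrs (ball_subset_ball (by linarith) hy)
    · refine hstep y x (r / 2) (by linarith) (fun z hz => hrs ?_) (by rw [mem_ball'] at hy; exact hy)
      rw [mem_ball] at hz hy ⊢
      linarith [dist_triangle z y x]

end Pool.Agent.H43.UB
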