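import Pool.Agent.H56.UD.BDefs
import Pool.Agent.H80.AJ.Distort

/-!
# THEOREM UD, chapter B: Hurwitz's theorem along an ultrafilter

`uh_hit` (as `hur_hit` in H56/RD/HUR.lean, for an ultrafilter and moving targets): `G` is differentiable on `S` (`TendstoLocallyUniformlyOn.differentiableOn`), analytic at `u0` and not locally constant: there is `s < ε` with `closedBall u0 s ⊆ S` and `G u ≠ G u0` on the circle `‖u - u0‖ = s`; `m > 0` the minimum of `‖G u - G u0‖` there. For almost all `n`: `‖g n u - G u‖ < m / 8` on `closedBall u0 s` (compact), `‖w n - G u0‖ < m / 8`.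
If `g n u ≠ w n` on `closedBall u0 s` then `1 / (g n u - w n)` is holomorphic inside, at most `2 / m` on the circle (`m - m/8 - m/8`), at least `4 / m` at `u0` (`m/8 + m/8`): contradiction (`Complex.norm_le_of_forall_mem_frontier_norm_le`).
`uh_inj`: `G` is not locally constant at any point of `S` (identity theorem, `S` preconnected). If `G u1 = G u2`, `u1 ≠ u2`: `uh_hit` at `u2` with `w n = g n u1`, `ε` small (`u1 ∉ ball u2 ε`): `g n u = g n u1` with `u ∈ ball u2 ε ∩ S`: contradiction. `uh_der`: `deriv_ne` (H80/AJ/Distort) on a ball in `S` with centre `u`.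
-/

set_option autoImplicit false

open Filter Topology Metric Set MeasureTheory

namespace Pool.Agent.H43.UB

theorem uh_hit (𝒰 : Ultrafilter ℕ) {S : Set ℂ} (hS : IsOpen S) {g : ℕ → ℂ → ℂ} {G : ℂ → ℂ}
    (hg : ∀ᶠ n in (𝒰 : Filter ℕ), DifferentiableOn ℂ (g n) S) (h : TendstoLocallyUniformlyOn g G (𝒰 : Filter ℕ) S)
    {u0 : ℂ} (hu : u0 ∈ S) (hn : ¬ ∀ᶠ u in 𝓝 u0, G u = G u0) {w : ℕ → ℂ} (hw : Tendsto w (𝒰 : Filter ℕ) (𝓝 (G u0)))
    {ε : ℝ} (hε : 0 < ε) : ∀ᶠ n in (𝒰 : Filter ℕ), ∃ u ∈ ball u0 ε ∩ S, g n u = w n := by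
  have hGd : DifferentiableOn ℂ G S := h.differentiableOn hg hS
  have han : AnalyticAt ℂ (fun z => G z - G u0) u0 :=
    (hGd.analyticAt (hS.mem_nhds hu)).sub analyticAt_const
  have hne : ∀ᶠ z in 𝓝 u0, z ≠ u0 → G z ≠ G u0 := by
    rcases han.eventually_eq_zero_or_eventually_ne_zero with h0 | h0
    · exact absurd (h0.mono fun z hz => sub_eq_zero.1 hz) hn
    · rw [eventually_nhdsWithin_iff] at h0
      exact h0.mono fun z hz hzu => sub_ne_zero.1 (hz hzu)
  have hall : ∀ᶠ z in 𝓝 u0, z ∈ S ∧ z ∈ ball u0 ε ∧ (z ≠ u0 → G z ≠ G u0) :=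
    Filter.Eventually.and (hS.mem_nhds hu) (Filter.Eventually.and (ball_mem_nhds u0 hε) hne)
  obtain ⟨s, hs, hball⟩ := Metric.nhds_basis_closedBall.mem_iff.1 hall
  have hsS : closedBall u0 s ⊆ S := fun z hz => (hball hz).1
  have hcont : ContinuousOn (fun z => ‖G z - G u0‖) (sphere u0 s) :=
    ((hGd.continuousOn.mono (sphere_subset_closedBall.trans hsS)).sub continuousOn_const).norm
  have hsne : (sphere u0 s).Nonempty := NormedSpace.sphere_nonempty.2 hs.le
  obtain ⟨z0, hz0, hmin⟩ := (isCompact_sphere u0 s).exists_isMinOn hsne hcont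
  set m := ‖G z0 - G u0‖ with hm
  have hmpos : 0 < m := by
    apply norm_pos_iff.2
    apply sub_ne_zero.2
    apply (hball (sphere_subset_closedBall hz0)).2.2
    intro hc
    rw [hc, mem_sphere, dist_self] at hz0
    linarith
  have hunif : TendstoUniformlyOn g G (𝒰 : Filter ℕ) (closedBall u0 s) :=
    (tendstoLocallyUniformlyOn_iff_forall_isCompact hS).1 h _ hsS (isCompact_closedBall u0 s)
  have hun := Metric.tendstoUniformlyOn_iff.1 hunif (m / 8) (by positivity)
  have hwn := Metric.tendsto_nhds.1 hw (m / 8) (by positivity)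
  filter_upwards [hun, hwn, hg] with n hk hwk hgn
  by_contra hcon
  push Not at hcon
  have hk' : ∀ z ∈ closedBall u0 s, ‖G z - g n z‖ < m / 8 := fun z hz => by
    have := hk z hz
    rwa [dist_eq_norm] at this
  have hw' : ‖w n - G u0‖ < m / 8 := by rwa [dist_eq_norm] at hwk
  have hnz : ∀ z ∈ closedBall u0 s, g n z - w n ≠ 0 := fun z hz =>
    sub_ne_zero.2 (hcon z ⟨(hball hz).2.1, (hball hz).1⟩)
  have hdiff : DiffContOnCl ℂ (fun z => (g n z - w n)⁻¹) (ball u0 s) := by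
    apply DifferentiableOn.diffContOnCl
    rw [closure_ball u0 hs.ne']
    exact ((hgn.mono hsS).sub_const (w n)).inv hnz
  have hbd : ∀ z ∈ frontier (ball u0 s), ‖(g n z - w n)⁻¹‖ ≤ 4 / (3 * m) := by
    intro z hz
    rw [frontier_ball u0 hs.ne'] at hz
    have h1 := hmin hz
    simp only [mem_ofPred_eq] at h1
    have h2 := hk' z (sphere_subset_closedBall hz)
    have h3 : ‖G z - G u0‖ ≤ ‖g n z - w n‖ + ‖G z - g n z‖ + ‖w n - G u0‖ := by
      have e : G z - G u0 = (g n z - w n) + (G z - g n z) + (w n - G u0) := by ring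
      rw [e]
      exact (norm_add_le _ _).trans (add_le_add (norm_add_le _ _) le_rfl)
    have h4 : 3 * m / 4 ≤ ‖g n z - w n‖ := by linarith
    rw [norm_inv, inv_le_comm₀ (by linarith) (by positivity)]
    calc (4 / (3 * m))⁻¹ = 3 * m / 4 := by rw [inv_div]
      _ ≤ _ := h4
  have hfin := Complex.norm_le_of_forall_mem_frontier_norm_le Metric.isBounded_ball hdiff hbd
    (subset_closure (mem_ball_self hs))
  have h5 := hk' u0 (mem_closedBall_self hs.le)
  have h6 : 0 < ‖g n u0 - w n‖ := norm_pos_iff.2 (hnz u0 (mem_closedBall_self hs.le))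
  have h7 : ‖g n u0 - w n‖ ≤ ‖G u0 - g n u0‖ + ‖w n - G u0‖ := by
    have e : g n u0 - w n = -((G u0 - g n u0) + (w n - G u0)) := by ring
    rw [e, norm_neg]
    exact norm_add_le _ _
  rw [norm_inv, inv_le_comm₀ h6 (by positivity), inv_div] at hfin
  linarith

theorem uh_inj (𝒰 : Ultrafilter ℕ) {S : Set ℂ} (hS : IsOpen S) (hp : IsPreconnected S) {g : ℕ → ℂ → ℂ} {G : ℂ → ℂ}
    (hg : ∀ᶠ n in (𝒰 : Filter ℕ), DifferentiableOn ℂ (g n) S) (h : TendstoLocallyUniformlyOn g G (𝒰 : Filter ℕ) S)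
    (hi : ∀ᶠ n in (𝒰 : Filter ℕ), InjOn (g n) S) (hn : ∃ u ∈ S, deriv G u ≠ 0) : InjOn G S := by
  have hGd : DifferentiableOn ℂ G S := h.differentiableOn hg hS
  intro u1 hu1 u2 hu2 he
  by_contra hne
  have hnc : ¬ ∀ᶠ u in 𝓝 u2, G u = G u2 := by
    intro hev
    have hGa : AnalyticOnNhd ℂ G S := hGd.analyticOnNhd hS
    have heq : EqOn G (fun _ => G u2) S :=
      hGa.eqOn_of_preconnected_of_eventuallyEq analyticOnNhd_const hp hu2 hev
    obtain ⟨z1, hz1, hd⟩ := hn
    apply hd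
    have h1 : G =ᶠ[𝓝 z1] fun _ => G u2 := by
      filter_upwards [hS.mem_nhds hz1] with z hz
      exact heq hz
    rw [h1.deriv_eq]
    simp
  have hw : Tendsto (fun n => g n u1) (𝒰 : Filter ℕ) (𝓝 (G u2)) := by
    rw [← he]
    exact h.tendsto_at hu1
  have hε : 0 < dist u1 u2 := dist_pos.2 hne
  obtain ⟨n, ⟨u, hu, hun⟩, hin⟩ := ((uh_hit 𝒰 hS hg h hu2 hnc hw hε).and hi).exists
  have h1 : u = u1 := hin hu.2 hu1 hun
  rw [h1] at hu
  exact lt_irrefl _ (mem_ball.1 hu.1)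

theorem uh_der {S : Set ℂ} (hS : IsOpen S) {G : ℂ → ℂ} (hG : DifferentiableOn ℂ G S) (hi : InjOn G S) {u : ℂ} (hu : u ∈ S) :
    deriv G u ≠ 0 := by
  obtain ⟨R, hR, hball⟩ := Metric.isOpen_iff.1 hS u hu
  exact norm_pos_iff.1 (Pool.Agent.H80.AJ.deriv_ne hR (hG.mono hball) (hi.mono hball)
    (mem_closedBall_self (by positivity)))

/-- the image of an open set under an injective holomorphic function is open -/
theorem uh_open {S : Set ℂ} (hS : IsOpen S) {G : ℂ → ℂ} (hG : DifferentiableOn ℂ G S) (hi : InjOn G S) {V : Set ℂ}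
    (hV : IsOpen V) (hVS : V ⊆ S) : IsOpen (G '' V) := by
  rw [isOpen_iff_mem_nhds]
  rintro _ ⟨u, hu, rfl⟩
  have h1 : HasStrictDerivAt G (deriv G u) u := (hG.analyticAt (hS.mem_nhds (hVS hu))).hasStrictDerivAt
  rw [← h1.map_nhds_eq (uh_der hS hG hi (hVS hu))]
  exact image_mem_map (hV.mem_nhds hu)

end Pool.Agent.H43.UB
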