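import Pool.Agent.H43.UB.PHM
import Pool.Agent.H43.UB.UH

/-!
# THEOREM UD, chapter B: limits of gap discs

`gap_lim`. The `ψ n` are bounded on `ball 0 1` (`out`, `x n → x0`): `um`: `ψ n → ψ0` locally uniformly on `ball 0 1`. NOT CONSTANT: `ball (x n) (r / C) ⊆ ψ n '' ball 0 θ`, so the diameter of `ψ0 '' closedBall 0 θ` is at least `r / C` (points `x n ± r / (2 C)` have preimages in `closedBall 0 θ`, compact); so `deriv ψ0 ≠ 0` somewhere and `uh_inj`: `ψ0` injective.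
`inn`: `w ∈ ball x0 (r / C)`: `w ∈ ball (x n) (r / C)` for almost all `n`: `w = ψ n (u n)`, `‖u n‖ < θ`, `u n → u`, `‖u‖ ≤ θ`, `ψ0 u = w`. So `ball x0 (r / C) ⊆ ψ0 '' closedBall 0 θ`; it is open: the preimage in the unit disc is an open set contained in `closedBall 0 θ`, so in its interior `ball 0 θ`.
`out`: `‖ψ0 u - x0‖ ≤ r`; `ψ0 '' ball 0 1` is open (`uh_open`), so it is contained in the interior of `closedBall x0 r`.
`col`: `θ < ‖u‖ < 1`, `ψ0 u ∈ Ph`: `y n ∈ P n`, `y n → ψ0 u` (`ph_app`; `Ph` of closed nonempty sets); `uh_hit`: `y n = ψ n (v n)`, `v n ∈ ball u ε`, so `θ < ‖v n‖ < 1`: contradiction to `col` of `ψ n`.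
`ph_gap`: `ph_app`, `h.gap`, `gap_lim`. `ph_int`: the interior of `Ph` is empty: a point `x ∈ Ph` has gap discs of radius `r`, their collars (points of `ball x r`) are off `Ph`.
-/

set_option autoImplicit false

open Filter Topology Metric Set MeasureTheory

namespace Pool.Agent.H43.UB

open Pool.Agent.H56.UD

variable {𝒰 : Ultrafilter ℕ} {F : ℕ → ℂ → ℂ} {D P : ℕ → Set ℂ} {θ C : ℝ}

theorem gap_lim (hθ0 : 0 < θ) (hθ1 : θ < 1) (hC : 1 ≤ C) (hP : ∀ n, IsClosed (P n)) (hP0 : ∀ n, (P n).Nonempty)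
    {x : ℕ → ℂ} {x0 : ℂ} {r : ℝ} (hr : 0 < r) (hx : Tendsto x (𝒰 : Filter ℕ) (𝓝 x0)) {ψ : ℕ → ℂ → ℂ}
    (hψ : ∀ᶠ n in (𝒰 : Filter ℕ), GD θ C (P n) (x n) r (ψ n)) :
    ∃ ψ0 : ℂ → ℂ, GD θ C (Ph 𝒰 P) x0 r ψ0 ∧ TendstoLocallyUniformlyOn ψ ψ0 (𝒰 : Filter ℕ) (ball 0 1) := by
  have hC0 : 0 < C := lt_of_lt_of_le one_pos hC
  have hrC : 0 < r / C := div_pos hr hC0
  have hx1 : ∀ ε : ℝ, 0 < ε → ∀ᶠ n in (𝒰 : Filter ℕ), ‖x n - x0‖ < ε := by
    intro ε hε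
    filter_upwards [Metric.tendsto_nhds.1 hx ε hε] with n hn
    rwa [dist_eq_norm] at hn
  have hg : ∀ᶠ n in (𝒰 : Filter ℕ), DifferentiableOn ℂ (ψ n) (ball 0 1) := by
    filter_upwards [hψ] with n hn
    exact hn.diff
  obtain ⟨ψ0, hd, ht⟩ := um 𝒰 (S := ball (0 : ℂ) 1) isOpen_ball hg (by
    intro u hu
    rw [mem_ball_zero_iff] at hu
    refine ⟨1 - ‖u‖, ‖x0‖ + 1 + r, by linarith, ?_, ?_⟩
    · intro v hv
      rw [mem_ball, dist_eq_norm] at hv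
      rw [mem_ball_zero_iff]
      have h1 := norm_add_le (v - u) u
      rw [sub_add_cancel] at h1
      linarith
    · filter_upwards [hψ, hx1 1 one_pos] with n hn hn1 v hv
      rw [mem_ball, dist_eq_norm] at hv
      have h0 : v ∈ ball (0 : ℂ) 1 := by
        rw [mem_ball_zero_iff]
        have h1 := norm_add_le (v - u) u
        rw [sub_add_cancel] at h1
        linarith
      have h2 := hn.out ⟨v, h0, rfl⟩
      rw [mem_ball, dist_eq_norm] at h2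
      have h3 : ψ n v = (ψ n v - x n) + (x n - x0) + x0 := by ring
      have h4 := norm_add₃_le (a := ψ n v - x n) (b := x n - x0) (c := x0)
      rw [← h3] at h4
      linarith)
  have hcont : ContinuousOn ψ0 (ball 0 1) := hd.continuousOn
  -- every point of the small ball has a preimage in the closed disc
  have hkey : ∀ w ∈ ball x0 (r / C), ∃ u : ℂ, ‖u‖ ≤ θ ∧ ψ0 u = w := by
    intro w hw
    rw [mem_ball, dist_eq_norm] at hw
    have h1 : ∀ᶠ n in (𝒰 : Filter ℕ), ∃ u : ℂ, ‖u‖ < θ ∧ ψ n u = w := by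
      filter_upwards [hψ, hx1 (r / C - ‖w - x0‖) (by linarith)] with n hn hn1
      have h2 : w ∈ ball (x n) (r / C) := by
        rw [mem_ball, dist_eq_norm]
        have h3 : w - x n = (w - x0) - (x n - x0) := by ring
        have h4 := norm_sub_le (w - x0) (x n - x0)
        rw [← h3] at h4
        linarith
      obtain ⟨u, hu, huw⟩ := hn.inn h2
      exact ⟨u, mem_ball_zero_iff.1 hu, huw⟩
    obtain ⟨u, hu⟩ := h1.choice
    obtain ⟨u0, hu0, hu0n⟩ := ul_ex 𝒰 (z := u) (M := θ) (by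
      filter_upwards [hu] with n hn
      exact hn.1.le)
    refine ⟨u0, hu0n, ?_⟩
    have hmem : u0 ∈ ball (0 : ℂ) 1 := mem_ball_zero_iff.2 (lt_of_le_of_lt hu0n hθ1)
    have h2 : Tendsto u (𝒰 : Filter ℕ) (𝓝[ball 0 1] u0) := by
      refine tendsto_nhdsWithin_iff.2 ⟨hu0, ?_⟩
      filter_upwards [hu] with n hn
      exact mem_ball_zero_iff.2 (hn.1.trans hθ1)
    have h3 := ht.tendsto_comp (hcont u0 hmem) hmem h2
    have h4 : Tendsto (fun n => ψ n (u n)) (𝒰 : Filter ℕ) (𝓝 w) := by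
      refine Tendsto.congr' ?_ tendsto_const_nhds
      filter_upwards [hu] with n hn
      exact hn.2.symm
    exact tendsto_nhds_unique h3 h4
  -- not constant
  have hnc : ∃ u ∈ ball (0 : ℂ) 1, deriv ψ0 u ≠ 0 := by
    by_contra hcon
    push Not at hcon
    obtain ⟨u1, hu1, hw1⟩ := hkey x0 (mem_ball_self hrC)
    obtain ⟨u2, hu2, hw2⟩ := hkey (x0 + ((r / C / 2 : ℝ) : ℂ)) (by
      rw [mem_ball, dist_eq_norm, add_sub_cancel_left, Complex.norm_real, Real.norm_eq_abs,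
        abs_of_pos (by positivity)]
      linarith)
    have h1 := isOpen_ball.is_const_of_deriv_eq_zero (convex_ball (0 : ℂ) 1).isPreconnected hd
      (fun u hu => hcon u hu) (mem_ball_zero_iff.2 (lt_of_le_of_lt hu1 hθ1))
      (mem_ball_zero_iff.2 (lt_of_le_of_lt hu2 hθ1))
    rw [hw1, hw2] at h1
    have h2 : ((r / C / 2 : ℝ) : ℂ) = 0 := left_eq_add.1 h1
    have h3 : r / C / 2 = 0 := by exact_mod_cast h2
    linarith
  have hi : InjOn ψ0 (ball 0 1) := uh_inj 𝒰 isOpen_ball (convex_ball (0 : ℂ) 1).isPreconnected hg ht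
    (by
      filter_upwards [hψ] with n hn
      exact hn.inj) hnc
  refine ⟨ψ0, ⟨hd, hi, ?_, ?_, ?_⟩, ht⟩
  · intro w hw
    obtain ⟨u, hu, huw⟩ := hkey w hw
    refine ⟨u, ?_, huw⟩
    have hO : IsOpen (ball (0 : ℂ) 1 ∩ ψ0 ⁻¹' ball x0 (r / C)) :=
      hcont.isOpen_inter_preimage isOpen_ball isOpen_ball
    have hsub : ball (0 : ℂ) 1 ∩ ψ0 ⁻¹' ball x0 (r / C) ⊆ closedBall 0 θ := by
      rintro v ⟨hv, hvw⟩
      obtain ⟨v', hv', hvv⟩ := hkey _ hvw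
      have h1 := hi (mem_ball_zero_iff.2 (lt_of_le_of_lt hv' hθ1)) hv hvv
      rw [← h1]
      exact mem_closedBall_zero_iff.2 hv'
    have h2 := (hO.subset_interior_iff.2 hsub) ⟨mem_ball_zero_iff.2 (lt_of_le_of_lt hu hθ1), by
      show ψ0 u ∈ ball x0 (r / C)
      rw [huw]
      exact hw⟩
    rwa [interior_closedBall _ hθ0.ne'] at h2
  · have hO := uh_open isOpen_ball hd hi isOpen_ball subset_rfl
    have hsub : ψ0 '' ball 0 1 ⊆ closedBall x0 r := by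
      rintro _ ⟨u, hu, rfl⟩
      rw [mem_closedBall, dist_eq_norm]
      have h1 : Tendsto (fun n => ‖ψ n u - x n‖) (𝒰 : Filter ℕ) (𝓝 ‖ψ0 u - x0‖) :=
        ((ht.tendsto_at hu).sub hx).norm
      refine le_of_tendsto h1 ?_
      filter_upwards [hψ] with n hn
      have h2 := hn.out ⟨u, hu, rfl⟩
      rw [mem_ball, dist_eq_norm] at h2
      exact h2.le
    have h2 := hO.subset_interior_iff.2 hsub
    rwa [interior_closedBall _ hr.ne'] at h2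
  · intro u hu1 hu2 hu3
    obtain ⟨y, hy, hyt⟩ := ph_app hP hP0 hu3
    have humem : u ∈ ball (0 : ℂ) 1 := mem_ball_zero_iff.2 hu2
    have hn : ¬ ∀ᶠ v in 𝓝 u, ψ0 v = ψ0 u := by
      intro h1
      have h2 : deriv ψ0 u = deriv (fun _ => ψ0 u) u := Filter.EventuallyEq.deriv_eq h1
      rw [deriv_const] at h2
      exact uh_der isOpen_ball hd hi humem h2
    have h3 := uh_hit 𝒰 isOpen_ball hg ht humem hn hyt (ε := ‖u‖ - θ) (by linarith)
    obtain ⟨n, hn1, v, ⟨hv1, hv2⟩, hv3⟩ := (hψ.and h3).exists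
    rw [mem_ball, dist_eq_norm] at hv1
    have h4 : θ < ‖v‖ := by
      have h5 := norm_sub_norm_le u v
      rw [norm_sub_rev] at h5
      linarith
    exact hn1.col v h4 (mem_ball_zero_iff.1 hv2) (hv3 ▸ hy n)

theorem ph_gap (h : LS 𝒰 F D P θ C) {x0 : ℂ} (hx : x0 ∈ Ph 𝒰 P) {r : ℝ} (hr : 0 < r) :
    ∃ (x : ℕ → ℂ) (ψ : ℕ → ℂ → ℂ) (ψ0 : ℂ → ℂ), (∀ n, x n ∈ P n) ∧ Tendsto x (𝒰 : Filter ℕ) (𝓝 x0) ∧
      (∀ᶠ n in (𝒰 : Filter ℕ), GD θ C (P n) (x n) r (ψ n)) ∧ GD θ C (Ph 𝒰 P) x0 r ψ0 ∧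
      TendstoLocallyUniformlyOn ψ ψ0 (𝒰 : Filter ℕ) (ball 0 1) := by
  have hP0 : ∀ n, (P n).Nonempty := fun n => ⟨0, h.P0 n⟩
  obtain ⟨x, hxP, hxt⟩ := ph_app h.Pc hP0 hx
  have h1 : ∀ᶠ n in (𝒰 : Filter ℕ), ∃ ψ : ℂ → ℂ, GD θ C (P n) (x n) r ψ := by
    filter_upwards [h.gap r (‖x0‖ + 1) hr, Metric.tendsto_nhds.1 hxt 1 one_pos] with n hn hn1
    refine hn (x n) (hxP n) ?_
    rw [dist_eq_norm] at hn1
    have h2 := norm_add_le (x n - x0) x0
    rw [sub_add_cancel] at h2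
    linarith
  obtain ⟨ψ, hψ⟩ := h1.choice
  obtain ⟨ψ0, h2, h3⟩ := gap_lim h.θ0 h.θ1 h.C1 h.Pc hP0 hr hxt hψ
  exact ⟨x, ψ, ψ0, hxP, hxt, hψ, h2, h3⟩

theorem ph_int (h : LS 𝒰 F D P θ C) : interior (Ph 𝒰 P) = ∅ := by
  rw [Set.eq_empty_iff_forall_notMem]
  intro w hw
  obtain ⟨ε, hε, hsub⟩ := Metric.isOpen_iff.1 isOpen_interior w hw
  obtain ⟨x, ψ, ψ0, -, -, -, hG, -⟩ := ph_gap h (interior_subset hw) hε
  have hθ0 := h.θ0
  have hθ1 := h.θ1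
  have h1 : ‖(((1 + θ) / 2 : ℝ) : ℂ)‖ = (1 + θ) / 2 := by
    rw [Complex.norm_real, Real.norm_eq_abs, abs_of_pos (by linarith)]
  have h2 : ‖(((1 + θ) / 2 : ℝ) : ℂ)‖ < 1 := by
    rw [h1]
    linarith
  refine hG.col (((1 + θ) / 2 : ℝ) : ℂ) (by rw [h1]; linarith) h2 ?_
  exact interior_subset (hsub (hG.out ⟨_, mem_ball_zero_iff.2 h2, rfl⟩))

/-- the collar as a function of `ζ` -/
theorem col_exp {P0 : Set ℂ} {x : ℂ} {r : ℝ} {ψ : ℂ → ℂ} (hθ0 : 0 < θ) (h : GD θ C P0 x r ψ) :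
    DifferentiableOn ℂ (fun ζ => ψ (Complex.exp ζ)) (Qc θ) ∧ ∀ ζ ∈ Qc θ, deriv (fun ζ => ψ (Complex.exp ζ)) ζ ≠ 0 ∧
      ‖ψ (Complex.exp ζ) - x‖ < r ∧ ψ (Complex.exp ζ) ∉ P0 := by
  have h1 : ∀ ζ ∈ Qc θ, θ < ‖Complex.exp ζ‖ ∧ ‖Complex.exp ζ‖ < 1 := by
    intro ζ hζ
    rw [Complex.norm_exp]
    refine ⟨?_, ?_⟩
    · rw [← Real.log_lt_iff_lt_exp hθ0]
      exact hζ.1
    · rw [Real.exp_lt_one_iff]
      exact hζ.2.1
  have h2 : ∀ ζ ∈ Qc θ, Complex.exp ζ ∈ ball (0 : ℂ) 1 := fun ζ hζ =>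
    mem_ball_zero_iff.2 (h1 ζ hζ).2
  refine ⟨h.diff.comp Complex.differentiable_exp.differentiableOn h2, fun ζ hζ => ⟨?_, ?_, ?_⟩⟩
  · have h3 : HasDerivAt ψ (deriv ψ (Complex.exp ζ)) (Complex.exp ζ) :=
      (h.diff.differentiableAt (isOpen_ball.mem_nhds (h2 ζ hζ))).hasDerivAt
    have h4 : HasDerivAt (fun ζ => ψ (Complex.exp ζ)) (deriv ψ (Complex.exp ζ) * Complex.exp ζ) ζ :=
      h3.comp ζ (Complex.hasDerivAt_exp ζ)
    rw [h4.deriv]
    exact mul_ne_zero (uh_der isOpen_ball h.diff h.inj (h2 ζ hζ)) (Complex.exp_ne_zero ζ)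
  · have h3 := h.out ⟨_, h2 ζ hζ, rfl⟩
    rwa [mem_ball, dist_eq_norm] at h3
  · exact h.col _ (h1 ζ hζ).1 (h1 ζ hζ).2

theorem qc_open : IsOpen (Qc θ) := by
  unfold Qc Qr
  exact (isOpen_lt continuous_const Complex.continuous_re).inter
    ((isOpen_lt Complex.continuous_re continuous_const).inter
      (isOpen_lt Complex.continuous_im.abs continuous_const))

theorem qc_convex : Convex ℝ (Qc θ) := by
  have h1 : Qc θ = {c : ℂ | Real.log θ < c.re} ∩ ({c : ℂ | c.re < 0} ∩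
      ({c : ℂ | -(6 * Real.pi) < c.im} ∩ {c : ℂ | c.im < 6 * Real.pi})) := by
    ext ζ
    unfold Qc Qr
    simp only [Set.mem_ofPred_eq, Set.mem_inter_iff, abs_lt]
  rw [h1]
  exact (convex_halfSpace_re_gt _).inter ((convex_halfSpace_re_lt _).inter
    ((convex_halfSpace_im_gt _).inter (convex_halfSpace_im_lt _)))

end Pool.Agent.H43.UB
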