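import Pool.Agent.H43.UB.LLM
import Pool.Agent.H43.UB.GAP

/-!
# THEOREM UD, chapter B: lifts of collars, at the finite stage and in the limit

`Cq ψ q`: the situation: gap discs `ψ n` of `P n` at `x n → x0` with the limit `ψ0`. `colim`: `ψ n ∘ exp → ψ0 ∘ exp` locally uniformly on `Qc θ` (`exp` maps compact subsets of `Qc θ` to compact subsets of the unit disc: `TendstoLocallyUniformlyOn.comp`).
`cl_lift`: `llm` with `S = Qc θ`, `Hn n = ψ n ∘ exp`, `M = ‖x0‖ + r + 1` (`col_exp`, `qc_open`, `qc_convex`). `cl_of`: `llm_of`.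
`cls_up`: pointwise limit. `cls_down`: if the limit lift closes after `m` turns: take `ζ0 ∈ Qc θ` with `ζ0 + 2 π i m ∈ Qc θ` (if there is none nothing is to prove): `Q n (ζ0 + 2 π i m)` and `Q n ζ0` tend to the same point, with the same value `ψ n (exp ζ0)` of `F n`: equal for almost all `n` (`uq`); `lift_eq` on the convex open set `{ζ ∈ Qc θ | ζ + 2 π i m ∈ Qc θ}` for `Q n (· + 2 π i m)` and `Q n`.
`cl_mem`: the values of a limit lift are in `Sc` if one is (`sc_of`, `Qc θ` is convex, continuous image).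
-/

set_option autoImplicit false

open Filter Topology Metric Set MeasureTheory

namespace Pool.Agent.H43.UB

open Pool.Agent.H56.UD

variable {𝒰 : Ultrafilter ℕ} {F : ℕ → ℂ → ℂ} {D P : ℕ → Set ℂ} {θ C : ℝ} {x : ℕ → ℂ} {x0 : ℂ} {r : ℝ} {ψ : ℕ → ℂ → ℂ} {ψ0 : ℂ → ℂ}

private theorem exp_maps : MapsTo Complex.exp (Qc θ) (ball (0 : ℂ) 1) := by
  intro ζ hζ
  rw [mem_ball_zero_iff, Complex.norm_exp, Real.exp_lt_one_iff]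
  exact hζ.2.1

private theorem exp_turn (ζ : ℂ) (m : ℕ) : Complex.exp (ζ + m * (2 * Real.pi * Complex.I)) = Complex.exp ζ := by
  rw [Complex.exp_add, Complex.exp_nat_mul_two_pi_mul_I, mul_one]

theorem colim (hθ0 : 0 < θ) (hψ0 : TendstoLocallyUniformlyOn ψ ψ0 (𝒰 : Filter ℕ) (ball 0 1)) :
    TendstoLocallyUniformlyOn (fun n ζ => ψ n (Complex.exp ζ)) (fun ζ => ψ0 (Complex.exp ζ)) (𝒰 : Filter ℕ) (Qc θ) := by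
  have _ := hθ0
  exact hψ0.comp Complex.exp exp_maps Complex.continuous_exp.continuousOn

private theorem lf_of (h : LS 𝒰 F D P θ C) {Q0 : ℂ → ℂ} {sb ζ0 s : ℂ} (hζ : ζ0 ∈ Qc θ)
    (hs : s ∈ Sc 𝒰 F D P sb) (h1 : DifferentiableOn ℂ Q0 (Qc θ)) (h2 : Q0 ζ0 = s)
    (h3 : ∀ ζ ∈ Qc θ, Gd 𝒰 F D P (ψ0 (Complex.exp ζ)) (Q0 ζ)) :
    Lf (Fh 𝒰 F D P) (Sc 𝒰 F D P sb) θ ψ0 Q0 := by
  refine ⟨h1, fun ζ hζ' => ⟨?_, fh_eq h (h3 ζ hζ')⟩⟩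
  have h4 : Q0 '' Qc θ ⊆ Sc 𝒰 F D P sb := by
    refine sc_of (qc_convex.isPreconnected.image _ h1.continuousOn) ?_ ⟨s, ⟨ζ0, hζ, h2⟩, hs⟩
    rintro _ ⟨v, hv, rfl⟩
    exact ⟨_, h3 v hv⟩
  exact h4 ⟨ζ, hζ', rfl⟩

/-- a limit lift is the limit of lifts -/
theorem cl_lift (h : LS 𝒰 F D P θ C) (hx : Tendsto x (𝒰 : Filter ℕ) (𝓝 x0))
    (hψ : ∀ᶠ n in (𝒰 : Filter ℕ), GD θ C (P n) (x n) r (ψ n)) (hg : GD θ C (Ph 𝒰 P) x0 r ψ0)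
    (hψ0 : TendstoLocallyUniformlyOn ψ ψ0 (𝒰 : Filter ℕ) (ball 0 1)) {sb ζ0 s : ℂ} (hζ : ζ0 ∈ Qc θ)
    (hs : s ∈ Sc 𝒰 F D P sb) (he : Fh 𝒰 F D P s = ψ0 (Complex.exp ζ0)) :
    ∃ (Q : ℕ → ℂ → ℂ) (Q0 : ℂ → ℂ), (∀ᶠ n in (𝒰 : Filter ℕ), Lf (F n) (D n) θ (ψ n) (Q n)) ∧
      TendstoLocallyUniformlyOn Q Q0 (𝒰 : Filter ℕ) (Qc θ) ∧ Q0 ζ0 = s ∧ Lf (Fh 𝒰 F D P) (Sc 𝒰 F D P sb) θ ψ0 Q0 := by
  have hx1 : ∀ᶠ n in (𝒰 : Filter ℕ), ‖x n - x0‖ < 1 := by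
    filter_upwards [Metric.tendsto_nhds.1 hx 1 one_pos] with n hn
    rwa [dist_eq_norm] at hn
  have hHn : ∀ᶠ n in (𝒰 : Filter ℕ), DifferentiableOn ℂ (fun ζ => ψ n (Complex.exp ζ)) (Qc θ) ∧
      ∀ u ∈ Qc θ, deriv (fun ζ => ψ n (Complex.exp ζ)) u ≠ 0 ∧
        ‖ψ n (Complex.exp u)‖ < ‖x0‖ + r + 1 ∧ ψ n (Complex.exp u) ∉ P n := by
    filter_upwards [hψ, hx1] with n hn hn1
    obtain ⟨h1, h2⟩ := col_exp h.θ0 hn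
    refine ⟨h1, fun u hu => ⟨(h2 u hu).1, ?_, (h2 u hu).2.2⟩⟩
    have h3 := (h2 u hu).2.1
    have h4 : ψ n (Complex.exp u) = (ψ n (Complex.exp u) - x n) + (x n - x0) + x0 := by ring
    have h5 := norm_add₃_le (a := ψ n (Complex.exp u) - x n) (b := x n - x0) (c := x0)
    rw [← h4] at h5
    linarith
  have hoff : ∀ u ∈ Qc θ, ψ0 (Complex.exp u) ∉ Ph 𝒰 P := fun u hu => ((col_exp h.θ0 hg).2 u hu).2.2
  have hGd : Gd 𝒰 F D P (ψ0 (Complex.exp ζ0)) s := by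
    rw [← he]
    exact fh_gd (sc_sub sb hs)
  obtain ⟨Q, Q0, h1, h2, h3, h4, h5⟩ := llm h qc_convex qc_open hHn (colim h.θ0 hψ0) hoff hζ hGd
  exact ⟨Q, Q0, h1.mono fun n hn => ⟨hn.1, hn.2⟩, h3, h4, lf_of h hζ hs h2 h4 h5⟩

/-- limits of given lifts of collars -/
theorem cl_of (h : LS 𝒰 F D P θ C) (hx : Tendsto x (𝒰 : Filter ℕ) (𝓝 x0))
    (hψ : ∀ᶠ n in (𝒰 : Filter ℕ), GD θ C (P n) (x n) r (ψ n)) (hg : GD θ C (Ph 𝒰 P) x0 r ψ0)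
    (hψ0 : TendstoLocallyUniformlyOn ψ ψ0 (𝒰 : Filter ℕ) (ball 0 1)) {Q : ℕ → ℂ → ℂ}
    (hQ : ∀ᶠ n in (𝒰 : Filter ℕ), Lf (F n) (D n) θ (ψ n) (Q n)) {sb ζ0 s : ℂ} (hζ : ζ0 ∈ Qc θ)
    (hs : s ∈ Sc 𝒰 F D P sb) (hl : Tendsto (fun n => Q n ζ0) (𝒰 : Filter ℕ) (𝓝 s)) (he : Fh 𝒰 F D P s = ψ0 (Complex.exp ζ0)) :
    ∃ Q0 : ℂ → ℂ, TendstoLocallyUniformlyOn Q Q0 (𝒰 : Filter ℕ) (Qc θ) ∧ Q0 ζ0 = s ∧
      Lf (Fh 𝒰 F D P) (Sc 𝒰 F D P sb) θ ψ0 Q0 := by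
  have _ := hx
  have hHn : ∀ᶠ n in (𝒰 : Filter ℕ), DifferentiableOn ℂ (fun ζ => ψ n (Complex.exp ζ)) (Qc θ) ∧
      ∀ u ∈ Qc θ, deriv (fun ζ => ψ n (Complex.exp ζ)) u ≠ 0 := by
    filter_upwards [hψ] with n hn
    obtain ⟨h1, h2⟩ := col_exp h.θ0 hn
    exact ⟨h1, fun u hu => (h2 u hu).1⟩
  have hoff : ∀ u ∈ Qc θ, ψ0 (Complex.exp u) ∉ Ph 𝒰 P := fun u hu => ((col_exp h.θ0 hg).2 u hu).2.2
  have hGd : Gd 𝒰 F D P (ψ0 (Complex.exp ζ0)) s := by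
    rw [← he]
    exact fh_gd (sc_sub sb hs)
  obtain ⟨Q0, h2, h3, h4, h5⟩ := llm_of h qc_convex qc_open hHn (colim h.θ0 hψ0) hoff
    (Q := Q) (hQ.mono fun n hn => ⟨hn.diff, hn.val⟩) hζ hGd hl
  exact ⟨Q0, h3, h4, lf_of h hζ hs h2 h4 h5⟩

theorem cls_down (h : LS 𝒰 F D P θ C) (hx : Tendsto x (𝒰 : Filter ℕ) (𝓝 x0))
    (hψ : ∀ᶠ n in (𝒰 : Filter ℕ), GD θ C (P n) (x n) r (ψ n)) {Q : ℕ → ℂ → ℂ} {Q0 : ℂ → ℂ}
    (hQ : ∀ᶠ n in (𝒰 : Filter ℕ), Lf (F n) (D n) θ (ψ n) (Q n)) {sb : ℂ} (hL : Lf (Fh 𝒰 F D P) (Sc 𝒰 F D P sb) θ ψ0 Q0)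
    (hl : TendstoLocallyUniformlyOn Q Q0 (𝒰 : Filter ℕ) (Qc θ)) {m : ℕ} (hc : Cls θ m Q0) :
    ∀ᶠ n in (𝒰 : Filter ℕ), Cls θ m (Q n) := by
  have _ := hx
  by_cases hS : ∃ ζ0 ∈ Qc θ, ζ0 + m * (2 * Real.pi * Complex.I) ∈ Qc θ
  · obtain ⟨ζ0, h0, h0'⟩ := hS
    have hsg : Q0 ζ0 ∈ Sg 𝒰 F D P := sc_sub sb (hL.val ζ0 h0).1
    have ht1 : Tendsto (fun n => Q n ζ0) (𝒰 : Filter ℕ) (𝓝 (Q0 ζ0)) := hl.tendsto_at h0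
    have ht2 : Tendsto (fun n => Q n (ζ0 + m * (2 * Real.pi * Complex.I))) (𝒰 : Filter ℕ)
        (𝓝 (Q0 ζ0)) := by
      rw [← hc ζ0 h0 h0']
      exact hl.tendsto_at h0'
    have e1 : ∀ᶠ n in (𝒰 : Filter ℕ), Q n (ζ0 + m * (2 * Real.pi * Complex.I)) = Q n ζ0 := by
      refine uq h (fh_gd hsg) ht2 ht1 ?_
      filter_upwards [hQ] with n hn
      rw [(hn.val _ h0').2, (hn.val _ h0).2, exp_turn]
    obtain ⟨S, hSd⟩ : ∃ S : Set ℂ, S = Qc θ ∩ (fun ζ => ζ + m * (2 * Real.pi * Complex.I)) ⁻¹' Qc θ :=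
      ⟨_, rfl⟩
    have hSo : IsOpen S := by
      rw [hSd]
      exact qc_open.inter (qc_open.preimage (by fun_prop))
    have hSc : Convex ℝ S := by
      rw [hSd]
      refine qc_convex.inter ?_
      have h1 : (fun ζ : ℂ => ζ + m * (2 * Real.pi * Complex.I)) ⁻¹' Qc θ =
          (fun ζ : ℂ => m * (2 * Real.pi * Complex.I) + ζ) ⁻¹' Qc θ := by
        ext ζ
        rw [Set.mem_preimage, Set.mem_preimage, add_comm]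
      rw [h1]
      exact qc_convex.translate_preimage_right _
    filter_upwards [hQ, hψ, e1] with n hn hn2 hn3
    obtain ⟨h1, h2⟩ := col_exp h.θ0 hn2
    have hsub : S ⊆ Qc θ := by
      rw [hSd]
      exact inter_subset_left
    have hsub2 : ∀ ζ ∈ S, ζ + m * (2 * Real.pi * Complex.I) ∈ Qc θ := by
      rw [hSd]
      exact fun ζ hζ => hζ.2
    have hEq : EqOn (fun ζ => Q n (ζ + m * (2 * Real.pi * Complex.I))) (Q n) S := by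
      refine lift_eq (h.Do n) (h.Fd n) hSo hSc.isPreconnected
        (H := fun ζ => ψ n (Complex.exp ζ)) (hn.diff.comp (by fun_prop) hsub2)
        (hn.diff.mono hsub) (fun u hu => ?_) (fun u hu => hn.val u (hsub hu))
        (fun u hu => (h2 u (hsub hu)).1) (q := ζ0) ?_ hn3
      · have h3 := hn.val _ (hsub2 u hu)
        rw [exp_turn] at h3
        exact h3
      · rw [hSd]
        exact ⟨h0, h0'⟩
    intro ζ hζ hζ'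
    refine hEq (x := ζ) ?_
    rw [hSd]
    exact ⟨hζ, hζ'⟩
  · refine Eventually.of_forall fun n ζ hζ hζ' => ?_
    exact absurd ⟨ζ, hζ, hζ'⟩ hS

/-- the order hypothesis in the limit -/
theorem ord_lim (h : LS 𝒰 F D P θ C) {sb : ℂ} (ho : Ord 𝒰 F D P θ C sb) {r : ℝ} (hr : 0 < r) :
    ∃ ψ q : ℂ → ℂ, GD θ C (Ph 𝒰 P) 0 r ψ ∧ Lf (Fh 𝒰 F D P) (Sc 𝒰 F D P sb) θ ψ q ∧ ¬ Cls θ 2 q := by
  obtain ⟨ψ, q, hev, ζ, hζ, s, hs, hlim⟩ := ho r hr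
  have hx : Tendsto (fun _ : ℕ => (0 : ℂ)) (𝒰 : Filter ℕ) (𝓝 0) := tendsto_const_nhds
  have hψ : ∀ᶠ n in (𝒰 : Filter ℕ), GD θ C (P n) 0 r (ψ n) := hev.mono fun n hn => hn.1
  have hQ : ∀ᶠ n in (𝒰 : Filter ℕ), Lf (F n) (D n) θ (ψ n) (q n) := hev.mono fun n hn => hn.2.1
  obtain ⟨ψ0, hg, ht⟩ := gap_lim (x := fun _ => (0 : ℂ)) h.θ0 h.θ1 h.C1 h.Pc (fun n => ⟨0, h.P0 n⟩) hr hx hψ
  have h1 : Tendsto (fun n => F n (q n ζ)) (𝒰 : Filter ℕ) (𝓝 (Fh 𝒰 F D P s)) :=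
    (near h (fh_gd (sc_sub sb hs)) hlim).2
  have h2 : Tendsto (fun n => F n (q n ζ)) (𝒰 : Filter ℕ) (𝓝 (ψ0 (Complex.exp ζ))) := by
    refine ((colim h.θ0 ht).tendsto_at hζ).congr' ?_
    filter_upwards [hQ] with n hn
    exact ((hn.val ζ hζ).2).symm
  have he : Fh 𝒰 F D P s = ψ0 (Complex.exp ζ) := tendsto_nhds_unique h1 h2
  obtain ⟨Q0, h3, h4, h5⟩ := cl_of (x := fun _ => (0 : ℂ)) h hx hψ hg ht hQ hζ hs hlim he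
  refine ⟨ψ0, Q0, hg, h5, fun hc => ?_⟩
  have h6 := cls_down (x := fun _ => (0 : ℂ)) h hx hψ hQ h5 h3 hc
  obtain ⟨n, hn1, hn2⟩ := (h6.and hev).exists
  exact hn2.2.2 hn1

end Pool.Agent.H43.UB
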