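import Pool.Agent.H43.UB.NEA

/-!
# THEOREM UD, chapter B: deck maps

`gal_loc`. `w = Fh s = Fh s'`. `gb` for `(w, s)` and `(w, s')` on `ball w ρ` (`closedBall w ρ` off `Ph`, `fh_gd`): `G n → g`, `G' n → g'`, bounded by `M`; `deriv (G n) w → deriv g w ≠ 0` (`TendstoLocallyUniformlyOn.deriv`, `uh_der`), so after enlarging `M`: `Bq (F n) (D n) w ρ M (G n)`. `h.gal`: `t ≠ 0`, `c` with `g' u = t g u + c` on `ball w ρ` (limits are unique). So for `x = g u` near `s` (`g '' ball w ρ` is a neighbourhood of `s`): `t x + c = g' u ∈ Sg`, `Fh (t x + c) = u = Fh x`; `u = w`: `t s + c = s'`.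
`deck`: `T x = t x + c`, `A = {x ∈ Sc | ∀ᶠ y in 𝓝 x, T y ∈ Sg ∧ Fh (T y) = Fh y}`; open, `s ∈ A`. CLOSED in `Sc`: let `x ∈ Sc` be a limit of points `x1 ∈ A`. `gb` at `(Fh x, x)` on `ball (Fh x) (4 ρ)` (`closedBall` off `Ph`): `g`; for `x1` near `x`: `x1 = g u1`, `u1 ∈ ball (Fh x) ρ`; `gb` at `(u1, T x1)` (`Gd u1 (T x1)`: `T x1 ∈ Sg`, `Fh (T x1) = Fh x1 = u1`, `fh_gd`) on `ball u1 (2 ρ)`: `g1`, `g1 u1 = T x1`. On `ball u1 (2 ρ)` both `T ∘ g` and `g1` are lifts of the identity near `u1`: near `u1` `T (g u) ∈ Sg`, `Fh (T (g u)) = Fh (g u) = u` (`x1 ∈ A`), so `T ∘ g = g1` near `u1` (local injectivity of `Fh` at `T x1`, or `fh_lift_eq` on a small ball), so on `ball u1 (2 ρ)` (identity theorem); this ball contains a neighbourhood of `Fh x`. So `x ∈ A`. `Sc` is preconnected: `A = Sc`.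
Then `T '' Sc ⊆ Sg` is preconnected and contains `s' ∈ Sc`: `T '' Sc ⊆ Sc` (`sc_of`).
-/

set_option autoImplicit false

open Filter Topology Metric Set MeasureTheory

namespace Pool.Agent.H43.UB

open Pool.Agent.H56.UD

variable {𝒰 : Ultrafilter ℕ} {F : ℕ → ℂ → ℂ} {D P : ℕ → Set ℂ} {θ C : ℝ}

private theorem bq_mono {F : ℂ → ℂ} {D : Set ℂ} {w : ℂ} {r M M' : ℝ} {G : ℂ → ℂ} (hM : M ≤ M')
    (hb : Bq F D w r M G) : Bq F D w r M' G :=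
  ⟨hb.diff, fun u hu => ⟨(hb.val u hu).1, (hb.val u hu).2.1, ((hb.val u hu).2.2).trans hM⟩,
    hb.lb.trans (mul_le_mul_of_nonneg_right hM (norm_nonneg _))⟩

private theorem dck_br (h : LS 𝒰 F D P θ C) {w s : ℂ} (hs : Gd 𝒰 F D P w s) {ρ : ℝ} (hρ : 0 < ρ)
    (hoff : Disjoint (closedBall w ρ) (Ph 𝒰 P)) :
    ∃ (G : ℕ → ℂ → ℂ) (g : ℂ → ℂ) (M : ℝ), (∀ᶠ n in (𝒰 : Filter ℕ), Bq (F n) (D n) w ρ M (G n)) ∧
    TendstoLocallyUniformlyOn G g (𝒰 : Filter ℕ) (ball w ρ) ∧ DifferentiableOn ℂ g (ball w ρ) ∧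
    InjOn g (ball w ρ) ∧ g w = s ∧ ∀ u ∈ ball w ρ, Gd 𝒰 F D P u (g u) := by
  obtain ⟨G, g, h1, h2, ⟨M, h3⟩, h4, h5, h6, h7⟩ := gb h hs hρ hoff
  have hw : w ∈ ball w ρ := mem_ball_self hρ
  have hd : deriv g w ≠ 0 := uh_der isOpen_ball h4 h5 hw
  have hlim : Tendsto (fun n => deriv (G n) w) (𝒰 : Filter ℕ) (𝓝 (deriv g w)) :=
    (h2.deriv (h1.mono fun n hn => hn.1) isOpen_ball).tendsto_at hw
  have hpos : 0 < ‖deriv g w‖ := norm_pos_iff.2 hd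
  have hev : ∀ᶠ n in (𝒰 : Filter ℕ), ‖deriv g w‖ / 2 < ‖deriv (G n) w‖ :=
    hlim.norm.eventually_const_lt (by linarith)
  refine ⟨G, g, max M (2 / ‖deriv g w‖), ?_, h2, h4, h5, h6, h7⟩
  filter_upwards [h1, h3, hev] with n hn1 hn3 hn
  refine ⟨hn1.1, fun u hu => ⟨(hn1.2 u hu).1, (hn1.2 u hu).2, (hn3 u hu).trans (le_max_left _ _)⟩, ?_⟩
  calc (1 : ℝ) = 2 / ‖deriv g w‖ * (‖deriv g w‖ / 2) := by field_simp
    _ ≤ max M (2 / ‖deriv g w‖) * ‖deriv (G n) w‖ :=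
      mul_le_mul (le_max_right _ _) hn.le (by positivity) (le_max_of_le_right (by positivity))

private theorem dck_off {w : ℂ} (hw : w ∉ Ph 𝒰 P) : ∃ ρ : ℝ, 0 < ρ ∧ Disjoint (closedBall w ρ) (Ph 𝒰 P) := by
  have hc : (Ph 𝒰 P)ᶜ ∈ 𝓝 w := (ph_closed (𝒰 := 𝒰) (P := P)).isOpen_compl.mem_nhds hw
  obtain ⟨ρ, hρ, hb⟩ := Metric.nhds_basis_closedBall.mem_iff.1 hc
  exact ⟨ρ, hρ, Set.disjoint_left.2 fun x hx hx' => hb hx hx'⟩

theorem gal_loc (h : LS 𝒰 F D P θ C) {s s' : ℂ} (hs : s ∈ Sg 𝒰 F D P) (hs' : s' ∈ Sg 𝒰 F D P)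
    (he : Fh 𝒰 F D P s = Fh 𝒰 F D P s') : ∃ (t : ℝ) (c : ℂ), t ≠ 0 ∧ s' = t * s + c ∧
      ∀ᶠ x in 𝓝 s, (t * x + c) ∈ Sg 𝒰 F D P ∧ Fh 𝒰 F D P (t * x + c) = Fh 𝒰 F D P x := by
  have hg := fh_gd hs
  have hg' := fh_gd hs'
  rw [← he] at hg'
  obtain ⟨ρ, hρ, hoff⟩ := dck_off hg.1
  obtain ⟨w, hw⟩ : ∃ w, w = Fh 𝒰 F D P s := ⟨_, rfl⟩
  rw [← hw] at hg hg' hoff
  obtain ⟨G, g, M, a1, a2, a3, a4, a5, a6⟩ := dck_br h hg hρ hoff
  obtain ⟨G', g', M', b1, b2, b3, b4, b5, b6⟩ := dck_br h hg' hρ hoff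
  obtain ⟨t, c, ht, hgal⟩ := h.gal w ρ (max M M') G G' hρ
    (a1.mono fun n hn => bq_mono (le_max_left _ _) hn) (b1.mono fun n hn => bq_mono (le_max_right _ _) hn)
  have hrel : ∀ u ∈ ball w ρ, g' u = t * g u + c := by
    intro u hu
    have h1 := hgal u hu
    have h2 := (b2.tendsto_at hu).sub (((a2.tendsto_at hu).const_mul (t : ℂ)).add_const c)
    exact sub_eq_zero.1 (tendsto_nhds_unique h2 h1)
  refine ⟨t, c, ht, ?_, ?_⟩
  · have h1 := hrel w (mem_ball_self hρ)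
    rw [b5, a5] at h1
    exact h1
  · have h5 : IsOpen (g '' ball w ρ) := uh_open isOpen_ball a3 a4 isOpen_ball le_rfl
    have h6 : g '' ball w ρ ∈ 𝓝 s := h5.mem_nhds ⟨w, mem_ball_self hρ, a5⟩
    refine mem_of_superset h6 ?_
    rintro _ ⟨u, hu, rfl⟩
    have h1 := b6 u hu
    rw [hrel u hu] at h1
    exact ⟨⟨u, h1⟩, (fh_eq h h1).trans (fh_eq h (a6 u hu)).symm⟩

theorem deck (h : LS 𝒰 F D P θ C) {sb s s' : ℂ} (hs : s ∈ Sc 𝒰 F D P sb) (hs' : s' ∈ Sc 𝒰 F D P sb)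
    (he : Fh 𝒰 F D P s = Fh 𝒰 F D P s') : ∃ (t : ℝ) (c : ℂ), t ≠ 0 ∧ s' = t * s + c ∧
      ∀ x ∈ Sc 𝒰 F D P sb, (t * x + c) ∈ Sc 𝒰 F D P sb ∧ Fh 𝒰 F D P (t * x + c) = Fh 𝒰 F D P x := by
  obtain ⟨t, c, ht, hst, hloc⟩ := gal_loc h (sc_sub sb hs) (sc_sub sb hs') he
  refine ⟨t, c, ht, hst, ?_⟩
  obtain ⟨A, hA⟩ : ∃ A : Set ℂ, A = {x | ∀ᶠ y in 𝓝 x, (t * y + c) ∈ Sg 𝒰 F D P ∧
      Fh 𝒰 F D P (t * y + c) = Fh 𝒰 F D P y} := ⟨_, rfl⟩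
  have hAo : IsOpen A := by
    rw [hA, isOpen_iff_mem_nhds]
    intro x hx
    exact eventually_eventually_nhds.2 hx
  have hcl : closure A ∩ Sc 𝒰 F D P sb ⊆ A := by
    rintro x ⟨hxA, hxS⟩
    have hx := fh_gd (sc_sub sb hxS)
    obtain ⟨w, hw⟩ : ∃ w, w = Fh 𝒰 F D P x := ⟨_, rfl⟩
    rw [← hw] at hx
    obtain ⟨ρ4, hρ4, hoff4⟩ := dck_off hx.1
    obtain ⟨ρ, hρe⟩ : ∃ ρ : ℝ, ρ4 = 4 * ρ := ⟨ρ4 / 4, by ring⟩
    rw [hρe] at hρ4 hoff4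
    have hρ : 0 < ρ := by linarith
    obtain ⟨-, g, -, -, -, gd, gi, gw, gG⟩ := gb h hx hρ4 hoff4
    have hsub1 : ball w ρ ⊆ ball w (4 * ρ) := ball_subset_ball (by linarith)
    have hN : g '' ball w ρ ∈ 𝓝 x :=
      (uh_open isOpen_ball gd gi isOpen_ball hsub1).mem_nhds ⟨w, mem_ball_self hρ, gw⟩
    obtain ⟨x1, hx1, hx1A⟩ := mem_closure_iff_nhds.1 hxA _ hN
    obtain ⟨u1, hu1, rfl⟩ := hx1
    have hx1A' := hx1A
    rw [hA] at hx1A'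
    obtain ⟨hT1, hT2⟩ := hx1A'.self_of_nhds
    rw [fh_eq h (gG u1 (hsub1 hu1))] at hT2
    have hgd1 := fh_gd hT1
    rw [hT2] at hgd1
    rw [mem_ball] at hu1
    have hoff1 : Disjoint (closedBall u1 (2 * ρ)) (Ph 𝒰 P) := by
      refine hoff4.mono_left (closedBall_subset_closedBall' ?_)
      linarith
    obtain ⟨-, g1, -, -, -, g1d, g1i, g1w, g1G⟩ := gb h hgd1 (show 0 < 2 * ρ by linarith) hoff1
    have hsub2 : ball u1 (2 * ρ) ⊆ ball w (4 * ρ) := ball_subset_ball' (by linarith)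
    have hu1m : u1 ∈ ball u1 (2 * ρ) := mem_ball_self (by linarith)
    have hTg : DifferentiableOn ℂ (fun u => (t : ℂ) * g u + c) (ball u1 (2 * ρ)) :=
      ((gd.mono hsub2).const_mul (t : ℂ)).add_const c
    -- the two lifts agree near `u1`
    have hev : ∀ᶠ u in 𝓝 u1, (t : ℂ) * g u + c = g1 u := by
      have hgc : ContinuousAt g u1 := (gd.continuousOn).continuousAt (isOpen_ball.mem_nhds (hsub2 hu1m))
      have h1 : ∀ᶠ u in 𝓝 u1, ((t : ℂ) * g u + c) ∈ Sg 𝒰 F D P ∧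
          Fh 𝒰 F D P (t * g u + c) = Fh 𝒰 F D P (g u) := by
        rw [hA] at hx1A
        exact hgc.eventually hx1A
      obtain ⟨ε, hε, hball⟩ := Metric.eventually_nhds_iff_ball.1 h1
      have hm : 0 < min ε (2 * ρ) := lt_min hε (by linarith)
      have hs1 : ball u1 (min ε (2 * ρ)) ⊆ ball u1 (2 * ρ) := ball_subset_ball (min_le_right _ _)
      have hs2 : ball u1 (min ε (2 * ρ)) ⊆ ball u1 ε := ball_subset_ball (min_le_left _ _)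
      have h2 : EqOn (fun u => (t : ℂ) * g u + c) g1 (ball u1 (min ε (2 * ρ))) := by
        refine fh_lift_eq h isOpen_ball (convex_ball _ _).isPreconnected (hTg.mono hs1) (g1d.mono hs1)
          (H := fun u => u) (fun u hu => ?_) (fun u hu => ?_) (fun u hu => ?_) (mem_ball_self hm) ?_
        · have h3 := hball u (hs2 hu)
          exact ⟨h3.1, h3.2.trans (fh_eq h (gG u (hsub2 (hs1 hu))))⟩
        · exact ⟨⟨u, g1G u (hs1 hu)⟩, fh_eq h (g1G u (hs1 hu))⟩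
        · rw [deriv_id'']
          exact one_ne_zero
        · exact g1w.symm
      filter_upwards [ball_mem_nhds u1 hm] with u hu
      exact h2 hu
    have hall : EqOn (fun u => (t : ℂ) * g u + c) g1 (ball u1 (2 * ρ)) :=
      (hTg.analyticOnNhd isOpen_ball).eqOn_of_preconnected_of_eventuallyEq (g1d.analyticOnNhd isOpen_ball)
        (convex_ball _ _).isPreconnected hu1m hev
    rw [hA]
    refine mem_of_superset hN ?_
    rintro _ ⟨u, hu, rfl⟩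
    have hu2 : u ∈ ball u1 (2 * ρ) := by
      rw [mem_ball] at hu ⊢
      linarith [dist_triangle_right u u1 w]
    have h4 : Gd 𝒰 F D P u ((t : ℂ) * g u + c) := by
      have h5 := g1G u hu2
      rw [← hall hu2] at h5
      exact h5
    exact ⟨⟨u, h4⟩, (fh_eq h h4).trans (fh_eq h (gG u (hsub1 hu))).symm⟩
  have hsub : Sc 𝒰 F D P sb ⊆ A := by
    refine IsPreconnected.subset_of_closure_inter_subset isPreconnected_connectedComponentIn hAo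
      ⟨s, hs, ?_⟩ hcl
    rw [hA]
    exact hloc
  have hall : ∀ x ∈ Sc 𝒰 F D P sb, (t * x + c) ∈ Sg 𝒰 F D P ∧ Fh 𝒰 F D P (t * x + c) = Fh 𝒰 F D P x := by
    intro x hx
    have h1 := hsub hx
    rw [hA] at h1
    exact h1.self_of_nhds
  have himg : (fun x : ℂ => (t : ℂ) * x + c) '' Sc 𝒰 F D P sb ⊆ Sc 𝒰 F D P sb := by
    refine sc_of (IsPreconnected.image isPreconnected_connectedComponentIn _ (by fun_prop)) ?_ ⟨s', ⟨s, hs, hst.symm⟩, hs'⟩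
    rintro _ ⟨x, hx, rfl⟩
    exact (hall x hx).1
  exact fun x hx => ⟨himg ⟨x, hx, rfl⟩, (hall x hx).2⟩

end Pool.Agent.H43.UB
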