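import Pool.Agent.H43.UB.EXT
import Pool.Agent.H43.UB.DCK
import Pool.Agent.H43.UB.BRL
import Pool.Agent.H65.UB.Cnn

/-!
# THEOREM UD, chapter B: a limit system gives a limit frame
-/

set_option autoImplicit false

open Filter Topology Metric Set MeasureTheory

namespace Pool.Agent.H43.UB

open Pool.Agent.H56.UD

variable {𝒰 : Ultrafilter ℕ} {F : ℕ → ℂ → ℂ} {D P : ℕ → Set ℂ} {θ C : ℝ}

theorem gpp (h : LS 𝒰 F D P θ C) : Pool.Agent.H65.UB.GP θ C (Ph 𝒰 P) := by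
  intro x hx r hr
  obtain ⟨-, -, ψ0, -, -, -, h4, -⟩ := ph_gap h hx hr
  exact ⟨ψ0, h4⟩

/-- the complement of the limit set in a gap disc is connected -/
theorem hcn (h : LS 𝒰 F D P θ C) (x : ℂ) (r : ℝ) (ψ : ℂ → ℂ) (_ : x ∈ Ph 𝒰 P) (_ : 0 < r) (hg : GD θ C (Ph 𝒰 P) x r ψ) :
    IsPreconnected {v | v ∈ ball (0 : ℂ) 1 ∧ ψ v ∉ Ph 𝒰 P} := by
  obtain ⟨i, hi⟩ : ∃ i : ℂ → ℂ, ∀ v ∈ ball (0 : ℂ) 1, i (ψ v) = v :=
    ⟨Function.invFunOn ψ (ball 0 1), fun v hv => hg.inj.leftInvOn_invFunOn hv⟩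
  have hV : IsOpen (ψ '' ball 0 1) := uh_open isOpen_ball hg.diff hg.inj isOpen_ball le_rfl
  have hp : IsPreconnected (ψ '' ball (0 : ℂ) 1 \ Ph 𝒰 P) :=
    Pool.Agent.H65.UB.con h.θ0 h.θ1 h.C1 (gpp h) ph_closed hV
      ((convex_ball _ _).isPreconnected.image _ hg.diff.continuousOn)
  have hic : ContinuousOn i (ψ '' ball (0 : ℂ) 1 \ Ph 𝒰 P) := by
    rintro _ ⟨⟨u, hu, rfl⟩, -⟩
    refine ContinuousAt.continuousWithinAt ?_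
    rw [ContinuousAt, hi u hu]
    intro O hO
    obtain ⟨O', hO', hO'o, huO⟩ := _root_.mem_nhds_iff.1 hO
    have h1 : IsOpen (ψ '' (O' ∩ ball 0 1)) :=
      uh_open isOpen_ball hg.diff hg.inj (hO'o.inter isOpen_ball) inter_subset_right
    have h2 : ψ '' (O' ∩ ball 0 1) ∈ 𝓝 (ψ u) := h1.mem_nhds ⟨u, ⟨huO, hu⟩, rfl⟩
    refine mem_map.2 (mem_of_superset h2 ?_)
    rintro _ ⟨v, ⟨hv1, hv2⟩, rfl⟩
    show i (ψ v) ∈ O
    rw [hi v hv2]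
    exact hO' hv1
  have he : {v | v ∈ ball (0 : ℂ) 1 ∧ ψ v ∉ Ph 𝒰 P} = i '' (ψ '' ball (0 : ℂ) 1 \ Ph 𝒰 P) := by
    ext v
    constructor
    · rintro ⟨hv, hv2⟩
      exact ⟨ψ v, ⟨⟨v, hv, rfl⟩, hv2⟩, hi v hv⟩
    · rintro ⟨_, ⟨⟨u, hu, rfl⟩, hu2⟩, rfl⟩
      rw [hi u hu]
      exact ⟨hu, hu2⟩
  rw [he]
  exact hp.image _ hic

theorem cpc (h : LS 𝒰 F D P θ C) : IsPreconnected (Ph 𝒰 P)ᶜ := by
  have h1 := Pool.Agent.H65.UB.con h.θ0 h.θ1 h.C1 (gpp h) ph_closed isOpen_univ isPreconnected_univ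
  rwa [← compl_eq_univ_sdiff] at h1

/-- a limit system gives a limit frame -/
theorem lfa (h : LS 𝒰 F D P θ C) {wb sb : ℂ} (hb : Gd 𝒰 F D P wb sb) (ho : Ord 𝒰 F D P θ C sb) :
    Pool.Agent.H65.UB.LF (Fh 𝒰 F D P) (Sc 𝒰 F D P sb) (Ph 𝒰 P) θ C where
  θ0 := h.θ0
  θ1 := h.θ1
  C1 := h.C1
  Pc := ph_closed
  P0 := ph_mem (x := fun _ => 0) (Eventually.of_forall h.P0) tendsto_const_nhds
  So := sc_open h sb
  Sc := isConnected_connectedComponentIn_iff.2 ⟨wb, hb⟩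
  Fd := (fh_diff h).mono (sc_sub sb)
  Fv := fun s hs => (fh_gd (sc_sub sb hs)).1
  onto := fun w hw => onto_of h ⟨wb, hb⟩ (cpc h) hw
  br := fun s hs ρ hρ hoff => brl h hs hρ (Set.disjoint_left.2 hoff)
  deck := fun s hs s' hs' he => by
    obtain ⟨t, c, h1, h2, h3⟩ := deck h hs hs' he
    exact ⟨t, c, ⟨h1, h3⟩, h2⟩
  gap := fun x hx r hr => by
    obtain ⟨x', ψ, ψ0, -, -, h3, -, h5⟩ := ext_fin h (hcn h) sb hx hr
    refine ⟨ψ0, h3, fun q hq hc => ?_⟩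
    obtain ⟨φ, φ0, -, h6, -, h7, h8, h9⟩ := h5 q hq hc
    exact ⟨φ0, h6, h7, h8, h9⟩
  ord := fun r hr => ord_lim h ho hr

end Pool.Agent.H43.UB
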