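import Pool.Agent.H43.UB.LFA

/-!
# THEOREM UD, chapter B: the interface for the chapters INI and RES (helper56, H56/UD/BI.lean)
-/

set_option autoImplicit false

open Filter Topology Metric Set MeasureTheory

namespace Pool.Agent.H43.UB

open Pool.Agent.H56.UD

variable {𝒰 : Ultrafilter ℕ} {F : ℕ → ℂ → ℂ} {D P : ℕ → Set ℂ} {θ C : ℝ}

/-- small gap discs of the limit set -/
theorem ph_gp (h : LS 𝒰 F D P θ C) : ∀ x ∈ Ph 𝒰 P, ∀ ε : ℝ, 0 < ε → ∃ (ψ : ℂ → ℂ) (θ : ℝ), 0 < θ ∧ θ < 1 ∧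
    DifferentiableOn ℂ ψ (ball 0 1) ∧ InjOn ψ (ball 0 1) ∧ x ∈ ψ '' ball 0 θ ∧ ψ '' ball 0 1 ⊆ ball x ε ∧
    ∀ u : ℂ, θ < ‖u‖ → ‖u‖ < 1 → ψ u ∉ Ph 𝒰 P := by
  intro x hx ε hε
  obtain ⟨ψ, hψ⟩ := gpp h x hx ε hε
  exact ⟨ψ, θ, h.θ0, h.θ1, hψ.diff, hψ.inj, hψ.inn (mem_ball_self (div_pos hε (lt_of_lt_of_le one_pos h.C1))), hψ.out, hψ.col⟩

/-- the preimage of the limit set under the exponential -/
theorem ph_exp (h : LS 𝒰 F D P θ C) : IsClosed {ζ : ℂ | Complex.exp ζ ∈ Ph 𝒰 P} ∧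
    ∀ x ∈ {ζ : ℂ | Complex.exp ζ ∈ Ph 𝒰 P}, ∀ ε : ℝ, 0 < ε → ∃ (ψ : ℂ → ℂ) (θ : ℝ), 0 < θ ∧ θ < 1 ∧
    DifferentiableOn ℂ ψ (ball 0 1) ∧ InjOn ψ (ball 0 1) ∧ x ∈ ψ '' ball 0 θ ∧ ψ '' ball 0 1 ⊆ ball x ε ∧
    ∀ u : ℂ, θ < ‖u‖ → ‖u‖ < 1 → ψ u ∉ {ζ : ℂ | Complex.exp ζ ∈ Ph 𝒰 P} := by
  refine ⟨ph_closed.preimage Complex.continuous_exp, ?_⟩
  intro ζ hζ ε hε
  have hζ' : Complex.exp ζ ∈ Ph 𝒰 P := hζ
  -- the branch of the logarithm at exp ζ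
  obtain ⟨Lg, hLg⟩ : ∃ Lg : ℂ → ℂ, ∀ w, Lg w = ζ + Complex.log (w / Complex.exp ζ) := ⟨fun w => ζ + Complex.log (w / Complex.exp ζ), fun w => rfl⟩
  have he0 : Complex.exp ζ ≠ 0 := Complex.exp_ne_zero ζ
  have hn : 0 < ‖Complex.exp ζ‖ := norm_pos_iff.2 he0
  have hsl : ∀ w ∈ ball (Complex.exp ζ) ‖Complex.exp ζ‖, w / Complex.exp ζ ∈ Complex.slitPlane := by
    intro w hw
    have h0 : ‖w / Complex.exp ζ - 1‖ < 1 := by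
      rw [div_sub_one he0, norm_div, div_lt_one hn]
      rwa [mem_ball, dist_eq_norm] at hw
    have h1 := Complex.mem_slitPlane_of_norm_lt_one h0
    rwa [add_sub_cancel] at h1
  have hexp : ∀ w ∈ ball (Complex.exp ζ) ‖Complex.exp ζ‖, Complex.exp (Lg w) = w := by
    intro w hw
    have hw0 : w / Complex.exp ζ ≠ 0 := Complex.slitPlane_ne_zero (hsl w hw)
    rw [hLg, Complex.exp_add, Complex.exp_log hw0, mul_div_cancel₀ _ he0]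
  have hLd : DifferentiableOn ℂ Lg (ball (Complex.exp ζ) ‖Complex.exp ζ‖) := by
    intro w hw
    have h1 : DifferentiableAt ℂ (fun w => ζ + Complex.log (w / Complex.exp ζ)) w :=
      ((differentiableAt_id.div_const _).clog (hsl w hw)).const_add ζ
    have h2 : Lg = fun w => ζ + Complex.log (w / Complex.exp ζ) := funext hLg
    rw [h2]
    exact h1.differentiableWithinAt
  have hL0 : Lg (Complex.exp ζ) = ζ := by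
    rw [hLg, div_self he0, Complex.log_one, add_zero]
  have hc : ContinuousAt Lg (Complex.exp ζ) :=
    (hLd.differentiableAt (ball_mem_nhds _ hn)).continuousAt
  obtain ⟨δ, hδ, hδ2⟩ := Metric.continuousAt_iff.1 hc ε hε
  obtain ⟨ψ, hψ⟩ := gpp h _ hζ' (min δ ‖Complex.exp ζ‖) (lt_min hδ hn)
  have hin : ∀ u ∈ ball (0 : ℂ) 1, ψ u ∈ ball (Complex.exp ζ) ‖Complex.exp ζ‖ := fun u hu =>
    ball_subset_ball (min_le_right _ _) (hψ.out ⟨u, hu, rfl⟩)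
  refine ⟨fun u => Lg (ψ u), θ, h.θ0, h.θ1, hLd.comp hψ.diff hin, ?_, ?_, ?_, ?_⟩
  · intro u hu v hv huv
    have h1 := congrArg Complex.exp huv
    simp only at h1
    rw [hexp _ (hin u hu), hexp _ (hin v hv)] at h1
    exact hψ.inj hu hv h1
  · obtain ⟨u, hu, hue⟩ := hψ.inn (mem_ball_self (div_pos (lt_min hδ hn) (lt_of_lt_of_le one_pos h.C1)))
    refine ⟨u, hu, ?_⟩
    show Lg (ψ u) = ζ
    rw [hue, hL0]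
  · rintro _ ⟨u, hu, rfl⟩
    have h1 : ψ u ∈ ball (Complex.exp ζ) δ := ball_subset_ball (min_le_left _ _) (hψ.out ⟨u, hu, rfl⟩)
    have h2 := hδ2 (mem_ball.1 h1)
    rw [hL0] at h2
    exact h2
  · intro u h1 h2 h3
    have h4 : Complex.exp (Lg (ψ u)) ∈ Ph 𝒰 P := h3
    rw [hexp _ (hin u (mem_ball_zero_iff.2 h2))] at h4
    exact hψ.col u h1 h2 h4

/-- limits of gap discs -/
theorem gdl (h : LS 𝒰 F D P θ C) {x : ℕ → ℂ} {x0 : ℂ} {r : ℝ} {ψ : ℕ → ℂ → ℂ} (hr : 0 < r)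
    (hx : Tendsto x (𝒰 : Filter ℕ) (𝓝 x0)) (hψ : ∀ᶠ n in (𝒰 : Filter ℕ), GD θ C (P n) (x n) r (ψ n)) :
    ∃ ψ' : ℂ → ℂ, DifferentiableOn ℂ ψ' (ball 0 1) ∧ InjOn ψ' (ball 0 1) ∧
      TendstoLocallyUniformlyOn ψ ψ' (𝒰 : Filter ℕ) (ball 0 1) ∧
      (∀ ρ : ℝ, θ < ρ → ball x0 (r / C) ⊆ ψ' '' ball 0 ρ) ∧ ψ' '' ball 0 1 ⊆ ball x0 r ∧
      ∀ u : ℂ, θ < ‖u‖ → ‖u‖ < 1 → ψ' u ∉ Ph 𝒰 P := by
  obtain ⟨ψ0, h1, h2⟩ := gap_lim h.θ0 h.θ1 h.C1 h.Pc (fun n => ⟨0, h.P0 n⟩) hr hx hψ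
  exact ⟨ψ0, h1.diff, h1.inj, h2, fun ρ hρ => h1.inn.trans (image_mono (ball_subset_ball hρ.le)), h1.out, h1.col⟩

theorem germ (h : LS 𝒰 F D P θ C) {w s : ℂ} (hg : Gd 𝒰 F D P w s) {r : ℝ} (hr : 0 < r)
    (hb : Disjoint (closedBall w r) (Ph 𝒰 P)) :
    ∃ (M : ℝ) (G : ℕ → ℂ → ℂ) (g : ℂ → ℂ), (∀ᶠ n in (𝒰 : Filter ℕ), Bq (F n) (D n) w r M (G n)) ∧
      TendstoLocallyUniformlyOn G g (𝒰 : Filter ℕ) (ball w r) ∧ DifferentiableOn ℂ g (ball w r) ∧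
      InjOn g (ball w r) ∧ g w = s ∧ ∀ u ∈ ball w r, Gd 𝒰 F D P u (g u) := by
  obtain ⟨G, g, h1, h2, ⟨M, h3⟩, h4, h5, h6, h7⟩ := gb h hg hr hb
  have hw : w ∈ ball w r := mem_ball_self hr
  have hd : deriv g w ≠ 0 := uh_der isOpen_ball h4 h5 hw
  have hlim : Tendsto (fun n => deriv (G n) w) (𝒰 : Filter ℕ) (𝓝 (deriv g w)) :=
    (h2.deriv (h1.mono fun n hn => hn.1) isOpen_ball).tendsto_at hw
  have hpos : 0 < ‖deriv g w‖ := norm_pos_iff.2 hd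
  have hev : ∀ᶠ n in (𝒰 : Filter ℕ), ‖deriv g w‖ / 2 < ‖deriv (G n) w‖ :=
    hlim.norm.eventually_const_lt (by linarith)
  refine ⟨max M (2 / ‖deriv g w‖), G, g, ?_, h2, h4, h5, h6, h7⟩
  filter_upwards [h1, h3, hev] with n hn1 hn3 hn
  refine ⟨hn1.1, fun u hu => ⟨(hn1.2 u hu).1, (hn1.2 u hu).2, (hn3 u hu).trans (le_max_left _ _)⟩, ?_⟩
  calc (1 : ℝ) = 2 / ‖deriv g w‖ * (‖deriv g w‖ / 2) := by field_simp
    _ ≤ max M (2 / ‖deriv g w‖) * ‖deriv (G n) w‖ :=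
      mul_le_mul (le_max_right _ _) hn.le (by positivity) (le_max_of_le_right (by positivity))

/-- closing does not depend on the lift -/
theorem ind (h : LS 𝒰 F D P θ C) {wb sb : ℂ} (_ : Gd 𝒰 F D P wb sb) {r : ℝ} (hr : 0 < r) {ψ q q' : ℕ → ℂ → ℂ}
    (hψ : ∀ᶠ n in (𝒰 : Filter ℕ), GD θ C (P n) 0 r (ψ n) ∧ Lf (F n) (D n) θ (ψ n) (q n) ∧ Lf (F n) (D n) θ (ψ n) (q' n))
    {ζ ζ' s s' : ℂ} (hζ : ζ ∈ Qc θ) (hζ' : ζ' ∈ Qc θ) (hs : s ∈ Sc 𝒰 F D P sb) (hs' : s' ∈ Sc 𝒰 F D P sb)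
    (ht : Tendsto (fun n => q n ζ) (𝒰 : Filter ℕ) (𝓝 s)) (ht' : Tendsto (fun n => q' n ζ') (𝒰 : Filter ℕ) (𝓝 s'))
    {m : ℕ} (_ : 1 ≤ m) (_ : m ≤ 2) (hc : ∀ᶠ n in (𝒰 : Filter ℕ), Cls θ m (q n)) :
    ∀ᶠ n in (𝒰 : Filter ℕ), Cls θ m (q' n) := by
  have hx : Tendsto (fun _ : ℕ => (0 : ℂ)) (𝒰 : Filter ℕ) (𝓝 0) := tendsto_const_nhds
  have hψ1 : ∀ᶠ n in (𝒰 : Filter ℕ), GD θ C (P n) 0 r (ψ n) := hψ.mono fun n hn => hn.1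
  have hQ : ∀ᶠ n in (𝒰 : Filter ℕ), Lf (F n) (D n) θ (ψ n) (q n) := hψ.mono fun n hn => hn.2.1
  have hQ' : ∀ᶠ n in (𝒰 : Filter ℕ), Lf (F n) (D n) θ (ψ n) (q' n) := hψ.mono fun n hn => hn.2.2
  obtain ⟨ψ0, hg, hl⟩ := gap_lim (x := fun _ => (0 : ℂ)) h.θ0 h.θ1 h.C1 h.Pc (fun n => ⟨0, h.P0 n⟩) hr hx hψ1
  have key : ∀ (p : ℕ → ℂ → ℂ) (ζ s : ℂ), (∀ᶠ n in (𝒰 : Filter ℕ), Lf (F n) (D n) θ (ψ n) (p n)) → ζ ∈ Qc θ →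
      s ∈ Sc 𝒰 F D P sb → Tendsto (fun n => p n ζ) (𝒰 : Filter ℕ) (𝓝 s) → Fh 𝒰 F D P s = ψ0 (Complex.exp ζ) := by
    intro p ζ s hp hζ hs ht
    have h1 : Tendsto (fun n => F n (p n ζ)) (𝒰 : Filter ℕ) (𝓝 (Fh 𝒰 F D P s)) :=
      (near h (fh_gd (sc_sub sb hs)) ht).2
    have h2 : Tendsto (fun n => F n (p n ζ)) (𝒰 : Filter ℕ) (𝓝 (ψ0 (Complex.exp ζ))) := by
      refine ((colim h.θ0 hl).tendsto_at hζ).congr' ?_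
      filter_upwards [hp] with n hn
      exact ((hn.val ζ hζ).2).symm
    exact tendsto_nhds_unique h1 h2
  obtain ⟨Q0, a1, a2, a3⟩ := cl_of h hx hψ1 hg hl hQ hζ hs ht (key q ζ s hQ hζ hs ht)
  obtain ⟨Q0', b1, b2, b3⟩ := cl_of h hx hψ1 hg hl hQ' hζ' hs' ht' (key q' ζ' s' hQ' hζ' hs' ht')
  -- the deck transformation
  obtain ⟨t, c, htc, h1, h2⟩ := deck h (a3.val ζ hζ).1 (b3.val ζ hζ).1 ((a3.val ζ hζ).2.trans (b3.val ζ hζ).2.symm)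
  have hcol := col_exp h.θ0 hg
  have heq : EqOn Q0' (fun u => (t : ℂ) * Q0 u + c) (Qc θ) := by
    refine fh_lift_eq h qc_open qc_convex.isPreconnected b3.diff ((a3.diff.const_mul (t : ℂ)).add_const c)
      (H := fun u => ψ0 (Complex.exp u)) (fun u hu => ⟨sc_sub sb (b3.val u hu).1, (b3.val u hu).2⟩) (fun u hu => ?_)
      (fun u hu => (hcol.2 u hu).1) hζ h1
    obtain ⟨h3, h4⟩ := h2 _ (a3.val u hu).1
    exact ⟨sc_sub sb h3, h4.trans (a3.val u hu).2⟩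
  -- the limit lift closes
  have hcl : Cls θ m Q0 := by
    intro u hu hu'
    have h3 : Tendsto (fun n => q n (u + m * (2 * Real.pi * Complex.I))) (𝒰 : Filter ℕ) (𝓝 (Q0 u)) := by
      refine (a1.tendsto_at hu).congr' ?_
      filter_upwards [hc] with n hn
      exact (hn u hu hu').symm
    exact tendsto_nhds_unique (a1.tendsto_at hu') h3
  refine cls_down h hx hψ1 hQ' b3 b1 (fun u hu hu' => ?_)
  have e1 := heq hu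
  have e2 := heq hu'
  simp only at e1 e2
  rw [e1, e2, hcl u hu hu']

end Pool.Agent.H43.UB
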