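import Pool.Agent.H43.UB.LOC

/-!
# THEOREM UD, chapter B: gluing the local branches

`glu`. `hloc` at every `ζ`: `ε ζ`, `G ζ n`. The compact ball `closedBall 0 L` is covered by finitely many `ball ζ_i (ε_i / 4)`, `i ∈ T`. OVERLAPS: if `ball ζ_i (ε_i / 2)` and `ball ζ_j (ε_j / 2)` meet, the overlap `O` of these balls is open, convex, not empty; there is `u ∈ O` with `exp u ∉ Ph` (`ph_int`: the interior of `Ph` is empty, `exp '' O` is open: `Complex.exp` is an open map, or: the preimage of `Ph` under the local homeomorphism has empty interior). `Gd (exp u) (κ u + c)` (`hS`, `hF`, `fh_gd`); `G ζ_i n u` and `G ζ_j n u` tend to `κ u + c` and have the same `F n`-value `exp u`: equal for almost all `n` (`uq`), so equal on `O` (`lift_eq` with `H = exp`, `deriv exp ≠ 0`, `h.Do`, `h.Fd`). Finitely many pairs: for almost all `n` all overlaps agree.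
`G u := G ζ_i n u` for the first (any chosen) `i` with `u ∈ ball ζ_i (ε_i / 4)` (outside `ball 0 L` arbitrary): near `u` it is equal to `G ζ_i n` (points near `u` are in `ball ζ_i (ε_i / 2)`), so holomorphic on `ball 0 L`. The error is `< ε` for almost all `n`: uniform convergence on the compact balls `closedBall ζ_i (ε_i / 2)`.
-/

set_option autoImplicit false

open Filter Topology Metric Set MeasureTheory

namespace Pool.Agent.H43.UB

open Pool.Agent.H56.UD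

variable {𝒰 : Ultrafilter ℕ} {F : ℕ → ℂ → ℂ} {D P : ℕ → Set ℂ} {θ C : ℝ}

/-- the local branches agree on overlaps -/
private theorem ov (h : LS 𝒰 F D P θ C) {sb κ c : ℂ} (hκ : κ ≠ 0) (hS : Sc 𝒰 F D P sb = {s | Complex.exp ((s - c) / κ) ∉ Ph 𝒰 P})
    (hF : ∀ s ∈ Sc 𝒰 F D P sb, Fh 𝒰 F D P s = Complex.exp ((s - c) / κ)) {ζ1 ζ2 : ℂ} {ε1 ε2 : ℝ} {G1 G2 : ℕ → ℂ → ℂ}
    (h1 : ∀ᶠ n in (𝒰 : Filter ℕ), DifferentiableOn ℂ (G1 n) (ball ζ1 ε1) ∧
      ∀ u ∈ ball ζ1 ε1, G1 n u ∈ D n ∧ F n (G1 n u) = Complex.exp u)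
    (t1 : TendstoLocallyUniformlyOn G1 (fun u => κ * u + c) (𝒰 : Filter ℕ) (ball ζ1 ε1))
    (h2 : ∀ᶠ n in (𝒰 : Filter ℕ), DifferentiableOn ℂ (G2 n) (ball ζ2 ε2) ∧
      ∀ u ∈ ball ζ2 ε2, G2 n u ∈ D n ∧ F n (G2 n u) = Complex.exp u)
    (t2 : TendstoLocallyUniformlyOn G2 (fun u => κ * u + c) (𝒰 : Filter ℕ) (ball ζ2 ε2)) :
    ∀ᶠ n in (𝒰 : Filter ℕ), EqOn (G1 n) (G2 n) (ball ζ1 ε1 ∩ ball ζ2 ε2) := by
  rcases (ball ζ1 ε1 ∩ ball ζ2 ε2).eq_empty_or_nonempty with he | hne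
  · rw [he]
    exact Eventually.of_forall fun n => eqOn_empty _ _
  have hO : IsOpen (ball ζ1 ε1 ∩ ball ζ2 ε2) := isOpen_ball.inter isOpen_ball
  have hex : ∃ u ∈ ball ζ1 ε1 ∩ ball ζ2 ε2, Complex.exp u ∉ Ph 𝒰 P := by
    by_contra hcon
    push Not at hcon
    obtain ⟨u, hu⟩ := hne
    have h3 : Complex.exp u ∈ interior (Ph 𝒰 P) := by
      rw [mem_interior]
      exact ⟨Complex.exp '' (ball ζ1 ε1 ∩ ball ζ2 ε2), image_subset_iff.2 hcon,
        Complex.isOpenMap_exp _ hO, mem_image_of_mem _ hu⟩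
    rw [ph_int h] at h3
    exact h3
  obtain ⟨u, hu, huP⟩ := hex
  have e1 : (κ * u + c - c) / κ = u := by
    field_simp
    ring
  have hsc : κ * u + c ∈ Sc 𝒰 F D P sb := by
    rw [hS]
    show Complex.exp ((κ * u + c - c) / κ) ∉ Ph 𝒰 P
    rwa [e1]
  have hgd : Gd 𝒰 F D P (Complex.exp u) (κ * u + c) := by
    have h3 := fh_gd (sc_sub sb hsc)
    rwa [hF _ hsc, e1] at h3
  have h4 := uq h hgd (t1.tendsto_at hu.1) (t2.tendsto_at hu.2) (by
    filter_upwards [h1, h2] with n hn1 hn2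
    rw [(hn1.2 u hu.1).2, (hn2.2 u hu.2).2])
  filter_upwards [h1, h2, h4] with n hn1 hn2 hn4
  exact lift_eq (h.Do n) (h.Fd n) hO ((convex_ball _ _).inter (convex_ball _ _)).isPreconnected
    (hn1.1.mono inter_subset_left) (hn2.1.mono inter_subset_right) (fun v hv => hn1.2 v hv.1)
    (fun v hv => hn2.2 v hv.2) (fun v _ => by
      rw [Complex.deriv_exp]
      exact Complex.exp_ne_zero v) hu hn4

theorem glu (h : LS 𝒰 F D P θ C) {sb κ c : ℂ} (hκ : κ ≠ 0) (hS : Sc 𝒰 F D P sb = {s | Complex.exp ((s - c) / κ) ∉ Ph 𝒰 P})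
    (hF : ∀ s ∈ Sc 𝒰 F D P sb, Fh 𝒰 F D P s = Complex.exp ((s - c) / κ))
    (hloc : ∀ ζ : ℂ, ∃ (ε : ℝ) (G : ℕ → ℂ → ℂ), 0 < ε ∧ (∀ᶠ n in (𝒰 : Filter ℕ), DifferentiableOn ℂ (G n) (ball ζ ε) ∧
      ∀ u ∈ ball ζ ε, G n u ∈ D n ∧ F n (G n u) = Complex.exp u) ∧
      TendstoLocallyUniformlyOn G (fun u => κ * u + c) (𝒰 : Filter ℕ) (ball ζ ε))
    (L ε : ℝ) (hε : 0 < ε) : ∀ᶠ n in (𝒰 : Filter ℕ), ∃ G : ℂ → ℂ, DifferentiableOn ℂ G (ball 0 L) ∧
      ∀ ζ ∈ ball (0 : ℂ) L, G ζ ∈ D n ∧ F n (G ζ) = Complex.exp ζ ∧ ‖G ζ - (κ * ζ + c)‖ < ε := by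
  classical
  choose E G hE hG hT using hloc
  obtain ⟨t, -, ht⟩ := (isCompact_closedBall (0 : ℂ) L).elim_nhds_subcover (fun ζ => ball ζ (E ζ / 4))
    (fun ζ _ => ball_mem_nhds ζ (by linarith [hE ζ]))
  have hov : ∀ᶠ n in (𝒰 : Filter ℕ), ∀ i ∈ t, ∀ j ∈ t, EqOn (G i n) (G j n) (ball i (E i) ∩ ball j (E j)) := by
    rw [Filter.eventually_all_finset]
    intro i _
    rw [Filter.eventually_all_finset]
    intro j _
    exact ov h hκ hS hF (hG i) (hT i) (hG j) (hT j)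
  have hall : ∀ᶠ n in (𝒰 : Filter ℕ), ∀ i ∈ t, (DifferentiableOn ℂ (G i n) (ball i (E i)) ∧
      ∀ u ∈ ball i (E i), G i n u ∈ D n ∧ F n (G i n u) = Complex.exp u) := by
    rw [Filter.eventually_all_finset]
    intro i _
    exact hG i
  have hcl : ∀ᶠ n in (𝒰 : Filter ℕ), ∀ i ∈ t, ∀ u ∈ closedBall i (E i / 4), ‖G i n u - (κ * u + c)‖ < ε := by
    rw [Filter.eventually_all_finset]
    intro i _
    have h1 := (tendstoLocallyUniformlyOn_iff_forall_isCompact isOpen_ball).1 (hT i) (closedBall i (E i / 4))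
      (closedBall_subset_ball (by linarith [hE i])) (isCompact_closedBall _ _)
    filter_upwards [Metric.tendstoUniformlyOn_iff.1 h1 ε hε] with n hn u hu
    have h2 := hn u hu
    rw [dist_comm, dist_eq_norm] at h2
    exact h2
  filter_upwards [hov, hall, hcl] with n h1 h2 h3
  have hsub : ∀ i, ball i (E i / 4) ⊆ ball i (E i) := fun i => ball_subset_ball (by linarith [hE i])
  set Gf : ℂ → ℂ := fun u => if hu : ∃ i ∈ t, u ∈ ball i (E i / 4) then G hu.choose n u else 0 with hGf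
  have hGe : ∀ i ∈ t, ∀ u ∈ ball i (E i / 4), Gf u = G i n u := by
    intro i hi u hu
    have hex : ∃ i ∈ t, u ∈ ball i (E i / 4) := ⟨i, hi, hu⟩
    simp only [hGf]
    rw [dif_pos hex]
    exact h1 _ hex.choose_spec.1 i hi ⟨hsub _ hex.choose_spec.2, hsub i hu⟩
  have hcov : ∀ u ∈ ball (0 : ℂ) L, ∃ i ∈ t, u ∈ ball i (E i / 4) := by
    intro u hu
    have h4 := ht (ball_subset_closedBall hu)
    simpa only [mem_iUnion, exists_prop] using h4
  refine ⟨Gf, fun u hu => ?_, fun u hu => ?_⟩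
  · obtain ⟨i, hi, hui⟩ := hcov u hu
    have h4 : DifferentiableAt ℂ (G i n) u := (h2 i hi).1.differentiableAt (isOpen_ball.mem_nhds (hsub i hui))
    have h5 : Gf =ᶠ[𝓝 u] G i n := by
      filter_upwards [isOpen_ball.mem_nhds hui] with v hv
      exact hGe i hi v hv
    exact (h4.congr_of_eventuallyEq h5).differentiableWithinAt
  · obtain ⟨i, hi, hui⟩ := hcov u hu
    rw [hGe i hi u hui]
    have h4 := (h2 i hi).2 u (hsub i hui)
    exact ⟨h4.1, h4.2, h3 i hi u (ball_subset_closedBall hui)⟩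

end Pool.Agent.H43.UB
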