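import Pool.Agent.H43.UB.LFA
import Pool.Agent.H43.UB.GLU
import Pool.Agent.H65.UB.Fin

/-!
# THEOREM UD, chapter B: the target, from the theorem on limit frames (H65/UB/Fin)
-/

set_option autoImplicit false

open Filter Topology Metric Set MeasureTheory

namespace Pool.Agent.H43.UB

open Pool.Agent.H56.UD

variable {𝒰 : Ultrafilter ℕ} {F : ℕ → ℂ → ℂ} {D P : ℕ → Set ℂ} {θ C : ℝ}

/-- the finite stage -/
theorem clx_of (h : LS 𝒰 F D P θ C) {sb : ℂ} (hl : ∃ κ c : ℂ, κ ≠ 0 ∧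
    Sc 𝒰 F D P sb = {s | Complex.exp ((s - c) / κ) ∉ Ph 𝒰 P} ∧
    ∀ s ∈ Sc 𝒰 F D P sb, Fh 𝒰 F D P s = Complex.exp ((s - c) / κ)) : Xp 𝒰 F D P sb := by
  obtain ⟨κ, c, hκ, hS, hF⟩ := hl
  refine ⟨κ, c, hκ, fun s hs w hw => ?_, fun L ε hε => ?_⟩
  · rw [← hF s hs]
    exact (fh_eq h hw).symm
  · refine glu h hκ hS hF (fun ζ => ?_) L ε hε
    by_cases hζ : Complex.exp ζ ∈ Ph 𝒰 P
    · exact loc_bad h (hcn h) hκ hS hF hζ
    · exact loc_good h hκ hS hF hζ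

/-- the target of chapter B: the limit is exactly the exponential -/
theorem clx (h : LS 𝒰 F D P θ C) {wb sb : ℂ} (hb : Gd 𝒰 F D P wb sb) (ho : Ord 𝒰 F D P θ C sb) : Xp 𝒰 F D P sb :=
  clx_of h (Pool.Agent.H65.UB.clf (lfa h hb ho))

end Pool.Agent.H43.UB
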