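import Pool.Agent.H43.UB.NEA

/-!
# THEOREM UD, chapter B: an open connected set on which the `F n` take values in a compact set disjoint from `Ph` is good if one point is good

PROOF of `opn`. For almost all `n` `F n` is differentiable on `K` (`h.Fd n`, `K ⊆ D n`) and bounded there (`V` is compact). `um`: `F n → F'` locally uniformly on `K`,
`F'` differentiable on `K`; `F' s ∈ V` for `s ∈ K` (`V` is closed, `tendsto_at`), so `F' s ∉ Ph`.
(a) `deriv F' s0 ≠ 0`: `gb` at `(w0, s0)` on a ball `ball w0 ρ` (`closedBall w0 ρ` off `Ph`, `ph_closed`): `G n → g`, `g w0 = s0`, `g` continuous. For `u` near `w0` `g u ∈ K`, and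
`F' (g u) = lim F n (G n u) = u` (locally uniform convergence on `K` and `G n u → g u`: as in `NEA`, `TendstoLocallyUniformlyOn.tendsto_comp`), so `F' ∘ g = id` near `w0` and `deriv F' s0 ≠ 0` (chain rule).
(b) `deriv F'` is not identically `0` on any ball `ball s r ⊆ K`: identity theorem for `deriv F'` (analytic on the preconnected open set `K`), (a).
(c) `deriv F' s ≠ 0` for all `s ∈ K`. Suppose `deriv F' s = 0`; `w = F' s ∈ V`, `closedBall w (2 d)` disjoint from `Ph`, so from `P n` for almost all `n` (`ph_off`); `ball s r ⊆ K`. For almost all `n` `F n s ∈ ball w (d / 2)`;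
`h.lift (‖w‖ + 2 d + 1)` with the convex set `ball w d`, `H = id`, `q = F n s`: a branch `Gn` on `ball w d`, `Gn (F n s) = s`, `F n (Gn u) = u`: `Gn` is injective, `deriv Gn (F n s) * deriv (F n) s = 1`.
`Pool.Agent.H80.AJ.univ_cover` (H80/AJ/Cover) on `ball (F n s) (d / 2)`: `ball s ((d / 2) * ‖deriv Gn (F n s)‖ / 16) ⊆ Gn '' ball (F n s) (d / 2)`; `deriv (F n) s → deriv F' s = 0` (`TendstoLocallyUniformlyOn.deriv`), so the radius is `> r` for almost all `n`. So `F n` is injective on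
`ball s r` (there `v = Gn u`, `F n v = u`) for almost all `n`; `uh_inj` (with (b)): `F'` is injective on `ball s r`, `uh_der`: `deriv F' s ≠ 0`: contradiction.
(d) `Gd (F' s) s`: `z n = s`; `deriv (F n) s → deriv F' s ≠ 0` is bounded and bounded below for almost all `n` (`M = 2 ‖deriv F' s‖ + 2 / ‖deriv F' s‖`), `F n s → F' s`.
-/

set_option autoImplicit false

open Filter Topology Metric Set MeasureTheory

namespace Pool.Agent.H43.UB

open Pool.Agent.H56.UD

variable {𝒰 : Ultrafilter ℕ} {F : ℕ → ℂ → ℂ} {D P : ℕ → Set ℂ} {θ C : ℝ}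

/-- the inverse branch at one point gives a lower bound of the injectivity radius -/
private theorem opn_inj {f G : ℂ → ℂ} {D : Set ℂ} (hD : IsOpen D) (hf : DifferentiableOn ℂ f D) {w s : ℂ} {d r : ℝ}
    (hd : 0 < d) (hr : 0 < r) (hw : f s ∈ ball w (d / 2)) (hG : DifferentiableOn ℂ G (ball w d)) (hGs : G (f s) = s)
    (hv : ∀ u ∈ ball w d, G u ∈ D ∧ f (G u) = u) (hs : ‖deriv f s‖ < d / (32 * r)) : InjOn f (ball s r) := by
  have hsub : ball (f s) (d / 2) ⊆ ball w d := by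
    refine ball_subset_ball' ?_
    rw [mem_ball] at hw
    linarith
  have hfs : f s ∈ ball w d := hsub (mem_ball_self (half_pos hd))
  have hGi : InjOn G (ball w d) := fun u hu u' hu' he => by
    rw [← (hv u hu).2, ← (hv u' hu').2, he]
  have hD' : s ∈ D := by
    have h1 := (hv _ hfs).1
    rwa [hGs] at h1
  have h1 : HasDerivAt f (deriv f s) (G (f s)) := by
    rw [hGs]
    exact (hf.differentiableAt (hD.mem_nhds hD')).hasDerivAt
  have h2 : HasDerivAt G (deriv G (f s)) (f s) :=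
    (hG.differentiableAt (isOpen_ball.mem_nhds hfs)).hasDerivAt
  have h3 : HasDerivAt (fun u => f (G u)) (deriv f s * deriv G (f s)) (f s) := h1.comp (f s) h2
  have h4 : (fun u => f (G u)) =ᶠ[𝓝 (f s)] id := by
    filter_upwards [isOpen_ball.mem_nhds hfs] with u hu
    exact (hv u hu).2
  have h5 : deriv f s * deriv G (f s) = 1 := by
    have h6 := h4.deriv_eq
    rw [h3.deriv, deriv_id] at h6
    exact h6
  have h6 : ‖deriv f s‖ * ‖deriv G (f s)‖ = 1 := by rw [← norm_mul, h5, norm_one]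
  have h7 : 0 < ‖deriv f s‖ := by
    rcases (norm_nonneg (deriv f s)).lt_or_eq with h | h
    · exact h
    · rw [← h, zero_mul] at h6
      exact absurd h6 zero_ne_one
  have h8 : r ≤ d / 2 * ‖deriv G (f s)‖ / 16 := by
    have h9 : ‖deriv G (f s)‖ = 1 / ‖deriv f s‖ := by
      field_simp
      linarith
    rw [h9]
    rw [lt_div_iff₀ (by positivity)] at hs
    have h10 : d / 2 * (1 / ‖deriv f s‖) / 16 = d / (32 * ‖deriv f s‖) := by
      field_simp
      norm_num
    rw [h10, le_div_iff₀ (by positivity)]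
    linarith
  have h9 := Pool.Agent.H80.AJ.univ_cover (half_pos hd) (hG.mono hsub) (hGi.mono hsub)
  rw [hGs] at h9
  have h10 : ∀ v ∈ ball s r, G (f v) = v := by
    intro v hv'
    obtain ⟨u, hu, he⟩ := h9 (ball_subset_ball h8 hv')
    rw [← he, (hv u (hsub hu)).2]
  intro v hv1 v' hv2 he
  rw [← h10 v hv1, ← h10 v' hv2, he]

private theorem opn_off {Y : Set ℂ} (hY : IsClosed Y) {w : ℂ} (hw : w ∉ Y) :
    ∃ d : ℝ, 0 < d ∧ Disjoint (closedBall w d) Y := by
  obtain ⟨d, hd, hb⟩ := Metric.nhds_basis_closedBall.mem_iff.1 (hY.isOpen_compl.mem_nhds hw)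
  exact ⟨d, hd, Set.disjoint_left.2 fun x hx hx' => hb hx hx'⟩

theorem opn (h : LS 𝒰 F D P θ C) {K V : Set ℂ} (hK : IsOpen K) (hc : IsPreconnected K) (hV : IsCompact V)
    (hP : Disjoint V (Ph 𝒰 P)) (hF : ∀ᶠ n in (𝒰 : Filter ℕ), K ⊆ D n ∧ ∀ s ∈ K, F n s ∈ V) {w0 s0 : ℂ} (h0 : s0 ∈ K)
    (hs : Gd 𝒰 F D P w0 s0) : ∀ s ∈ K, ∃ w ∈ V, Gd 𝒰 F D P w s := by
  obtain ⟨M0, hM0⟩ := hV.isBounded.exists_norm_le
  have hFd : ∀ᶠ n in (𝒰 : Filter ℕ), DifferentiableOn ℂ (F n) K := by
    filter_upwards [hF] with n hn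
    exact (h.Fd n).mono hn.1
  obtain ⟨F', hd', hu'⟩ := um 𝒰 hK hFd (fun u hu => by
    obtain ⟨r, hr, hb⟩ := Metric.isOpen_iff.1 hK u hu
    refine ⟨r, M0, hr, hb, ?_⟩
    filter_upwards [hF] with n hn v hv
    exact hM0 _ (hn.2 v (hb hv)))
  have hV' : ∀ s ∈ K, F' s ∈ V := by
    intro s hs'
    refine hV.isClosed.mem_of_tendsto (hu'.tendsto_at hs') ?_
    filter_upwards [hF] with n hn
    exact hn.2 s hs'
  have hoff : ∀ s ∈ K, F' s ∉ Ph 𝒰 P := fun s hs' hp => Set.disjoint_left.1 hP (hV' s hs') hp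
  have hda : TendstoLocallyUniformlyOn (deriv ∘ F) (deriv F') (𝒰 : Filter ℕ) K := hu'.deriv hFd hK
  have ha : deriv F' s0 ≠ 0 := by
    obtain ⟨ρ, hρ, hdis⟩ := opn_off (ph_closed (𝒰 := 𝒰) (P := P)) hs.1
    obtain ⟨G, g, h1, h2, _, h4, h5, h6, h7⟩ := gb h hs hρ hdis
    have hw0 : w0 ∈ ball w0 ρ := mem_ball_self hρ
    have hgd : DifferentiableAt ℂ g w0 := h4.differentiableAt (isOpen_ball.mem_nhds hw0)
    have h8 : ∀ᶠ u in 𝓝 w0, g u ∈ K :=
      hgd.continuousAt (hK.mem_nhds (by rw [h6]; exact h0))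
    have h9 : (fun u => F' (g u)) =ᶠ[𝓝 w0] id := by
      filter_upwards [h8, isOpen_ball.mem_nhds hw0] with u hu1 hu2
      have h10 : Tendsto (fun n => G n u) (𝒰 : Filter ℕ) (𝓝[K] (g u)) := by
        rw [hK.nhdsWithin_eq hu1]
        exact h2.tendsto_at hu2
      have h11 : Tendsto (fun n => F n (G n u)) (𝒰 : Filter ℕ) (𝓝 (F' (g u))) :=
        hu'.tendsto_comp (hd'.continuousOn (g u) hu1) hu1 h10
      have h12 : Tendsto (fun n => F n (G n u)) (𝒰 : Filter ℕ) (𝓝 u) := by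
        refine tendsto_const_nhds.congr' ?_
        filter_upwards [h1] with n hn
        exact (hn.2 u hu2).2.symm
      exact tendsto_nhds_unique h11 h12
    have h10 : HasDerivAt F' (deriv F' s0) (g w0) := by
      rw [h6]
      exact (hd'.differentiableAt (hK.mem_nhds h0)).hasDerivAt
    have h11 : HasDerivAt (fun u => F' (g u)) (deriv F' s0 * deriv g w0) w0 :=
      h10.comp w0 hgd.hasDerivAt
    have h12 := h9.deriv_eq
    rw [h11.deriv, deriv_id] at h12
    intro h13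
    rw [h13, zero_mul] at h12
    exact zero_ne_one h12
  have hb : ∀ s r, 0 < r → ball s r ⊆ K → ∃ u ∈ ball s r, deriv F' u ≠ 0 := by
    intro s r hr hsub
    by_contra hcon
    push Not at hcon
    have h1 : AnalyticOnNhd ℂ (deriv F') K := (hd'.analyticOnNhd hK).deriv
    have h2 : deriv F' =ᶠ[𝓝 s] 0 := by
      filter_upwards [ball_mem_nhds s hr] with u hu
      exact hcon u hu
    exact ha (h1.eqOn_zero_of_preconnected_of_eventuallyEq_zero hc (hsub (mem_ball_self hr)) h2 h0)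
  have hcd : ∀ s ∈ K, deriv F' s ≠ 0 := by
    intro s hs' hz
    obtain ⟨d2, hd2, hdis⟩ := opn_off (ph_closed (𝒰 := 𝒰) (P := P)) (hoff s hs')
    obtain ⟨r, hr, hsub⟩ := Metric.isOpen_iff.1 hK s hs'
    have hdd : 0 < d2 := hd2
    have h1 : ∀ᶠ n in (𝒰 : Filter ℕ), F n s ∈ ball (F' s) (d2 / 2) :=
      (hu'.tendsto_at hs').eventually (ball_mem_nhds _ (half_pos hd2))
    have h2 : ∀ᶠ n in (𝒰 : Filter ℕ), ‖deriv (F n) s‖ < d2 / (32 * r) := by
      have h3 : Tendsto (fun n => ‖deriv (F n) s‖) (𝒰 : Filter ℕ) (𝓝 0) := by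
        have h4 := (hda.tendsto_at hs').norm
        rw [hz, norm_zero] at h4
        exact h4
      exact h3.eventually (gt_mem_nhds (by positivity))
    have h3 : ∀ᶠ n in (𝒰 : Filter ℕ), InjOn (F n) (ball s r) := by
      filter_upwards [h1, h2, hF, ph_off (isCompact_closedBall (F' s) d2) hdis,
        h.lift (‖F' s‖ + d2 + 1)] with n hn1 hn2 hn3 hn4 hn5
      have hq : F n s ∈ ball (F' s) d2 := ball_subset_ball (by linarith) hn1
      obtain ⟨G, hG1, hG2, hG3⟩ := hn5 (ball (F' s) d2) id (F n s) s (convex_ball _ _)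
        isOpen_ball differentiableOn_id (fun u hu => by
          refine ⟨?_, fun hp => Set.disjoint_left.1 hn4 (ball_subset_closedBall hu) hp⟩
          rw [mem_ball, dist_eq_norm] at hu
          have h5 := norm_add_le (u - F' s) (F' s)
          rw [sub_add_cancel] at h5
          change ‖u‖ < _
          linarith) hq (hn3.1 hs') rfl
      exact opn_inj (h.Do n) (h.Fd n) hd2 hr hn1 hG1 hG2 hG3 hn2
    have h4 : InjOn F' (ball s r) := uh_inj 𝒰 isOpen_ball (convex_ball s r).isPreconnected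
      (hFd.mono fun n hn => hn.mono hsub) (hu'.mono hsub) h3 (hb s r hr hsub)
    exact uh_der isOpen_ball (hd'.mono hsub) h4 (mem_ball_self hr) hz
  intro s hs'
  refine ⟨F' s, hV' s hs', hoff s hs', 2 * ‖deriv F' s‖ + 2 / ‖deriv F' s‖, fun _ => s, ?_,
    tendsto_const_nhds, hu'.tendsto_at hs'⟩
  have hpos : 0 < ‖deriv F' s‖ := norm_pos_iff.2 (hcd s hs')
  have h1 : Tendsto (fun n => ‖deriv (F n) s‖) (𝒰 : Filter ℕ) (𝓝 ‖deriv F' s‖) :=
    (hda.tendsto_at hs').norm
  filter_upwards [hF, h1.eventually (gt_mem_nhds (show ‖deriv F' s‖ < 2 * ‖deriv F' s‖ by linarith)),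
    h1.eventually (lt_mem_nhds (show ‖deriv F' s‖ / 2 < ‖deriv F' s‖ by linarith))] with n hn1 hn2 hn3
  refine ⟨hn1.1 hs', ?_, ?_⟩
  · have h2 : 2 / ‖deriv F' s‖ * (‖deriv F' s‖ / 2) = 1 := by
      field_simp
    have h3 : 2 / ‖deriv F' s‖ * (‖deriv F' s‖ / 2) ≤ 2 / ‖deriv F' s‖ * ‖deriv (F n) s‖ :=
      mul_le_mul_of_nonneg_left hn3.le (by positivity)
    have h4 : 0 ≤ 2 * ‖deriv F' s‖ * ‖deriv (F n) s‖ := by positivity
    rw [add_mul]
    linarith
  · have h2 : 0 ≤ 2 / ‖deriv F' s‖ := by positivity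
    linarith

end Pool.Agent.H43.UB
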