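import Pool.Agent.H43.UB.NEA

/-!
# THEOREM UD, chapter B: lifting of paths

`prt`. `gb` on `ball w r`: `G n → g`, `g w = s`, `g` injective, `Gd u (g u)`. `K = g '' ball w ρ`: open (`uh_open`), preconnected, contains `g w' ` for `w' ∈ ball w ρ`.
For almost all `n` `K ⊆ G n '' ball w r`: otherwise for almost all `n` there is `z n ∈ K`, `z n ∉ G n '' ball w r`; `z n` is in the compact set `g '' closedBall w ρ`, so `z n → z = g u0`, `u0 ∈ closedBall w ρ` (`ul_ex` or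
`IsCompact.ultrafilter_le_nhds`); `g` is not locally constant at `u0` (injective); `uh_hit`: for almost all `n` `z n = G n u`, `u ∈ ball u0 ε ⊆ ball w r`: contradiction. So every `x ∈ K` is `G n u` with `u ∈ ball w r`: `x ∈ D n`, `F n x = u ∈ closedBall w r`.
`path`. `T` = the set of the `w ∈ V` for which the conclusion holds with `w2 = w`. LOCAL: for `w ∈ V` let `closedBall w (3 r) ⊆ V`; if `w', w'' ∈ ball w r` and `w' ∈ T` then `w'' ∈ T`: let `s'`, `K'`, `V''` belong to `w'`; `prt` at `(w', s')` with radius `2 r + r / 2` and `ρ = 2 r`: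
`K = K' ∪ K''` (both are open and preconnected and contain `s'`), `V' = V'' ∪ closedBall w' (2 r + r / 2) ⊆ V`, and `s''` with `Gd w'' s''`, `s'' ∈ K''`. In the same way (without `K'`) `w1 ∈ T`. So `T` and `V \ T` are open, `V` is preconnected: `V ⊆ T`
(`IsPreconnected.subset_left_of_subset_union`).
-/

set_option autoImplicit false

open Filter Topology Metric Set MeasureTheory

namespace Pool.Agent.H43.UB

open Pool.Agent.H56.UD

variable {𝒰 : Ultrafilter ℕ} {F : ℕ → ℂ → ℂ} {D P : ℕ → Set ℂ} {θ C : ℝ}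

/-- the local part -/
theorem prt (h : LS 𝒰 F D P θ C) {w s : ℂ} (hs : Gd 𝒰 F D P w s) {r ρ : ℝ} (hρ : 0 < ρ) (hr : ρ < r)
    (hoff : Disjoint (closedBall w r) (Ph 𝒰 P)) :
    ∃ K : Set ℂ, IsOpen K ∧ IsPreconnected K ∧ s ∈ K ∧ (∀ w' ∈ ball w ρ, ∃ s' ∈ K, Gd 𝒰 F D P w' s') ∧
      (∀ x ∈ K, ∃ w' ∈ closedBall w r, Gd 𝒰 F D P w' x) ∧ ∀ᶠ n in (𝒰 : Filter ℕ), K ⊆ D n ∧ ∀ x ∈ K, F n x ∈ closedBall w r := by
  obtain ⟨G, g, h1, h2, -, h4, h5, h6, h7⟩ := gb h hs (hρ.trans hr) hoff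
  have hsub : ball w ρ ⊆ ball w r := ball_subset_ball hr.le
  refine ⟨g '' ball w ρ, uh_open isOpen_ball h4 h5 isOpen_ball hsub,
    (convex_ball w ρ).isPreconnected.image g (h4.continuousOn.mono hsub),
    ⟨w, mem_ball_self hρ, h6⟩, fun w' hw' => ⟨g w', mem_image_of_mem g hw', h7 w' (hsub hw')⟩, ?_, ?_⟩
  · rintro _ ⟨u, hu, rfl⟩
    exact ⟨u, ball_subset_closedBall (hsub hu), h7 u (hsub hu)⟩
  · have key : ∀ᶠ n in (𝒰 : Filter ℕ), g '' ball w ρ ⊆ G n '' ball w r := by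
      by_contra hcon
      have hcon2 : ∀ᶠ n in (𝒰 : Filter ℕ), ¬ g '' ball w ρ ⊆ G n '' ball w r :=
        Ultrafilter.eventually_not.2 hcon
      have hex : ∀ n, ∃ u : ℂ, ¬ g '' ball w ρ ⊆ G n '' ball w r → u ∈ ball w ρ ∧ g u ∉ G n '' ball w r := by
        intro n
        by_cases hn : g '' ball w ρ ⊆ G n '' ball w r
        · exact ⟨0, fun h => absurd hn h⟩
        · obtain ⟨x, hx1, hx2⟩ := Set.not_subset.1 hn
          obtain ⟨u, hu, rfl⟩ := hx1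
          exact ⟨u, fun _ => ⟨hu, hx2⟩⟩
      choose u hu using hex
      have hu1 : ∀ᶠ n in (𝒰 : Filter ℕ), u n ∈ ball w ρ ∧ g (u n) ∉ G n '' ball w r := by
        filter_upwards [hcon2] with n hn
        exact hu n hn
      obtain ⟨u0, hu0, hlim⟩ := (isCompact_closedBall w ρ).ultrafilter_le_nhds (𝒰.map u) (by
        rw [Ultrafilter.coe_map, le_principal_iff, mem_map]
        filter_upwards [hu1] with n hn
        exact ball_subset_closedBall hn.1)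
      have hlim' : Tendsto u (𝒰 : Filter ℕ) (𝓝 u0) := hlim
      have hu0r : u0 ∈ ball w r := closedBall_subset_ball hr hu0
      have hg0 : ContinuousAt g u0 := h4.continuousOn.continuousAt (isOpen_ball.mem_nhds hu0r)
      have hz : Tendsto (fun n => g (u n)) (𝒰 : Filter ℕ) (𝓝 (g u0)) := hg0.tendsto.comp hlim'
      have hn : ¬ ∀ᶠ v in 𝓝 u0, g v = g u0 := by
        intro hc
        have h8 : ∀ᶠ v in 𝓝[≠] u0, (g v = g u0 ∧ v ∈ ball w r) ∧ v ≠ u0 :=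
          ((hc.and (isOpen_ball.mem_nhds hu0r)).filter_mono nhdsWithin_le_nhds).and self_mem_nhdsWithin
        obtain ⟨v, ⟨hv1, hv2⟩, hv3⟩ := h8.exists
        exact hv3 (h5 hv2 hu0r hv1)
      have h9 := uh_hit 𝒰 isOpen_ball (h1.mono fun n hn => hn.1) h2 hu0r hn hz one_pos
      obtain ⟨n, hn1, hn2⟩ := (h9.and hu1).exists
      obtain ⟨v, hv, he⟩ := hn1
      exact hn2.2 ⟨v, hv.2, he⟩
    filter_upwards [key, h1] with n hn1 hn2
    refine ⟨fun x hx => ?_, fun x hx => ?_⟩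
    · obtain ⟨v, hv, rfl⟩ := hn1 hx
      exact (hn2.2 v hv).1
    · obtain ⟨v, hv, rfl⟩ := hn1 hx
      rw [(hn2.2 v hv).2]
      exact ball_subset_closedBall hv

/-- the conclusion of `path` for the end point `w` -/
private def pth95_Q (𝒰 : Ultrafilter ℕ) (F : ℕ → ℂ → ℂ) (D P : ℕ → Set ℂ) (V : Set ℂ) (s1 w : ℂ) : Prop :=
  ∃ (s2 : ℂ) (K V' : Set ℂ), Gd 𝒰 F D P w s2 ∧ IsOpen K ∧ IsPreconnected K ∧ s1 ∈ K ∧ s2 ∈ K ∧ IsCompact V' ∧ V' ⊆ V ∧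
    (∀ s ∈ K, ∃ w ∈ V', Gd 𝒰 F D P w s) ∧ ∀ᶠ n in (𝒰 : Filter ℕ), K ⊆ D n ∧ ∀ s ∈ K, F n s ∈ V'

theorem path (h : LS 𝒰 F D P θ C) {V : Set ℂ} (hV : IsOpen V) (hc : IsPreconnected V) (hP : Disjoint V (Ph 𝒰 P))
    {w1 w2 s1 : ℂ} (h1 : w1 ∈ V) (h2 : w2 ∈ V) (hs : Gd 𝒰 F D P w1 s1) :
    ∃ (s2 : ℂ) (K V' : Set ℂ), Gd 𝒰 F D P w2 s2 ∧ IsOpen K ∧ IsPreconnected K ∧ s1 ∈ K ∧ s2 ∈ K ∧ IsCompact V' ∧ V' ⊆ V ∧
      (∀ s ∈ K, ∃ w ∈ V', Gd 𝒰 F D P w s) ∧ ∀ᶠ n in (𝒰 : Filter ℕ), K ⊆ D n ∧ ∀ s ∈ K, F n s ∈ V' := by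
  have hoff : ∀ (x : ℂ) (t : ℝ), closedBall x t ⊆ V → Disjoint (closedBall x t) (Ph 𝒰 P) :=
    fun x t ht => hP.mono_left ht
  -- the local step
  have hloc : ∀ w ∈ V, ∃ r : ℝ, 0 < r ∧ ball w r ⊆ V ∧
      ∀ w' ∈ ball w r, ∀ w'' ∈ ball w r, pth95_Q 𝒰 F D P V s1 w' → pth95_Q 𝒰 F D P V s1 w'' := by
    intro w hw
    obtain ⟨R, hR, hRV⟩ := Metric.nhds_basis_closedBall.mem_iff.1 (hV.mem_nhds hw)
    refine ⟨R / 4, by positivity, (ball_subset_closedBall.trans (closedBall_subset_closedBall (by linarith))).trans hRV,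
      fun w' hw' w'' hw'' hQ => ?_⟩
    obtain ⟨s', K', V'', h3, h4, h5, h6, h7, h8, h9, h10, h11⟩ := hQ
    have hsub : closedBall w' (5 / 8 * R) ⊆ V := by
      refine (closedBall_subset_closedBall' ?_).trans hRV
      rw [mem_ball] at hw'
      linarith
    obtain ⟨K'', k1, k2, k3, k4, k5, k6⟩ := prt h h3 (r := 5 / 8 * R) (ρ := R / 2) (by positivity) (by linarith)
      (hoff _ _ hsub)
    have hw3 : w'' ∈ ball w' (R / 2) := by
      rw [mem_ball] at hw' hw'' ⊢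
      have := dist_triangle_right w'' w' w
      linarith
    obtain ⟨s'', hs'', hg''⟩ := k4 w'' hw3
    refine ⟨s'', K' ∪ K'', V'' ∪ closedBall w' (5 / 8 * R), hg'', h4.union k1, IsPreconnected.union s' h7 k3 h5 k2,
      Or.inl h6, Or.inr hs'', h8.union (isCompact_closedBall _ _), union_subset h9 hsub, ?_, ?_⟩
    · rintro x (hx | hx)
      · obtain ⟨v, hv, hg⟩ := h10 x hx
        exact ⟨v, Or.inl hv, hg⟩
      · obtain ⟨v, hv, hg⟩ := k5 x hx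
        exact ⟨v, Or.inr hv, hg⟩
    · filter_upwards [h11, k6] with n hn1 hn2
      refine ⟨union_subset hn1.1 hn2.1, ?_⟩
      rintro x (hx | hx)
      · exact Or.inl (hn1.2 x hx)
      · exact Or.inr (hn2.2 x hx)
  have hQ1 : pth95_Q 𝒰 F D P V s1 w1 := by
    obtain ⟨R, hR, hRV⟩ := Metric.nhds_basis_closedBall.mem_iff.1 (hV.mem_nhds h1)
    obtain ⟨K'', k1, k2, k3, k4, k5, k6⟩ := prt h hs (r := R) (ρ := R / 2) (by positivity) (by linarith)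
      (hoff _ _ hRV)
    exact ⟨s1, K'', closedBall w1 R, hs, k1, k2, k3, k3, isCompact_closedBall _ _, hRV, k5, k6⟩
  have ho1 : IsOpen {w | w ∈ V ∧ pth95_Q 𝒰 F D P V s1 w} := by
    rw [Metric.isOpen_iff]
    rintro w ⟨hw, hQ⟩
    obtain ⟨r, hr, hrV, hr2⟩ := hloc w hw
    exact ⟨r, hr, fun w' hw' => ⟨hrV hw', hr2 w (mem_ball_self hr) w' hw' hQ⟩⟩
  have ho2 : IsOpen {w | w ∈ V ∧ ¬ pth95_Q 𝒰 F D P V s1 w} := by
    rw [Metric.isOpen_iff]
    rintro w ⟨hw, hQ⟩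
    obtain ⟨r, hr, hrV, hr2⟩ := hloc w hw
    exact ⟨r, hr, fun w' hw' => ⟨hrV hw', fun hc => hQ (hr2 w' hw' w (mem_ball_self hr) hc)⟩⟩
  have hsub := hc.subset_left_of_subset_union ho1 ho2
    (Set.disjoint_left.2 fun x hx hx' => hx'.2 hx.2)
    (fun x hx => by
      by_cases hq : pth95_Q 𝒰 F D P V s1 x
      · exact Or.inl ⟨hx, hq⟩
      · exact Or.inr ⟨hx, hq⟩)
    ⟨w1, h1, h1, hQ1⟩
  exact (hsub h2).2

end Pool.Agent.H43.UB
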