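import Pool.Agent.H56.UD.BDefs

/-!
# THEOREM UD, chapter B: limits along an ultrafilter (Montel)

`ul_ex`: `closedBall 0 M` is compact: `IsCompact.ultrafilter_le_nhds` for the ultrafilter `𝒰.map z`.
`um`: for `u ∈ S` the values are bounded: pointwise limit `G u` (`choose`; `G = 0` off `S`). Equicontinuity: `ball u r ⊆ S`, `‖g n v‖ ≤ M` there: for `v, v' ∈ ball u (r / 2)`: `‖g n v - g n v'‖ ≤ (4 M / r) ‖v - v'‖` (derivative bound `Complex.norm_deriv_le_of_forall_mem_sphere_norm_le` and the mean value inequality on the convex ball). The limit satisfies the same bound.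
Given `ε`: on a ball of radius `t`, `(4 M / r) t < ε / 3`: three `ε / 3`: `TendstoLocallyUniformlyOn` (`Metric.tendstoLocallyUniformlyOn_iff`). Differentiable: `TendstoLocallyUniformlyOn.differentiableOn`.
-/

set_option autoImplicit false

open Filter Topology Metric Set MeasureTheory

namespace Pool.Agent.H43.UB

theorem ul_ex (𝒰 : Ultrafilter ℕ) {z : ℕ → ℂ} {M : ℝ} (h : ∀ᶠ n in (𝒰 : Filter ℕ), ‖z n‖ ≤ M) :
    ∃ w : ℂ, Tendsto z (𝒰 : Filter ℕ) (𝓝 w) ∧ ‖w‖ ≤ M := by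
  obtain ⟨w, hw, hw2⟩ := (isCompact_closedBall (0 : ℂ) M).ultrafilter_le_nhds (𝒰.map z) (by
    rw [Ultrafilter.coe_map, le_principal_iff, mem_map]
    filter_upwards [h] with n hn
    show z n ∈ closedBall (0 : ℂ) M
    rwa [mem_closedBall_zero_iff])
  exact ⟨w, hw2, mem_closedBall_zero_iff.1 hw⟩

private theorem lip_of {S : Set ℂ} {g : ℂ → ℂ} {u : ℂ} {r M : ℝ} (hr : 0 < r) (hsub : ball u r ⊆ S)
    (hg : DifferentiableOn ℂ g S) (hb : ∀ v ∈ ball u r, ‖g v‖ ≤ M) :
    ∀ v ∈ ball u (r / 2), ∀ v' ∈ ball u (r / 2), ‖g v - g v'‖ ≤ M / (r / 4) * ‖v - v'‖ := by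
  intro v hv v' hv'
  have hg' : DifferentiableOn ℂ g (ball u r) := hg.mono hsub
  have h2 : ball u (r / 2) ⊆ ball u r := ball_subset_ball (by linarith)
  refine Convex.norm_image_sub_le_of_norm_deriv_le (𝕜 := ℂ) (s := ball u (r / 2)) (f := g)
    (fun w hw => hg'.differentiableAt (isOpen_ball.mem_nhds (h2 hw))) (fun w hw => ?_)
    (convex_ball _ _) hv' hv
  have hsub2 : closedBall w (r / 4) ⊆ ball u r := by
    intro y hy
    rw [mem_ball]
    calc dist y u ≤ dist y w + dist w u := dist_triangle _ _ _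
      _ < r / 4 + r / 2 := add_lt_add_of_le_of_lt (mem_closedBall.1 hy) (mem_ball.1 hw)
      _ ≤ r := by linarith
  refine Complex.norm_deriv_le_of_forall_mem_sphere_norm_le (by positivity) ?_ fun y hy => ?_
  · exact DifferentiableOn.diffContOnCl_ball (hg'.mono hsub2) le_rfl
  · exact hb y (hsub2 (sphere_subset_closedBall hy))

/-- Montel's theorem along an ultrafilter -/
theorem um (𝒰 : Ultrafilter ℕ) {S : Set ℂ} (hS : IsOpen S) {g : ℕ → ℂ → ℂ}
    (hg : ∀ᶠ n in (𝒰 : Filter ℕ), DifferentiableOn ℂ (g n) S)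
    (hb : ∀ u ∈ S, ∃ r M : ℝ, 0 < r ∧ ball u r ⊆ S ∧ ∀ᶠ n in (𝒰 : Filter ℕ), ∀ v ∈ ball u r, ‖g n v‖ ≤ M) :
    ∃ G : ℂ → ℂ, DifferentiableOn ℂ G S ∧ TendstoLocallyUniformlyOn g G (𝒰 : Filter ℕ) S := by
  have hex : ∀ u, ∃ w, u ∈ S → Tendsto (fun n => g n u) (𝒰 : Filter ℕ) (𝓝 w) := by
    intro u
    by_cases hu : u ∈ S
    · obtain ⟨r, M, hr, -, h1⟩ := hb u hu
      obtain ⟨w, hw, -⟩ := ul_ex 𝒰 (z := fun n => g n u) (M := M) (by
        filter_upwards [h1] with n hn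
        exact hn u (mem_ball_self hr))
      exact ⟨w, fun _ => hw⟩
    · exact ⟨0, fun h => absurd h hu⟩
  choose G hG using hex
  have hT : TendstoLocallyUniformlyOn g G (𝒰 : Filter ℕ) S := by
    rw [Metric.tendstoLocallyUniformlyOn_iff]
    intro ε hε u hu
    obtain ⟨r, M, hr, hsub, h1⟩ := hb u hu
    obtain ⟨K, hK⟩ : ∃ K : ℝ, K = max M 1 / (r / 4) := ⟨_, rfl⟩
    have hM0 : 0 < max M 1 := lt_of_lt_of_le one_pos (le_max_right _ _)
    have hK0 : 0 < K := by
      rw [hK]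
      positivity
    have hL : ∀ᶠ n in (𝒰 : Filter ℕ), ∀ v ∈ ball u (r / 2), ∀ v' ∈ ball u (r / 2),
        ‖g n v - g n v'‖ ≤ K * ‖v - v'‖ := by
      filter_upwards [h1, hg] with n hn hgn
      rw [hK]
      exact lip_of hr hsub hgn fun v hv => (hn v hv).trans (le_max_left _ _)
    have hin : ∀ v ∈ ball u (r / 2), v ∈ S := fun v hv =>
      hsub (ball_subset_ball (by linarith) hv)
    have hGL : ∀ v ∈ ball u (r / 2), ‖G v - G u‖ ≤ K * ‖v - u‖ := by
      intro v hv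
      refine le_of_tendsto (((hG v (hin v hv)).sub (hG u hu)).norm) ?_
      filter_upwards [hL] with n hn
      exact hn v hv u (mem_ball_self (by positivity))
    have hev : ∀ᶠ n in (𝒰 : Filter ℕ), dist (g n u) (G u) < ε / 4 :=
      (Metric.tendsto_nhds.1 (hG u hu)) (ε / 4) (by positivity)
    refine ⟨ball u (min (r / 2) (ε / (4 * K))), mem_nhdsWithin_of_mem_nhds
      (ball_mem_nhds _ (lt_min (by positivity) (by positivity))), ?_⟩
    filter_upwards [hL, hev] with n hn hnu v hv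
    have hv1 : v ∈ ball u (r / 2) := ball_subset_ball (min_le_left _ _) hv
    have hv2 : ‖v - u‖ < ε / (4 * K) := by
      rw [← dist_eq_norm]
      exact (mem_ball.1 hv).trans_le (min_le_right _ _)
    have hv3 : K * ‖v - u‖ < ε / 4 := by
      rw [lt_div_iff₀ (by positivity)] at hv2
      nlinarith
    have a1 := hGL v hv1
    have a2 := hn v hv1 u (mem_ball_self (by positivity))
    rw [dist_eq_norm] at hnu ⊢
    have a3 : G v - g n v = (G v - G u) - (g n u - G u) - (g n v - g n u) := by ring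
    rw [a3]
    calc ‖(G v - G u) - (g n u - G u) - (g n v - g n u)‖
        ≤ ‖G v - G u‖ + ‖g n u - G u‖ + ‖g n v - g n u‖ :=
          (norm_sub_le _ _).trans (add_le_add (norm_sub_le _ _) le_rfl)
      _ < ε := by linarith
  exact ⟨G, hT.differentiableOn hg hS, hT⟩

/-- locally uniform limits are bounded on compact sets -/
theorem um_bd (𝒰 : Ultrafilter ℕ) {S K : Set ℂ} {g : ℕ → ℂ → ℂ} {G : ℂ → ℂ} (hG : ContinuousOn G S)
    (h : TendstoLocallyUniformlyOn g G (𝒰 : Filter ℕ) S) (hK : IsCompact K) (hKS : K ⊆ S) :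
    ∃ M : ℝ, ∀ᶠ n in (𝒰 : Filter ℕ), ∀ u ∈ K, ‖g n u‖ ≤ M := by
  obtain ⟨M0, hM0⟩ := hK.exists_bound_of_continuousOn (hG.mono hKS)
  have h1 : TendstoUniformlyOn g G (𝒰 : Filter ℕ) K :=
    (tendstoLocallyUniformlyOn_iff_tendstoUniformlyOn_of_compact hK).1 (h.mono hKS)
  have h2 := Metric.tendstoUniformlyOn_iff.1 h1 1 one_pos
  refine ⟨M0 + 1, ?_⟩
  filter_upwards [h2] with n hn u hu
  have h3 := hn u hu
  rw [dist_eq_norm] at h3
  have h4 : g n u = G u - (G u - g n u) := by ring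
  rw [h4]
  exact (norm_sub_le _ _).trans (add_le_add (hM0 u hu) h3.le)

end Pool.Agent.H43.UB
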