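import Pool.Agent.H43.UB.CLT

/-!
# THEOREM UD, chapter B: pull backs in the limit

`ext_fin`. `ph_gap`: `x n → x0`, `ψ n → ψ0`. Let `q` be a lift of `ψ0` in `Sc` which closes after one turn. `cl_lift` at some `ζ0 ∈ Qc θ` with `s = q ζ0`: `Q n → Q0`, `Q0 ζ0 = q ζ0`, so `Q0 = q` on `Qc θ` (`fh_lift_eq`, `col_exp`). `cls_down`: `Cls θ 1 (Q n)` and (`m = 2`: `q (ζ + 4 π i) = q (ζ + 2 π i) = q ζ`; the middle point is in the convex set `Qc θ`) `Cls θ 2 (Q n)` for almost all `n`.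
`h.pb` (bound `max (‖x0‖ + 1) r`): `φ n`, `β n` with `PU`, `β n v = v`: `F n (φ n v) = ψ n v`, `φ n` injective. `Q n ζ = φ n (exp ζ)`: `Q n ζ = φ n v`, apply `F n`: `ψ n (exp ζ) = ψ n v`.
BOUNDED: for `θ < ρ < 1` the circle `‖u‖ = ρ` is the image under `exp` of the compact segment `{log ρ + i y | |y| ≤ π}` in `Qc θ`, `Q n` is bounded there (`um_bd`), so `φ n` on `ball 0 ρ` (maximum principle). `um`: `φ n → φ` on `ball 0 1`; `φ (exp ζ) = q ζ`; `deriv φ ≠ 0` somewhere (`q` is not constant: `Fh (q ζ) = ψ0 (exp ζ)`): `uh_inj`.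
`Gd (ψ0 u) (φ u)` if `ψ0 u ∉ Ph`: `z n = φ n u`: `F n (z n) = ψ n u → ψ0 u`, `deriv (F n) (z n) = deriv (ψ n) u / deriv (φ n) u → deriv ψ0 u / deriv φ u ≠ 0` (`uh_der`). In `Sc`: `hcon` (the set `{v ∈ ball 0 1 | ψ0 v ∉ Ph}` is preconnected), contains `exp ζ0`; continuous image under `φ`; `sc_of`.
-/

set_option autoImplicit false

open Filter Topology Metric Set MeasureTheory

namespace Pool.Agent.H43.UB

open Pool.Agent.H56.UD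

variable {𝒰 : Ultrafilter ℕ} {F : ℕ → ℂ → ℂ} {D P : ℕ → Set ℂ} {θ C : ℝ}

private theorem ext_exp (hθ0 : 0 < θ) {ζ : ℂ} (hζ : ζ ∈ Qc θ) :
    θ < ‖Complex.exp ζ‖ ∧ ‖Complex.exp ζ‖ < 1 := by
  rw [Complex.norm_exp]
  refine ⟨?_, ?_⟩
  · rw [← Real.log_lt_iff_lt_exp hθ0]
    exact hζ.1
  · rw [Real.exp_lt_one_iff]
    exact hζ.2.1

private theorem ext_two {Q : ℂ → ℂ} (hc : Cls θ 1 Q) : Cls θ 2 Q := by
  intro ζ hζ hζ2
  have hz : ∀ m : ℕ, (ζ + m * (2 * Real.pi * Complex.I)).re = ζ.re ∧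
      (ζ + m * (2 * Real.pi * Complex.I)).im = ζ.im + m * (2 * Real.pi) := by
    intro m
    constructor
    · simp
    · simp
  have h1 : ζ + (1 : ℕ) * (2 * Real.pi * Complex.I) ∈ Qc θ := by
    have h2 := hz 2
    have h3 := hz 1
    have h4 := abs_lt.1 hζ.2.2
    have h5 := abs_lt.1 hζ2.2.2
    rw [h2.2] at h5
    push_cast at h5
    refine ⟨?_, ?_, ?_⟩
    · rw [h3.1]
      exact hζ.1
    · rw [h3.1]
      exact hζ.2.1
    · rw [h3.2, abs_lt]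
      push_cast
      have := Real.pi_pos
      constructor <;> linarith
  have h2 : ζ + (2 : ℕ) * (2 * Real.pi * Complex.I) =
      ζ + (1 : ℕ) * (2 * Real.pi * Complex.I) + (1 : ℕ) * (2 * Real.pi * Complex.I) := by
    push_cast
    ring
  rw [h2, hc _ h1 (h2 ▸ hζ2), hc ζ hζ h1]

/-- bounds on the circle give bounds on the disc -/
private theorem ext_max {φ : ℂ → ℂ} (hφ : DifferentiableOn ℂ φ (ball 0 1)) {ρ M : ℝ} (hρ : 0 < ρ)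
    (hρ1 : ρ < 1) (hb : ∀ v : ℂ, ‖v‖ = ρ → ‖φ v‖ ≤ M) : ∀ v ∈ ball (0 : ℂ) ρ, ‖φ v‖ ≤ M := by
  intro v hv
  refine Complex.norm_le_of_forall_mem_frontier_norm_le (U := ball (0 : ℂ) ρ) isBounded_ball ?_ ?_
    (subset_closure hv)
  · refine DifferentiableOn.diffContOnCl (hφ.mono ?_)
    rw [closure_ball _ hρ.ne']
    exact closedBall_subset_ball hρ1
  · intro z hz
    rw [frontier_ball _ hρ.ne', mem_sphere_zero_iff_norm] at hz
    exact hb z hz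

/-- `hcon`: the complement of `Ph` in a gap disc is connected -/
theorem ext_fin (h : LS 𝒰 F D P θ C)
    (hcon : ∀ (x : ℂ) (r : ℝ) (ψ : ℂ → ℂ), x ∈ Ph 𝒰 P → 0 < r → GD θ C (Ph 𝒰 P) x r ψ →
      IsPreconnected {v | v ∈ ball (0 : ℂ) 1 ∧ ψ v ∉ Ph 𝒰 P})
    (sb : ℂ) {x0 : ℂ} (hx0 : x0 ∈ Ph 𝒰 P) {r : ℝ} (hr : 0 < r) :
    ∃ (x : ℕ → ℂ) (ψ : ℕ → ℂ → ℂ) (ψ0 : ℂ → ℂ), Tendsto x (𝒰 : Filter ℕ) (𝓝 x0) ∧
      (∀ᶠ n in (𝒰 : Filter ℕ), GD θ C (P n) (x n) r (ψ n)) ∧ GD θ C (Ph 𝒰 P) x0 r ψ0 ∧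
      TendstoLocallyUniformlyOn ψ ψ0 (𝒰 : Filter ℕ) (ball 0 1) ∧
      ∀ q : ℂ → ℂ, Lf (Fh 𝒰 F D P) (Sc 𝒰 F D P sb) θ ψ0 q → Cls θ 1 q →
        ∃ (φ : ℕ → ℂ → ℂ) (φ0 : ℂ → ℂ), (∀ᶠ n in (𝒰 : Filter ℕ), DifferentiableOn ℂ (φ n) (ball 0 1) ∧
          ∀ v ∈ ball (0 : ℂ) 1, φ n v ∈ D n ∧ F n (φ n v) = ψ n v) ∧ DifferentiableOn ℂ φ0 (ball 0 1) ∧
          TendstoLocallyUniformlyOn φ φ0 (𝒰 : Filter ℕ) (ball 0 1) ∧ InjOn φ0 (ball 0 1) ∧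
          (∀ ζ ∈ Qc θ, φ0 (Complex.exp ζ) = q ζ) ∧
          ∀ v ∈ ball (0 : ℂ) 1, ψ0 v ∉ Ph 𝒰 P → φ0 v ∈ Sc 𝒰 F D P sb ∧ Fh 𝒰 F D P (φ0 v) = ψ0 v := by
  obtain ⟨x, ψ, ψ0, hxP, hxt, hψ, hg, hψ0⟩ := ph_gap h hx0 hr
  refine ⟨x, ψ, ψ0, hxt, hψ, hg, hψ0, fun q hq hc => ?_⟩
  have hθ0 := h.θ0
  have hθ1 := h.θ1
  have hlog : Real.log θ < 0 := Real.log_neg hθ0 hθ1
  have hce := col_exp hθ0 hg
  -- a point of the collar
  obtain ⟨ζ0, hζ0⟩ : ∃ ζ0 : ℂ, ζ0 ∈ Qc θ := by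
    refine ⟨((Real.log θ / 2 : ℝ) : ℂ), ?_, ?_, ?_⟩
    · rw [Complex.ofReal_re]
      linarith
    · rw [Complex.ofReal_re]
      linarith
    · rw [Complex.ofReal_im, abs_zero]
      have := Real.pi_pos
      linarith
  have hqv : ∀ ζ ∈ Qc θ, q ζ ∈ Sg 𝒰 F D P ∧ Fh 𝒰 F D P (q ζ) = ψ0 (Complex.exp ζ) := fun ζ hζ =>
    ⟨sc_sub sb (hq.val ζ hζ).1, (hq.val ζ hζ).2⟩
  obtain ⟨Q, Q0, hQ, hQl, hQζ, hQ0⟩ := cl_lift h hxt hψ hg hψ0 (sb := sb) hζ0 (hq.val ζ0 hζ0).1 (hq.val ζ0 hζ0).2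
  have heq : EqOn Q0 q (Qc θ) := fh_lift_eq h qc_open qc_convex.isPreconnected hQ0.diff hq.diff
    (fun ζ hζ => ⟨sc_sub sb (hQ0.val ζ hζ).1, (hQ0.val ζ hζ).2⟩) hqv (fun ζ hζ => (hce.2 ζ hζ).1) hζ0 hQζ
  have hc1 : Cls θ 1 Q0 := by
    intro ζ hζ hζ1
    rw [heq hζ1, heq hζ]
    exact hc ζ hζ hζ1
  have hc2 : Cls θ 2 Q0 := ext_two hc1
  have hd1 := cls_down h hxt hψ hQ hQ0 hQl hc1
  have hd2 := cls_down h hxt hψ hQ hQ0 hQl hc2
  -- the pull backs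
  have hxn : ∀ᶠ n in (𝒰 : Filter ℕ), ‖x n‖ ≤ max (‖x0‖ + 1) r := by
    filter_upwards [Metric.tendsto_nhds.1 hxt 1 one_pos] with n hn
    rw [dist_eq_norm] at hn
    have h2 := norm_add_le (x n - x0) x0
    rw [sub_add_cancel] at h2
    exact le_trans (by linarith) (le_max_left _ _)
  have hex : ∀ᶠ n in (𝒰 : Filter ℕ), ∃ φ : ℂ → ℂ, DifferentiableOn ℂ φ (ball 0 1) ∧ InjOn φ (ball 0 1) ∧
      (∀ v ∈ ball (0 : ℂ) 1, φ v ∈ D n ∧ F n (φ v) = ψ n v) ∧ Q n '' Qc θ ⊆ φ '' ball 0 1 := by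
    filter_upwards [h.pb (max (‖x0‖ + 1) r), hxn, hψ, hQ, hd1, hd2] with n hn hn1 hn2 hn3 hn4 hn5
    obtain ⟨φ, β, h1, h2, h3⟩ := hn (x n) r (ψ n) (Q n) (hxP n) hn1 hr (le_max_right _ _) hn2 hn3 hn5
    refine ⟨φ, h1.diff, h1.inj, fun v hv => ?_, h2⟩
    have h4 := h1.val v hv
    rw [h3 hn4 v] at h4
    exact h4
  obtain ⟨φ, hφ⟩ := hex.choice
  have hφd : ∀ᶠ n in (𝒰 : Filter ℕ), DifferentiableOn ℂ (φ n) (ball 0 1) := by
    filter_upwards [hφ] with n hn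
    exact hn.1
  have hkey : ∀ᶠ n in (𝒰 : Filter ℕ), ∀ ζ ∈ Qc θ, φ n (Complex.exp ζ) = Q n ζ := by
    filter_upwards [hφ, hψ, hQ] with n hn hn1 hn2 ζ hζ
    obtain ⟨v, hv, hve⟩ := hn.2.2.2 ⟨ζ, hζ, rfl⟩
    have h1 := (hn.2.2.1 v hv).2
    rw [hve, (hn2.val ζ hζ).2] at h1
    have h2 : Complex.exp ζ ∈ ball (0 : ℂ) 1 := mem_ball_zero_iff.2 (ext_exp hθ0 hζ).2
    rw [hn1.inj h2 hv h1]
    exact hve
  -- bounds
  have hbd : ∀ u ∈ ball (0 : ℂ) 1, ∃ r M : ℝ, 0 < r ∧ ball u r ⊆ ball 0 1 ∧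
      ∀ᶠ n in (𝒰 : Filter ℕ), ∀ v ∈ ball u r, ‖φ n v‖ ≤ M := by
    intro u hu
    rw [mem_ball_zero_iff] at hu
    obtain ⟨ρ, hρ⟩ : ∃ ρ : ℝ, ρ = (1 + max θ ‖u‖) / 2 := ⟨_, rfl⟩
    have h1 : max θ ‖u‖ < 1 := max_lt hθ1 hu
    have h2 : θ ≤ max θ ‖u‖ := le_max_left _ _
    have h3 : ‖u‖ ≤ max θ ‖u‖ := le_max_right _ _
    have hρθ : θ < ρ := by linarith
    have hρu : ‖u‖ < ρ := by linarith
    have hρ1 : ρ < 1 := by linarith
    have hρ0 : 0 < ρ := by linarith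
    obtain ⟨M, hM⟩ := um_bd 𝒰 (S := Qc θ)
      (K := (fun y : ℝ => ((Real.log ρ : ℝ) : ℂ) + (y : ℂ) * Complex.I) '' Icc (-Real.pi) Real.pi)
      hQ0.diff.continuousOn hQl (isCompact_Icc.image (by fun_prop)) (by
        rintro _ ⟨y, hy, rfl⟩
        have h4 : (((Real.log ρ : ℝ) : ℂ) + (y : ℂ) * Complex.I).re = Real.log ρ := by simp
        have h5 : (((Real.log ρ : ℝ) : ℂ) + (y : ℂ) * Complex.I).im = y := by simp
        refine ⟨?_, ?_, ?_⟩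
        · rw [h4]
          exact Real.log_lt_log hθ0 hρθ
        · rw [h4]
          exact Real.log_neg hρ0 hρ1
        · rw [h5, abs_lt]
          have := Real.pi_pos
          constructor <;> linarith [hy.1, hy.2])
    refine ⟨ρ - ‖u‖, M, by linarith, ?_, ?_⟩
    · intro v hv
      rw [mem_ball, dist_eq_norm] at hv
      rw [mem_ball_zero_iff]
      have h4 := norm_add_le (v - u) u
      rw [sub_add_cancel] at h4
      linarith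
    · filter_upwards [hM, hφd, hkey] with n hn1 hn2 hn3 v hv
      refine ext_max hn2 hρ0 hρ1 (fun z hz => ?_) v ?_
      · have hz0 : z ≠ 0 := by
          rintro rfl
          rw [norm_zero] at hz
          linarith
        have h4 : Complex.log z ∈
            (fun y : ℝ => ((Real.log ρ : ℝ) : ℂ) + (y : ℂ) * Complex.I) '' Icc (-Real.pi) Real.pi := by
          refine ⟨z.arg, ⟨(Complex.neg_pi_lt_arg z).le, Complex.arg_le_pi z⟩, ?_⟩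
          unfold Complex.log
          rw [hz]
        have h5 : Complex.log z ∈ Qc θ := by
          have h6 : (Complex.log z).re = Real.log ρ := by rw [Complex.log_re, hz]
          refine ⟨?_, ?_, ?_⟩
          · rw [h6]
            exact Real.log_lt_log hθ0 hρθ
          · rw [h6]
            exact Real.log_neg hρ0 hρ1
          · rw [Complex.log_im, abs_lt]
            have := Real.pi_pos
            constructor <;> linarith [Complex.neg_pi_lt_arg z, Complex.arg_le_pi z]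
        have h6 := hn3 _ h5
        rw [Complex.exp_log hz0] at h6
        rw [h6]
        exact hn1 _ h4
      · rw [mem_ball, dist_eq_norm] at hv
        rw [mem_ball_zero_iff]
        have h4 := norm_add_le (v - u) u
        rw [sub_add_cancel] at h4
        linarith
  obtain ⟨φ0, hφ0d, hlim⟩ := um 𝒰 isOpen_ball hφd hbd
  have hexp : ∀ ζ ∈ Qc θ, φ0 (Complex.exp ζ) = q ζ := by
    intro ζ hζ
    have h2 : Complex.exp ζ ∈ ball (0 : ℂ) 1 := mem_ball_zero_iff.2 (ext_exp hθ0 hζ).2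
    have h3 : Tendsto (fun n => Q n ζ) (𝒰 : Filter ℕ) (𝓝 (q ζ)) := by
      rw [← heq hζ]
      exact hQl.tendsto_at hζ
    have h4 : Tendsto (fun n => φ n (Complex.exp ζ)) (𝒰 : Filter ℕ) (𝓝 (q ζ)) := by
      refine h3.congr' ?_
      filter_upwards [hkey] with n hn
      exact (hn ζ hζ).symm
    exact tendsto_nhds_unique (hlim.tendsto_at h2) h4
  have hz0 : Complex.exp ζ0 ∈ ball (0 : ℂ) 1 := mem_ball_zero_iff.2 (ext_exp hθ0 hζ0).2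
  have hne : deriv φ0 (Complex.exp ζ0) ≠ 0 := by
    intro h0
    have h1 : HasDerivAt φ0 0 (Complex.exp ζ0) := by
      rw [← h0]
      exact (hφ0d.differentiableAt (isOpen_ball.mem_nhds hz0)).hasDerivAt
    have h2 : HasDerivAt (fun ζ => φ0 (Complex.exp ζ)) (0 * Complex.exp ζ0) ζ0 :=
      h1.comp ζ0 (Complex.hasDerivAt_exp ζ0)
    rw [zero_mul] at h2
    have h3 : HasDerivAt q 0 ζ0 := by
      refine h2.congr_of_eventuallyEq ?_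
      filter_upwards [qc_open.mem_nhds hζ0] with ζ hζ
      exact (hexp ζ hζ).symm
    have h4 : HasDerivAt (Fh 𝒰 F D P) (deriv (Fh 𝒰 F D P) (q ζ0)) (q ζ0) :=
      ((fh_diff h).differentiableAt ((sg_open h).mem_nhds (hqv ζ0 hζ0).1)).hasDerivAt
    have h5 := h4.comp ζ0 h3
    rw [mul_zero] at h5
    have h6 : HasDerivAt (fun ζ => ψ0 (Complex.exp ζ)) 0 ζ0 := by
      refine h5.congr_of_eventuallyEq ?_
      filter_upwards [qc_open.mem_nhds hζ0] with ζ hζ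
      exact (hqv ζ hζ).2.symm
    exact (hce.2 ζ0 hζ0).1 h6.deriv
  have hinj : InjOn φ0 (ball 0 1) := by
    refine uh_inj 𝒰 isOpen_ball (convex_ball (0 : ℂ) 1).isPreconnected hφd hlim ?_ ⟨_, hz0, hne⟩
    filter_upwards [hφ] with n hn
    exact hn.2.1
  have hlimφ : TendstoLocallyUniformlyOn (deriv ∘ φ) (deriv φ0) (𝒰 : Filter ℕ) (ball 0 1) :=
    hlim.deriv hφd isOpen_ball
  have hlimψ : TendstoLocallyUniformlyOn (deriv ∘ ψ) (deriv ψ0) (𝒰 : Filter ℕ) (ball 0 1) := by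
    refine hψ0.deriv ?_ isOpen_ball
    filter_upwards [hψ] with n hn
    exact hn.diff
  -- good points
  have hgood : ∀ v ∈ ball (0 : ℂ) 1, ψ0 v ∉ Ph 𝒰 P → Gd 𝒰 F D P (ψ0 v) (φ0 v) := by
    intro v hv hvP
    have ha := uh_der isOpen_ball hφ0d hinj hv
    have hb := uh_der isOpen_ball hg.diff hg.inj hv
    have ha' : ‖deriv φ0 v‖ ≠ 0 := norm_ne_zero_iff.2 ha
    obtain ⟨c, hcd⟩ : ∃ c : ℝ, c = ‖deriv ψ0 v‖ / ‖deriv φ0 v‖ := ⟨_, rfl⟩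
    have hc0 : 0 < c := by
      rw [hcd]
      exact div_pos (norm_pos_iff.2 hb) (norm_pos_iff.2 ha)
    have h1 : Tendsto (fun n => ‖deriv (ψ n) v‖ / ‖deriv (φ n) v‖) (𝒰 : Filter ℕ) (𝓝 c) := by
      rw [hcd]
      exact (hlimψ.tendsto_at hv).norm.div (hlimφ.tendsto_at hv).norm ha'
    have h2 : ∀ᶠ n in (𝒰 : Filter ℕ), deriv (φ n) v ≠ 0 := (hlimφ.tendsto_at hv).eventually_ne ha
    have h3 : ∀ᶠ n in (𝒰 : Filter ℕ), ‖deriv (F n) (φ n v)‖ = ‖deriv (ψ n) v‖ / ‖deriv (φ n) v‖ := by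
      filter_upwards [hφ, h2] with n hn hn2
      have h4 : HasDerivAt (F n) (deriv (F n) (φ n v)) (φ n v) :=
        ((h.Fd n).differentiableAt ((h.Do n).mem_nhds (hn.2.2.1 v hv).1)).hasDerivAt
      have h5 : HasDerivAt (φ n) (deriv (φ n) v) v :=
        (hn.1.differentiableAt (isOpen_ball.mem_nhds hv)).hasDerivAt
      have h6 := h4.comp v h5
      have h7 : HasDerivAt (ψ n) (deriv (F n) (φ n v) * deriv (φ n) v) v := by
        refine h6.congr_of_eventuallyEq ?_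
        filter_upwards [isOpen_ball.mem_nhds hv] with u hu
        exact (hn.2.2.1 u hu).2.symm
      rw [h7.deriv, norm_mul, mul_div_assoc, div_self (norm_ne_zero_iff.2 hn2), mul_one]
    have h4 : ∀ᶠ n in (𝒰 : Filter ℕ), c / 2 < ‖deriv (ψ n) v‖ / ‖deriv (φ n) v‖ :=
      h1.eventually_const_lt (by linarith)
    have h5 : ∀ᶠ n in (𝒰 : Filter ℕ), ‖deriv (ψ n) v‖ / ‖deriv (φ n) v‖ < 2 * c :=
      h1.eventually_lt_const (by linarith)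
    refine ⟨hvP, 2 / c + 2 * c, fun n => φ n v, ?_, hlim.tendsto_at hv, ?_⟩
    · filter_upwards [hφ, h3, h4, h5] with n hn hn3 hn4 hn5
      rw [← hn3] at hn4 hn5
      have h6 : 0 < 2 / c := by positivity
      refine ⟨(hn.2.2.1 v hv).1, ?_, by linarith⟩
      calc 1 = 2 / c * (c / 2) := by field_simp
        _ ≤ 2 / c * ‖deriv (F n) (φ n v)‖ := mul_le_mul_of_nonneg_left hn4.le h6.le
        _ ≤ (2 / c + 2 * c) * ‖deriv (F n) (φ n v)‖ :=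
          mul_le_mul_of_nonneg_right (by linarith) (norm_nonneg _)
    · refine (hψ0.tendsto_at hv).congr' ?_
      filter_upwards [hφ] with n hn
      exact (hn.2.2.1 v hv).2.symm
  refine ⟨φ, φ0, ?_, hφ0d, hlim, hinj, hexp, ?_⟩
  · filter_upwards [hφ] with n hn
    exact ⟨hn.1, hn.2.2.1⟩
  · have hT : IsPreconnected (φ0 '' {v | v ∈ ball (0 : ℂ) 1 ∧ ψ0 v ∉ Ph 𝒰 P}) :=
      (hcon x0 r ψ0 hx0 hr hg).image φ0 (hφ0d.continuousOn.mono fun v hv => hv.1)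
    have hTs : φ0 '' {v | v ∈ ball (0 : ℂ) 1 ∧ ψ0 v ∉ Ph 𝒰 P} ⊆ Sg 𝒰 F D P := by
      rintro _ ⟨v, ⟨hv, hvP⟩, rfl⟩
      exact ⟨ψ0 v, hgood v hv hvP⟩
    have hTm : (φ0 '' {v | v ∈ ball (0 : ℂ) 1 ∧ ψ0 v ∉ Ph 𝒰 P} ∩ Sc 𝒰 F D P sb).Nonempty := by
      refine ⟨φ0 (Complex.exp ζ0), ⟨_, ⟨hz0, (hce.2 ζ0 hζ0).2.2⟩, rfl⟩, ?_⟩
      rw [hexp ζ0 hζ0]
      exact (hq.val ζ0 hζ0).1
    have hTS := sc_of hT hTs hTm
    intro v hv hvP
    exact ⟨hTS ⟨v, ⟨hv, hvP⟩, rfl⟩, fh_eq h (hgood v hv hvP)⟩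

end Pool.Agent.H43.UB
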