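import Pool.Agent.H43.UB.EXT

/-!
# THEOREM UD, chapter B: local branches at the finite stage

Hypotheses from the pure half: `hS`: `Sc = {s | exp ((s - c) / κ) ∉ Ph}`, `hF`: `Fh s = exp ((s - c) / κ)` there.
`loc_good` (`exp ζ ∉ Ph`): `s = κ ζ + c ∈ Sc`, `Gd (exp ζ) s` (`fh_gd`, `fh_eq`). `ε` small: `exp '' ball ζ ε ⊆ ball (exp ζ) ρ`, `closedBall (exp ζ) ρ` off `Ph` and off `P n` for almost all `n` (`ph_off`). `llm` with `S = ball ζ ε`, `Hn n = H = exp`: `Q n → Q0`, `Q0 ζ = s`, `Gd (exp ζ') (Q0 ζ')`. `ζ' ↦ κ ζ' + c` is another lift of `exp` through `Fh` (`hS`, `hF`): `fh_lift_eq`.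
`loc_bad` (`x0 = exp ζ ∈ Ph`, `x0 ≠ 0`): a holomorphic logarithm `Lg` on `ball x0 (‖x0‖)` with `exp (Lg w) = w`, `Lg x0 = ζ` (`Lg w = ζ + Complex.log (w / x0)`; `w / x0` in the right half plane). `r = ‖x0‖ / 2` (or smaller). `ext_fin` at `(x0, r)`: `ψ0 '' ball 0 1 ⊆ ball x0 r`. `q ζ' = κ Lg (ψ0 (exp ζ')) + c`: differentiable on `Qc θ`, `exp ((q ζ' - c) / κ) = ψ0 (exp ζ') ∉ Ph`, so `Lf Fh Sc θ ψ0 q` (`hS`, `hF`); `Cls θ 1 q` since `exp (ζ' + 2 π i) = exp ζ'`. So `φ n → φ0`, `φ0 v = κ Lg (ψ0 v) + c` on the collar, so on the unit disc (identity theorem).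
`G n ζ' = φ n (ψ n ⁻¹ (exp ζ'))` for `ζ' ∈ ball ζ ε`, `exp '' ball ζ ε ⊆ ball x0 (r / (2 C)) ⊆ ball (x n) (r / C) ⊆ ψ n '' ball 0 θ` for almost all `n`. Holomorphic (inverse of an injective holomorphic function), values in `D n`, `F n (G n ζ') = exp ζ'`. LIMIT: `v n = ψ n ⁻¹ (exp ζ') → ψ0 ⁻¹ (exp ζ')` locally uniformly: the functions `V n = ψ n ⁻¹ ∘ exp` are bounded by `θ`, `um` gives a limit `V` with `ψ0 (V ζ') = exp ζ'`; so `G n → φ0 ∘ V = κ Lg (exp ζ') + c = κ ζ' + c` for small `ε`.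
-/

set_option autoImplicit false

open Filter Topology Metric Set MeasureTheory

namespace Pool.Agent.H43.UB

open Pool.Agent.H56.UD

variable {𝒰 : Ultrafilter ℕ} {F : ℕ → ℂ → ℂ} {D P : ℕ → Set ℂ} {θ C : ℝ}

private theorem tlu_const (H : ℂ → ℂ) (p : Filter ℕ) (S : Set ℂ) :
    TendstoLocallyUniformlyOn (fun _ : ℕ => H) H p S := by
  rw [Metric.tendstoLocallyUniformlyOn_iff]
  intro ε hε u hu
  exact ⟨S, self_mem_nhdsWithin, Eventually.of_forall fun n v hv => by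
    rw [dist_self]
    exact hε⟩

/-- the inverse of an injective holomorphic function is holomorphic -/
private theorem inv_hol {S : Set ℂ} (hS : IsOpen S) {g : ℂ → ℂ} (hg : DifferentiableOn ℂ g S) (hi : InjOn g S) {w : ℂ}
    (hw : w ∈ g '' S) : DifferentiableAt ℂ (Function.invFunOn g S) w := by
  have hkg : ∀ y ∈ S, Function.invFunOn g S (g y) = y := by
    intro y hy
    have h1 : g y ∈ g '' S := mem_image_of_mem g hy
    exact hi (Function.invFunOn_mem h1) hy (Function.invFunOn_eq h1)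
  obtain ⟨y, hy, rfl⟩ := hw
  have h1 : HasStrictDerivAt g (deriv g y) y := (hg.analyticAt (hS.mem_nhds hy)).hasStrictDerivAt
  have h2 : deriv g y ≠ 0 := uh_der hS hg hi hy
  have h3 : ∀ᶠ u in 𝓝 y, Function.invFunOn g S (g u) = u := by
    filter_upwards [hS.mem_nhds hy] with u hu
    exact hkg u hu
  exact (h1.to_local_left_inverse h2 h3).hasDerivAt.differentiableAt

/-- a local logarithm -/
private theorem lg_ex {x0 ζ : ℂ} (h : Complex.exp ζ = x0) : ∃ Lg : ℂ → ℂ, DifferentiableOn ℂ Lg (ball x0 ‖x0‖) ∧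
    (∀ w ∈ ball x0 ‖x0‖, Complex.exp (Lg w) = w) ∧ ∀ u, ‖u - ζ‖ < 1 → Lg (Complex.exp u) = u := by
  have hx0 : x0 ≠ 0 := by
    rw [← h]
    exact Complex.exp_ne_zero _
  have hsl : ∀ w ∈ ball x0 ‖x0‖, w / x0 ∈ Complex.slitPlane := by
    intro w hw
    rw [mem_ball, dist_eq_norm] at hw
    left
    have h1 : ‖w / x0 - 1‖ < 1 := by
      have h2 : w / x0 - 1 = (w - x0) / x0 := by
        rw [sub_div, div_self hx0]
      rw [h2, norm_div, div_lt_one (norm_pos_iff.2 hx0)]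
      exact hw
    have h2 := Complex.abs_re_le_norm (w / x0 - 1)
    have h3 := (abs_lt.1 (h2.trans_lt h1)).1
    rw [Complex.sub_re, Complex.one_re] at h3
    linarith
  refine ⟨fun w => ζ + Complex.log (w / x0), ?_, ?_, ?_⟩
  · intro w hw
    have h1 : DifferentiableAt ℂ (fun w => ζ + Complex.log (w / x0)) w :=
      (differentiableAt_const ζ).add ((differentiableAt_id.div_const x0).clog (hsl w hw))
    exact h1.differentiableWithinAt
  · intro w hw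
    have h1 : w / x0 ≠ 0 := Complex.slitPlane_ne_zero (hsl w hw)
    show Complex.exp (ζ + Complex.log (w / x0)) = w
    rw [Complex.exp_add, Complex.exp_log h1, h]
    exact mul_div_cancel₀ w hx0
  · intro u hu
    show ζ + Complex.log (Complex.exp u / x0) = u
    have h1 := (Complex.abs_im_le_norm (u - ζ)).trans_lt hu
    have h2 := abs_lt.1 h1
    have h3 := Real.pi_gt_three
    rw [← h, ← Complex.exp_sub, Complex.log_exp (by linarith [h2.1]) (by linarith [h2.2])]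
    ring

private theorem lin_form {κ : ℂ} (hκ : κ ≠ 0) (c u : ℂ) : (κ * u + c - c) / κ = u := by
  rw [add_sub_cancel_right, mul_div_cancel_left₀ _ hκ]

private theorem lin_sc {sb κ c : ℂ} (hκ : κ ≠ 0)
    (hS : Sc 𝒰 F D P sb = {s | Complex.exp ((s - c) / κ) ∉ Ph 𝒰 P})
    (hF : ∀ s ∈ Sc 𝒰 F D P sb, Fh 𝒰 F D P s = Complex.exp ((s - c) / κ)) {u : ℂ} (hu : Complex.exp u ∉ Ph 𝒰 P) :
    κ * u + c ∈ Sc 𝒰 F D P sb ∧ Fh 𝒰 F D P (κ * u + c) = Complex.exp u := by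
  have h1 : κ * u + c ∈ Sc 𝒰 F D P sb := by
    rw [hS]
    show Complex.exp ((κ * u + c - c) / κ) ∉ Ph 𝒰 P
    rwa [lin_form hκ]
  refine ⟨h1, ?_⟩
  rw [hF _ h1, lin_form hκ]

private theorem exp_near (ζ : ℂ) {ρ : ℝ} (hρ : 0 < ρ) :
    ∃ ε : ℝ, 0 < ε ∧ ε ≤ 1 ∧ ∀ u ∈ ball ζ ε, Complex.exp u ∈ ball (Complex.exp ζ) ρ := by
  have h1 : Complex.exp ⁻¹' (ball (Complex.exp ζ) ρ) ∈ 𝓝 ζ :=
    Complex.continuous_exp.continuousAt (ball_mem_nhds _ hρ)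
  obtain ⟨ε, hε, h2⟩ := Metric.mem_nhds_iff.1 h1
  exact ⟨min ε 1, lt_min hε one_pos, min_le_right _ _, fun u hu => h2 (ball_subset_ball (min_le_left _ _) hu)⟩

theorem loc_good (h : LS 𝒰 F D P θ C) {sb κ c : ℂ} (hκ : κ ≠ 0) (hS : Sc 𝒰 F D P sb = {s | Complex.exp ((s - c) / κ) ∉ Ph 𝒰 P})
    (hF : ∀ s ∈ Sc 𝒰 F D P sb, Fh 𝒰 F D P s = Complex.exp ((s - c) / κ)) {ζ : ℂ} (hζ : Complex.exp ζ ∉ Ph 𝒰 P) :
    ∃ (ε : ℝ) (G : ℕ → ℂ → ℂ), 0 < ε ∧ (∀ᶠ n in (𝒰 : Filter ℕ), DifferentiableOn ℂ (G n) (ball ζ ε) ∧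
      ∀ u ∈ ball ζ ε, G n u ∈ D n ∧ F n (G n u) = Complex.exp u) ∧
      TendstoLocallyUniformlyOn G (fun u => κ * u + c) (𝒰 : Filter ℕ) (ball ζ ε) := by
  have hsG : Gd 𝒰 F D P (Complex.exp ζ) (κ * ζ + c) := by
    have h1 := fh_gd (sc_sub sb (lin_sc hκ hS hF hζ).1)
    rwa [(lin_sc hκ hS hF hζ).2] at h1
  have hcl : IsClosed (Ph 𝒰 P) := ph_closed
  obtain ⟨ρ, hρ, hball⟩ := Metric.nhds_basis_closedBall.mem_iff.1 (hcl.isOpen_compl.mem_nhds hζ)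
  have hdis : Disjoint (closedBall (Complex.exp ζ) ρ) (Ph 𝒰 P) := Set.disjoint_left.2 fun u hu hu2 => hball hu hu2
  have hoff := ph_off (𝒰 := 𝒰) (P := P) (isCompact_closedBall _ _) hdis
  obtain ⟨ε, hε, hε1, hεs⟩ := exp_near ζ hρ
  have e1 : ∀ᶠ n in (𝒰 : Filter ℕ), DifferentiableOn ℂ ((fun _ : ℕ => Complex.exp) n) (ball ζ ε) ∧
      ∀ u ∈ ball ζ ε, deriv ((fun _ : ℕ => Complex.exp) n) u ≠ 0 ∧
        ‖(fun _ : ℕ => Complex.exp) n u‖ < ‖Complex.exp ζ‖ + ρ ∧ (fun _ : ℕ => Complex.exp) n u ∉ P n := by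
    filter_upwards [hoff] with n hn
    refine ⟨Complex.differentiable_exp.differentiableOn, fun u hu => ⟨?_, ?_, ?_⟩⟩
    · show deriv Complex.exp u ≠ 0
      rw [Complex.deriv_exp]
      exact Complex.exp_ne_zero _
    · show ‖Complex.exp u‖ < ‖Complex.exp ζ‖ + ρ
      have h1 := hεs u hu
      rw [mem_ball, dist_eq_norm] at h1
      have h2 := norm_sub_norm_le (Complex.exp u) (Complex.exp ζ)
      linarith
    · exact fun hu2 => Set.disjoint_left.1 hn (ball_subset_closedBall (hεs u hu)) hu2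
  have e2 : ∀ u ∈ ball ζ ε, Complex.exp u ∉ Ph 𝒰 P := fun u hu => hball (ball_subset_closedBall (hεs u hu))
  obtain ⟨Q, Q0, hQ1, hQ2, hQ3, hQ4, hQ5⟩ := llm h (convex_ball ζ ε) isOpen_ball (H := Complex.exp) e1
    (tlu_const _ _ _) e2 (mem_ball_self hε) hsG
  refine ⟨ε, Q, hε, hQ1, hQ3.congr_right ?_⟩
  refine fh_lift_eq h isOpen_ball (convex_ball ζ ε).isPreconnected (H := Complex.exp) hQ2 (by fun_prop)
    (fun u hu => ⟨⟨_, hQ5 u hu⟩, fh_eq h (hQ5 u hu)⟩)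
    (fun u hu => ⟨sc_sub sb (lin_sc hκ hS hF (e2 u hu)).1, (lin_sc hκ hS hF (e2 u hu)).2⟩) (fun u hu => ?_)
    (mem_ball_self hε) hQ4
  rw [Complex.deriv_exp]
  exact Complex.exp_ne_zero _

theorem loc_bad (h : LS 𝒰 F D P θ C)
    (hcon : ∀ (x : ℂ) (r : ℝ) (ψ : ℂ → ℂ), x ∈ Ph 𝒰 P → 0 < r → GD θ C (Ph 𝒰 P) x r ψ →
      IsPreconnected {v | v ∈ ball (0 : ℂ) 1 ∧ ψ v ∉ Ph 𝒰 P})
    {sb κ c : ℂ} (hκ : κ ≠ 0) (hS : Sc 𝒰 F D P sb = {s | Complex.exp ((s - c) / κ) ∉ Ph 𝒰 P})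
    (hF : ∀ s ∈ Sc 𝒰 F D P sb, Fh 𝒰 F D P s = Complex.exp ((s - c) / κ)) {ζ : ℂ} (hζ : Complex.exp ζ ∈ Ph 𝒰 P) :
    ∃ (ε : ℝ) (G : ℕ → ℂ → ℂ), 0 < ε ∧ (∀ᶠ n in (𝒰 : Filter ℕ), DifferentiableOn ℂ (G n) (ball ζ ε) ∧
      ∀ u ∈ ball ζ ε, G n u ∈ D n ∧ F n (G n u) = Complex.exp u) ∧
      TendstoLocallyUniformlyOn G (fun u => κ * u + c) (𝒰 : Filter ℕ) (ball ζ ε) := by
  obtain ⟨x0, hx0⟩ : ∃ x0, x0 = Complex.exp ζ := ⟨_, rfl⟩
  rw [← hx0] at hζ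
  have hx0n : 0 < ‖x0‖ := by
    rw [hx0]
    exact norm_pos_iff.2 (Complex.exp_ne_zero _)
  obtain ⟨Lg, hLd, hLe, hLu⟩ := lg_ex hx0.symm
  obtain ⟨r, hr⟩ : ∃ r : ℝ, r = ‖x0‖ / 2 := ⟨_, rfl⟩
  have hr0 : 0 < r := by
    rw [hr]
    positivity
  have hrx : ball x0 r ⊆ ball x0 ‖x0‖ := ball_subset_ball (by linarith)
  obtain ⟨x, ψ, ψ0, hx, hψ, hg, hψψ, hext⟩ := ext_fin h hcon sb hζ hr0
  have hθ0 := h.θ0
  have hθ1 := h.θ1
  have hC1 := h.C1
  have hC0 : 0 < C := by linarith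
  have hψin : ∀ v ∈ ball (0 : ℂ) 1, ψ0 v ∈ ball x0 ‖x0‖ := fun v hv => hrx (hg.out (mem_image_of_mem _ hv))
  obtain ⟨q, hq⟩ : ∃ q : ℂ → ℂ, q = fun ζ' => κ * Lg (ψ0 (Complex.exp ζ')) + c := ⟨_, rfl⟩
  obtain ⟨hce1, hce2⟩ := col_exp hθ0 hg
  have hmaps : ∀ ζ' ∈ Qc θ, ψ0 (Complex.exp ζ') ∈ ball x0 ‖x0‖ := by
    intro ζ' hζ'
    apply hrx
    rw [mem_ball, dist_eq_norm]
    exact (hce2 ζ' hζ').2.1
  have hLf : Lf (Fh 𝒰 F D P) (Sc 𝒰 F D P sb) θ ψ0 q := by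
    refine ⟨?_, fun ζ' hζ' => ?_⟩
    · rw [hq]
      have h1 : DifferentiableOn ℂ (fun ζ' => Lg (ψ0 (Complex.exp ζ'))) (Qc θ) :=
        hLd.comp hce1 hmaps
      exact (h1.const_mul κ).add_const c
    · have h1 : Complex.exp (Lg (ψ0 (Complex.exp ζ'))) = ψ0 (Complex.exp ζ') := hLe _ (hmaps ζ' hζ')
      have h2 := lin_sc (u := Lg (ψ0 (Complex.exp ζ'))) hκ hS hF (by
        rw [h1]
        exact (hce2 ζ' hζ').2.2)
      rw [h1] at h2
      rw [hq]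
      exact h2
  have hcl1 : Cls θ 1 q := by
    intro ζ' _ _
    rw [hq]
    show κ * Lg (ψ0 (Complex.exp (ζ' + ((1 : ℕ) : ℂ) * (2 * Real.pi * Complex.I)))) + c =
      κ * Lg (ψ0 (Complex.exp ζ')) + c
    rw [Nat.cast_one, one_mul, Complex.exp_periodic]
  obtain ⟨φ, φ0, hφ, hφ0d, hφφ, -, hφq, -⟩ := hext q hLf hcl1
  -- the form of `φ0`
  have hφ0 : EqOn φ0 (fun v => κ * Lg (ψ0 v) + c) (ball 0 1) := by
    have h1 : DifferentiableOn ℂ (fun v => κ * Lg (ψ0 v) + c) (ball 0 1) := by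
      have h2 : DifferentiableOn ℂ (fun v => Lg (ψ0 v)) (ball 0 1) := hLd.comp hg.diff hψin
      exact (h2.const_mul κ).add_const c
    have h2 : ‖(((1 + θ) / 2 : ℝ) : ℂ)‖ = (1 + θ) / 2 := by
      rw [Complex.norm_real, Real.norm_eq_abs, abs_of_pos (by linarith)]
    refine (hφ0d.analyticOnNhd isOpen_ball).eqOn_of_preconnected_of_eventuallyEq (h1.analyticOnNhd isOpen_ball)
      (convex_ball _ _).isPreconnected (z₀ := (((1 + θ) / 2 : ℝ) : ℂ)) ?_ ?_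
    · rw [mem_ball_zero_iff, h2]
      linarith
    · have h3 : IsOpen {v : ℂ | θ < ‖v‖ ∧ ‖v‖ < 1} :=
        (isOpen_lt continuous_const continuous_norm).inter (isOpen_lt continuous_norm continuous_const)
      have h4 : (((1 + θ) / 2 : ℝ) : ℂ) ∈ {v : ℂ | θ < ‖v‖ ∧ ‖v‖ < 1} := by
        constructor
        · rw [h2]
          linarith
        · rw [h2]
          linarith
      filter_upwards [h3.mem_nhds h4] with v hv
      obtain ⟨hv1, hv2⟩ := hv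
      have hv0 : v ≠ 0 := by
        rintro rfl
        rw [norm_zero] at hv1
        linarith
      have h5 : Complex.log v ∈ Qc θ := by
        refine ⟨?_, ?_, ?_⟩
        · rw [Complex.log_re]
          exact Real.log_lt_log hθ0 hv1
        · rw [Complex.log_re]
          exact Real.log_neg (by linarith) hv2
        · rw [Complex.log_im]
          have h6 := Complex.abs_arg_le_pi v
          have h7 := Real.pi_pos
          linarith
      have h6 := hφq _ h5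
      rw [hq] at h6
      simp only [Complex.exp_log hv0] at h6
      exact h6
  -- the radius
  have hrC : 0 < r / (2 * C) := by positivity
  obtain ⟨ε, hε, hε1, hεs⟩ := exp_near ζ hrC
  rw [← hx0] at hεs
  obtain ⟨V, hV⟩ : ∃ V : ℕ → ℂ → ℂ, V = fun n u => Function.invFunOn (ψ n) (ball 0 1) (Complex.exp u) := ⟨_, rfl⟩
  have hVn : ∀ᶠ n in (𝒰 : Filter ℕ), DifferentiableOn ℂ (V n) (ball ζ ε) ∧
      ∀ u ∈ ball ζ ε, ‖V n u‖ < θ ∧ ψ n (V n u) = Complex.exp u := by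
    filter_upwards [hψ, Metric.tendsto_nhds.1 hx _ hrC] with n hn hxn
    have h1 : ∀ u ∈ ball ζ ε, Complex.exp u ∈ ψ n '' ball 0 θ := by
      intro u hu
      apply hn.inn
      have h2 := hεs u hu
      rw [mem_ball] at h2 ⊢
      have h3 := dist_triangle (Complex.exp u) x0 (x n)
      rw [dist_comm x0 (x n)] at h3
      have h4 : r / C = r / (2 * C) + r / (2 * C) := by
        field_simp
        norm_num
      linarith
    have h2 : ball (0 : ℂ) θ ⊆ ball 0 1 := ball_subset_ball hθ1.le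
    have h3 : ∀ u ∈ ball ζ ε, ‖V n u‖ < θ ∧ ψ n (V n u) = Complex.exp u := by
      intro u hu
      obtain ⟨v, hv, hvu⟩ := h1 u hu
      have h4 : Complex.exp u ∈ ψ n '' ball 0 1 := ⟨v, h2 hv, hvu⟩
      have h5 : Function.invFunOn (ψ n) (ball 0 1) (Complex.exp u) ∈ ball (0 : ℂ) 1 := Function.invFunOn_mem h4
      have h6 : ψ n (Function.invFunOn (ψ n) (ball 0 1) (Complex.exp u)) = Complex.exp u := Function.invFunOn_eq h4
      have h7 : Function.invFunOn (ψ n) (ball 0 1) (Complex.exp u) = v := hn.inj h5 (h2 hv) (h6.trans hvu.symm)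
      rw [hV]
      refine ⟨?_, h6⟩
      show ‖Function.invFunOn (ψ n) (ball 0 1) (Complex.exp u)‖ < θ
      rw [h7]
      exact mem_ball_zero_iff.1 hv
    refine ⟨fun u hu => ?_, h3⟩
    have h4 : Complex.exp u ∈ ψ n '' ball 0 1 := image_mono h2 (h1 u hu)
    have h5 : DifferentiableAt ℂ (Function.invFunOn (ψ n) (ball 0 1)) (Complex.exp u) :=
      inv_hol isOpen_ball hn.diff hn.inj h4
    have h6 : DifferentiableAt ℂ (fun u => Function.invFunOn (ψ n) (ball 0 1) (Complex.exp u)) u :=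
      h5.comp u Complex.differentiableAt_exp
    rw [hV]
    exact h6.differentiableWithinAt
  obtain ⟨V0, hV0d, hV0⟩ := um 𝒰 (isOpen_ball (x := ζ) (ε := ε)) (hVn.mono fun n hn => hn.1) (fun u hu => by
    obtain ⟨t, ht, hts⟩ := Metric.isOpen_iff.1 (isOpen_ball (x := ζ) (ε := ε)) u hu
    refine ⟨t, θ, ht, hts, ?_⟩
    filter_upwards [hVn] with n hn v hv
    exact (hn.2 v (hts hv)).1.le)
  have hV0t : ∀ u ∈ ball ζ ε, Tendsto (fun n => V n u) (𝒰 : Filter ℕ) (𝓝 (V0 u)) := fun u hu => hV0.tendsto_at hu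
  have hV0θ : ∀ u ∈ ball ζ ε, ‖V0 u‖ ≤ θ := by
    intro u hu
    refine le_of_tendsto (hV0t u hu).norm ?_
    filter_upwards [hVn] with n hn
    exact (hn.2 u hu).1.le
  have hV01 : ∀ u ∈ ball ζ ε, V0 u ∈ ball (0 : ℂ) 1 := by
    intro u hu
    rw [mem_ball_zero_iff]
    exact (hV0θ u hu).trans_lt hθ1
  have hVw : ∀ u ∈ ball ζ ε, Tendsto (fun n => V n u) (𝒰 : Filter ℕ) (𝓝[ball 0 1] (V0 u)) := by
    intro u hu
    refine tendsto_nhdsWithin_iff.2 ⟨hV0t u hu, ?_⟩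
    filter_upwards [hVn] with n hn
    rw [mem_ball_zero_iff]
    exact (hn.2 u hu).1.trans hθ1
  have hψV : ∀ u ∈ ball ζ ε, ψ0 (V0 u) = Complex.exp u := by
    intro u hu
    have h1 : Tendsto (fun n => ψ n (V n u)) (𝒰 : Filter ℕ) (𝓝 (ψ0 (V0 u))) :=
      hψψ.tendsto_comp (hg.diff.continuousOn _ (hV01 u hu)) (hV01 u hu) (hVw u hu)
    refine tendsto_nhds_unique h1 (tendsto_const_nhds.congr' ?_)
    filter_upwards [hVn] with n hn
    exact ((hn.2 u hu).2).symm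
  have hφV : ∀ u ∈ ball ζ ε, Tendsto (fun n => φ n (V n u)) (𝒰 : Filter ℕ) (𝓝 (κ * u + c)) := by
    intro u hu
    have h1 : Tendsto (fun n => φ n (V n u)) (𝒰 : Filter ℕ) (𝓝 (φ0 (V0 u))) :=
      hφφ.tendsto_comp (hφ0d.continuousOn _ (hV01 u hu)) (hV01 u hu) (hVw u hu)
    have h2 : φ0 (V0 u) = κ * u + c := by
      rw [hφ0 (hV01 u hu)]
      show κ * Lg (ψ0 (V0 u)) + c = κ * u + c
      rw [hψV u hu, hLu u]
      rw [mem_ball, dist_eq_norm] at hu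
      exact hu.trans_le hε1
    rwa [h2] at h1
  -- bounds
  obtain ⟨M, hM⟩ := um_bd 𝒰 hφ0d.continuousOn hφφ (isCompact_closedBall (0 : ℂ) θ) (closedBall_subset_ball hθ1)
  have hGn : ∀ᶠ n in (𝒰 : Filter ℕ), DifferentiableOn ℂ (fun u => φ n (V n u)) (ball ζ ε) := by
    filter_upwards [hVn, hφ] with n hn hφn
    refine hφn.1.comp hn.1 fun u hu => ?_
    rw [mem_ball_zero_iff]
    exact (hn.2 u hu).1.trans hθ1
  obtain ⟨G0, hG0d, hG0⟩ := um 𝒰 (isOpen_ball (x := ζ) (ε := ε)) hGn (fun u hu => by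
    obtain ⟨t, ht, hts⟩ := Metric.isOpen_iff.1 (isOpen_ball (x := ζ) (ε := ε)) u hu
    refine ⟨t, M, ht, hts, ?_⟩
    filter_upwards [hVn, hM] with n hn hMn v hv
    apply hMn
    rw [mem_closedBall_zero_iff]
    exact (hn.2 v (hts hv)).1.le)
  refine ⟨ε, fun n u => φ n (V n u), hε, ?_, hG0.congr_right fun u hu => ?_⟩
  · filter_upwards [hVn, hφ, hGn] with n hn hφn hG
    refine ⟨hG, fun u hu => ?_⟩
    have h1 : V n u ∈ ball (0 : ℂ) 1 := by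
      rw [mem_ball_zero_iff]
      exact (hn.2 u hu).1.trans hθ1
    obtain ⟨h2, h3⟩ := hφn.2 _ h1
    exact ⟨h2, h3.trans (hn.2 u hu).2⟩
  · exact tendsto_nhds_unique (hG0.tendsto_at hu) (hφV u hu)

end Pool.Agent.H43.UB
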