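import Pool.Agent.H43.UB.UM

/-!
# THEOREM UD, chapter B: the limit set `Ph`, and uniqueness of lifts

`ph_app`: `P n` is closed and not empty: let `x n` be a nearest point to `w` (`IsClosed.exists_infDist_eq_dist`). `ph_mem`: definition. `ph_closed`: `isClosed_of_closure_subset` or sequences of `ε / 2`. `ph_off`: otherwise for almost all `n` (ultrafilter) there is `y n ∈ K ∩ P n`; `K` is compact: a limit `y ∈ K` (`IsCompact.ultrafilter_le_nhds`), `y ∈ Ph`.
`lift_eq`: `{u ∈ S | Q u = Q' u}` is closed in `S`; open: `deriv H u = deriv F (Q u) * deriv Q u ≠ 0`, so `deriv F (Q u) ≠ 0`, `F` is injective near `Q u` (strict derivative: `HasStrictDerivAt`, `hasStrictFDerivAt_equiv`, `eventually_left_inverse` as in `loc_inj` of H18/UP/BAS), and `Q v, Q' v` are near `Q u` with `F (Q v) = F (Q' v)`. `IsPreconnected.subset_left_of_subset_union` or `IsPreconnected.subset_clopen`.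
-/

set_option autoImplicit false

open Filter Topology Metric Set MeasureTheory

namespace Pool.Agent.H43.UB

open Pool.Agent.H56.UD

variable {𝒰 : Ultrafilter ℕ} {P : ℕ → Set ℂ}

theorem ph_closed : IsClosed (Ph 𝒰 P) := by
  refine isClosed_of_closure_subset fun w hw ε hε => ?_
  obtain ⟨w', hw', hd⟩ := Metric.mem_closure_iff.1 hw (ε / 2) (by positivity)
  filter_upwards [hw' (ε / 2) (by positivity)] with n hn
  obtain ⟨y, hy, hy2⟩ := hn
  refine ⟨y, hy, ?_⟩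
  rw [dist_comm, dist_eq_norm] at hd
  have h1 : y - w = (y - w') + (w' - w) := by ring
  rw [h1]
  exact (norm_add_le _ _).trans_lt (by linarith)

theorem ph_mem {x : ℕ → ℂ} (hx : ∀ᶠ n in (𝒰 : Filter ℕ), x n ∈ P n) {w : ℂ} (h : Tendsto x (𝒰 : Filter ℕ) (𝓝 w)) : w ∈ Ph 𝒰 P := by
  intro ε hε
  filter_upwards [hx, Metric.tendsto_nhds.1 h ε hε] with n hn hd
  exact ⟨x n, hn, by rwa [dist_eq_norm] at hd⟩

theorem ph_off {K : Set ℂ} (hK : IsCompact K) (h : Disjoint K (Ph 𝒰 P)) : ∀ᶠ n in (𝒰 : Filter ℕ), Disjoint K (P n) := by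
  by_contra hcon
  have hcon2 : ∀ᶠ n in (𝒰 : Filter ℕ), ¬ Disjoint K (P n) := Ultrafilter.eventually_not.2 hcon
  have hex : ∀ n, ∃ y : ℂ, ¬ Disjoint K (P n) → y ∈ K ∧ y ∈ P n := by
    intro n
    by_cases hn : Disjoint K (P n)
    · exact ⟨0, fun h => absurd hn h⟩
    · obtain ⟨y, hy1, hy2⟩ := Set.not_disjoint_iff.1 hn
      exact ⟨y, fun _ => ⟨hy1, hy2⟩⟩
  choose y hy using hex
  obtain ⟨w, hw, hw2⟩ := hK.ultrafilter_le_nhds (𝒰.map y) (by
    rw [Ultrafilter.coe_map, le_principal_iff, mem_map]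
    filter_upwards [hcon2] with n hn
    exact (hy n hn).1)
  have hP : w ∈ Ph 𝒰 P := ph_mem (x := y) (by
    filter_upwards [hcon2] with n hn
    exact (hy n hn).2) hw2
  exact Set.disjoint_left.1 h hw hP

theorem ph_app (hP : ∀ n, IsClosed (P n)) (hP0 : ∀ n, (P n).Nonempty) {w : ℂ} (hw : w ∈ Ph 𝒰 P) :
    ∃ x : ℕ → ℂ, (∀ n, x n ∈ P n) ∧ Tendsto x (𝒰 : Filter ℕ) (𝓝 w) := by
  have h1 : ∀ n, ∃ y ∈ P n, infDist w (P n) = dist w y := fun n =>
    (hP n).exists_infDist_eq_dist (hP0 n) w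
  choose x hx hd using h1
  refine ⟨x, hx, Metric.tendsto_nhds.2 fun ε hε => ?_⟩
  filter_upwards [hw ε hε] with n hn
  obtain ⟨y, hy, hy2⟩ := hn
  rw [dist_comm, ← hd n]
  refine (infDist_le_dist_of_mem hy).trans_lt ?_
  rw [dist_comm, dist_eq_norm]
  exact hy2

/-- two lifts of the same function which agree at one point agree -/
theorem lift_eq {F : ℂ → ℂ} {D S : Set ℂ} (Do : IsOpen D) (Fd : DifferentiableOn ℂ F D) (So : IsOpen S) (Sp : IsPreconnected S)
    {Q Q' H : ℂ → ℂ} (hQ : DifferentiableOn ℂ Q S) (hQ' : DifferentiableOn ℂ Q' S) (h : ∀ u ∈ S, Q u ∈ D ∧ F (Q u) = H u)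
    (h' : ∀ u ∈ S, Q' u ∈ D ∧ F (Q' u) = H u) (hH : ∀ u ∈ S, deriv H u ≠ 0) {q : ℂ} (hq : q ∈ S) (he : Q q = Q' q) : EqOn Q Q' S := by
  have hSn : S ∈ 𝓝 q := So.mem_nhds hq
  have hQq : DifferentiableAt ℂ Q q := hQ.differentiableAt hSn
  have hQq' : DifferentiableAt ℂ Q' q := hQ'.differentiableAt hSn
  have hFa : AnalyticAt ℂ F (Q q) := Fd.analyticAt (Do.mem_nhds (h q hq).1)
  have hd : deriv H q = deriv F (Q q) * deriv Q q := by
    have h1 : H =ᶠ[𝓝 q] F ∘ Q := by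
      filter_upwards [hSn] with u hu
      exact (h u hu).2.symm
    rw [h1.deriv_eq]
    exact deriv_comp q hFa.differentiableAt hQq
  have h0 : deriv F (Q q) ≠ 0 := by
    intro h1
    apply hH q hq
    rw [hd, h1, zero_mul]
  have h2 := hFa.hasStrictDerivAt.hasStrictFDerivAt_equiv h0
  have h3 := h2.eventually_left_inverse
  have h4 : ∀ᶠ x in 𝓝 (Q' q), h2.localInverse _ _ _ (F x) = x := by
    rw [← he]
    exact h3
  have hev : Q =ᶠ[𝓝 q] Q' := by
    have e1 := hQq.continuousAt.eventually h3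
    have e2 : ∀ᶠ v in 𝓝 q, h2.localInverse _ _ _ (F (Q' v)) = Q' v :=
      hQq'.continuousAt.eventually (h4 : ∀ᶠ x in 𝓝 (Q' q), h2.localInverse _ _ _ (F x) = x)
    filter_upwards [e1, e2, hSn] with v hv1 hv2 hv3
    have hv1' : h2.localInverse _ _ _ (F (Q v)) = Q v := hv1
    rw [← hv1', ← hv2, (h v hv3).2, (h' v hv3).2]
  exact (hQ.analyticOnNhd So).eqOn_of_preconnected_of_eventuallyEq (hQ'.analyticOnNhd So) Sp hq hev

end Pool.Agent.H43.UB
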